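import Pool.Agent.Lib.MP_e1e491_gt.P2.Basic

/-! The game of hex has at most one winner. -/

namespace KP2

open Set Metric
open scoped Classical

/-- Adjacency in coordinates. -/
def gridcross_adj (a b a' b' : ℕ) : Prop :=
  (a' = a + 1 ∧ b' = b) ∨ (a' = a ∧ b' = b + 1) ∨ (a' = a + 1 ∧ b' = b + 1) ∨
    (a = a' + 1 ∧ b = b') ∨ (a = a' ∧ b = b' + 1) ∨ (a = a' + 1 ∧ b = b' + 1)

/-- The edge joins the columns `x` and `x + 1` below the point `(x, y)`. -/
def gridcross_chi (a b a' b' x y : ℕ) : Prop :=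
  (a = x ∧ a' = x + 1 ∧ b < y) ∨ (a' = x ∧ a = x + 1 ∧ b' < y)

/-- The point `(a, b)` lies below the right end of the edge. -/
def gridcross_beta (x y x' y' a b : ℕ) : Prop :=
  (x' = x + 1 ∧ a = x' ∧ b < y') ∨ (x = x' + 1 ∧ a = x ∧ b < y)

/-- Edges that point up or to the right. -/
def gridcross_fwd (a b a' b' : ℕ) : Prop :=
  (a' = a + 1 ∧ b' = b) ∨ (a' = a ∧ b' = b + 1) ∨ (a' = a + 1 ∧ b' = b + 1)

theorem gridcross_adj_iff {a b a' b' : ℕ} (h : gridcross_adj a b a' b') :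
    gridcross_fwd a b a' b' ∨ gridcross_fwd a' b' a b := by
  unfold gridcross_adj at h
  unfold gridcross_fwd
  tauto

theorem gridcross_chi_comm (a b a' b' x y : ℕ) :
    gridcross_chi a b a' b' x y ↔ gridcross_chi a' b' a b x y := or_comm

theorem gridcross_beta_comm (x y x' y' a b : ℕ) :
    gridcross_beta x y x' y' a b ↔ gridcross_beta x' y' x y a b := or_comm

theorem gridcross_chi_fwd {a b a' b' : ℕ} (h : gridcross_fwd a b a' b') (x y : ℕ) :
    gridcross_chi a b a' b' x y ↔ (a = x ∧ a' = x + 1 ∧ b < y) := by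
  unfold gridcross_fwd at h
  refine ⟨fun h' => h'.resolve_right (by omega), Or.inl⟩

theorem gridcross_beta_fwd {x y x' y' : ℕ} (h : gridcross_fwd x y x' y') (a b : ℕ) :
    gridcross_beta x y x' y' a b ↔ (x' = x + 1 ∧ a = x' ∧ b < y') := by
  unfold gridcross_fwd at h
  refine ⟨fun h' => h'.resolve_right (by omega), Or.inl⟩

theorem gridcross_edge' {a b a' b' x y x' y' : ℕ} (h : gridcross_fwd a b a' b')
    (h' : gridcross_fwd x y x' y') (h1 : ¬ (x = a ∧ y = b)) (h2 : ¬ (x = a' ∧ y = b'))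
    (h3 : ¬ (x' = a ∧ y' = b)) (h4 : ¬ (x' = a' ∧ y' = b')) :
    (gridcross_chi a b a' b' x y ↔ gridcross_chi a b a' b' x' y') ↔
      (gridcross_beta x y x' y' a b ↔ gridcross_beta x y x' y' a' b') := by
  rw [gridcross_chi_fwd h, gridcross_chi_fwd h, gridcross_beta_fwd h', gridcross_beta_fwd h']
  rcases h with ⟨rfl, rfl⟩ | ⟨rfl, rfl⟩ | ⟨rfl, rfl⟩ <;>
  rcases h' with ⟨rfl, rfl⟩ | ⟨rfl, rfl⟩ | ⟨rfl, rfl⟩ <;>
  omega

theorem gridcross_edge {a b a' b' x y x' y' : ℕ} (h : gridcross_adj a b a' b')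
    (h' : gridcross_adj x y x' y') (h1 : ¬ (x = a ∧ y = b)) (h2 : ¬ (x = a' ∧ y = b'))
    (h3 : ¬ (x' = a ∧ y' = b)) (h4 : ¬ (x' = a' ∧ y' = b')) :
    (gridcross_chi a b a' b' x y ↔ gridcross_chi a b a' b' x' y') ↔
      (gridcross_beta x y x' y' a b ↔ gridcross_beta x y x' y' a' b') := by
  rcases gridcross_adj_iff h with h | h <;> rcases gridcross_adj_iff h' with h' | h'
  · exact gridcross_edge' h h' h1 h2 h3 h4
  · have := gridcross_edge' h h' h3 h4 h1 h2
    rw [gridcross_beta_comm x y x' y', gridcross_beta_comm x y x' y', ← this]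
    exact Iff.comm
  · have := gridcross_edge' h h' h2 h1 h4 h3
    rw [gridcross_chi_comm a b a' b', gridcross_chi_comm a b a' b', this]
    exact Iff.comm
  · have := gridcross_edge' h h' h4 h3 h2 h1
    rw [gridcross_chi_comm a b a' b', gridcross_chi_comm a b a' b',
      gridcross_beta_comm x y x' y', gridcross_beta_comm x y x' y']
    exact (Iff.comm.trans this).trans Iff.comm

theorem gridcross_top {a b a' b' x n : ℕ} (h : gridcross_adj a b a' b') (hb : b ≤ n)
    (hb' : b' ≤ n) (h1 : ¬ (x = a ∧ n = b)) (h2 : ¬ (x = a' ∧ n = b')) :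
    gridcross_chi a b a' b' x n ↔ ¬ (x < a ↔ x < a') := by
  unfold gridcross_chi
  rcases h with ⟨rfl, rfl⟩ | ⟨rfl, rfl⟩ | ⟨rfl, rfl⟩ | ⟨rfl, rfl⟩ | ⟨rfl, rfl⟩ | ⟨rfl, rfl⟩ <;>
  omega

theorem gridcross_ext {n : ℕ} {v w : Bool → Fin (n + 1)} (h1 : (v false : ℕ) = w false)
    (h2 : (v true : ℕ) = w true) : v = w := by
  funext i
  cases i
  · exact Fin.ext h1
  · exact Fin.ext h2

theorem gridcross_of_adj {n : ℕ} {v w : Bool → Fin (n + 1)} (h : (gridG n).Adj v w) :
    gridcross_adj (v false) (v true) (w false) (w true) := by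
  obtain ⟨hne, h⟩ := h
  have hne' : ¬ ((v false : ℕ) = w false ∧ (v true : ℕ) = w true) :=
    fun h' => hne (gridcross_ext h'.1 h'.2)
  unfold gridcross_adj
  rcases h with h | h
  · have h1 := h false
    have h2 := h true
    omega
  · have h1 := h false
    have h2 := h true
    omega

/-- The parity of the number of crossings below a point, for a walk that ends at `(a, b)`. -/
def gridcross_inv (n : ℕ) (W : Set (Bool → Fin (n + 1))) (a b : ℕ) : Prop :=
  ∃ Φ : (Bool → Fin (n + 1)) → Prop,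
    (∀ v ∈ Wᶜ, ∀ w ∈ Wᶜ, (gridG n).Adj v w →
      ((Φ v ↔ Φ w) ↔ ¬ gridcross_beta (v false) (v true) (w false) (w true) a b)) ∧
    (∀ v, (v true : ℕ) = 0 → ¬ Φ v) ∧
    ∀ v ∈ Wᶜ, (v true : ℕ) = n → (Φ v ↔ (v false : ℕ) < a)

theorem gridcross_step {n : ℕ} {W : Set (Bool → Fin (n + 1))} {a b a' b' : ℕ}
    (h : gridcross_inv n W a b) (hadj : gridcross_adj a b a' b') (hb : b ≤ n) (hb' : b' ≤ n)
    (h1 : ∀ v ∈ Wᶜ, ¬ ((v false : ℕ) = a ∧ (v true : ℕ) = b))
    (h2 : ∀ v ∈ Wᶜ, ¬ ((v false : ℕ) = a' ∧ (v true : ℕ) = b')) : gridcross_inv n W a' b' := by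
  obtain ⟨Φ, hΦ, h0, hn⟩ := h
  refine ⟨fun v => ¬ (Φ v ↔ gridcross_chi a b a' b' (v false) (v true)), ?_, ?_, ?_⟩
  · intro v hv w hw hvw
    have e1 := hΦ v hv w hw hvw
    have e2 := gridcross_edge hadj (gridcross_of_adj hvw) (h1 v hv) (h2 v hv) (h1 w hw) (h2 w hw)
    tauto
  · intro v hv
    have e1 := h0 v hv
    have e2 : ¬ gridcross_chi a b a' b' (v false) (v true) := by
      unfold gridcross_chi
      omega
    tauto
  · intro v hv hvn
    have e1 := hn v hv hvn
    have e2 := gridcross_top (x := v false) (n := v true) hadj (hb.trans hvn.ge)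
      (hb'.trans hvn.ge) (h1 v hv) (h2 v hv)
    tauto

theorem grid_cross (n : ℕ) (W : Set (Bool → Fin (n + 1)))
    (h : Cr (gridG n) (gridS n) false W) : ¬ Cr (gridG n) (gridS n) true Wᶜ := by
  obtain ⟨a, ha, b, hb, hab⟩ := h
  rintro ⟨c, hc, d, hd, hcd⟩
  have ha' : (a false : ℕ) = 0 := ha
  have hb' : (b false : ℕ) = n := hb
  have hc' : (c true : ℕ) = 0 := hc
  have hd' : (d true : ℕ) = n := hd
  have hne : ∀ u ∈ W, ∀ v ∈ Wᶜ, ¬ ((v false : ℕ) = u false ∧ (v true : ℕ) = u true) :=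
    fun u hu v hv h => hv (gridcross_ext h.1 h.2 ▸ hu)
  have h0 : gridcross_inv n W (a false) (a true) := by
    refine ⟨fun _ => False, fun v _ w _ _ => ?_, fun _ _ h => h, fun v _ _ => ?_⟩
    · unfold gridcross_beta
      simp only [true_iff]
      omega
    · simp only [false_iff]
      omega
  have h1 : gridcross_inv n W (b false) (b true) :=
    hab.induction (P := fun u => gridcross_inv n W (u false) (u true)) h0
      fun u hu u' hu' huu h => gridcross_step h (gridcross_of_adj huu)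
        (Nat.lt_succ_iff.1 (u true).2) (Nat.lt_succ_iff.1 (u' true).2) (hne u hu) (hne u' hu')
  have h2 : gridcross_inv n W (n + 1) (b true) := by
    refine gridcross_step h1 (Or.inl ⟨by omega, rfl⟩) (Nat.lt_succ_iff.1 (b true).2)
      (Nat.lt_succ_iff.1 (b true).2) (hne b hab.right_mem) fun v _ h => ?_
    have := (v false).2
    omega
  obtain ⟨Φ, hΦ, h3, h4⟩ := h2
  have h5 : ¬ Φ d := by
    refine hcd.induction (P := fun v => ¬ Φ v) (h3 c hc') fun v hv w hw hvw h => ?_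
    have e1 := hΦ v hv w hw hvw
    have e2 : ¬ gridcross_beta (v false) (v true) (w false) (w true) (n + 1) (b true) := by
      unfold gridcross_beta
      have := (v false).2
      have := (w false).2
      omega
    tauto
  exact h5 ((h4 d hcd.right_mem hd').2 (d false).2)

end KP2
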