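import Pool.Agent.Lib.MP_e1e491_gt.P2.Basic

/-! The game of hex has a winner. -/

namespace KP2

open Set Metric
open scoped Classical

/-- The weight of an edge with the colours `a` and `b`. -/
def gridhex_w (a b : Fin 3) : ZMod 2 := if (a = 0 ∧ b = 1) ∨ (a = 1 ∧ b = 0) then 1 else 0

/-- The indicator of a colour. -/
def gridhex_i (k a : Fin 3) : ZMod 2 := if a = k then 1 else 0

theorem gridhex_tri : ∀ a b d : Fin 3, (a = 0 → b = 1 → d ≠ 2) → (b = 0 → a = 1 → d ≠ 2) →
    (a = 0 → d = 1 → b ≠ 2) → (d = 0 → a = 1 → b ≠ 2) → (b = 0 → d = 1 → a ≠ 2) →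
    (d = 0 → b = 1 → a ≠ 2) → gridhex_w a b + gridhex_w b d = gridhex_w a d := by
  unfold gridhex_w
  decide

theorem gridhex_left : ∀ a b : Fin 3, (a = 1 → b ≠ 2) → (b = 1 → a ≠ 2) →
    gridhex_w a b = gridhex_i 1 b - gridhex_i 1 a := by
  unfold gridhex_w gridhex_i
  decide

theorem gridhex_bot : ∀ a b : Fin 3, (a = 0 → b ≠ 2) → (b = 0 → a ≠ 2) →
    gridhex_w a b = gridhex_i 0 b - gridhex_i 0 a := by
  unfold gridhex_w gridhex_i
  decide

theorem gridhex_zero : ∀ k a b : Fin 3, k ≠ 2 → a ≠ k → b ≠ k →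
    gridhex_w a b = 0 ∧ gridhex_i k a = 0 := by
  unfold gridhex_w gridhex_i
  decide

theorem gridhex_corner : ∀ a : Fin 3, a ≠ 2 → gridhex_i 0 a + gridhex_i 1 a ≠ 0 := by
  unfold gridhex_i
  decide

theorem gridhex_two : ∀ a b d e : ZMod 2, a + b = d + e → (e - a) + (b - d) = 0 := by
  decide

theorem gridhex_core (n : ℕ) (c : ℕ → ℕ → Fin 3)
    (cell : ∀ x < n, ∀ y < n, gridhex_w (c x y) (c (x + 1) y) +
      gridhex_w (c (x + 1) y) (c (x + 1) (y + 1)) =
      gridhex_w (c x y) (c x (y + 1)) + gridhex_w (c x (y + 1)) (c (x + 1) (y + 1)))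
    (right : ∀ y ≤ n, c n y ≠ 0) (top : ∀ x ≤ n, c x n ≠ 1)
    (left : ∀ y < n, (c 0 y = 1 → c 0 (y + 1) ≠ 2) ∧ (c 0 (y + 1) = 1 → c 0 y ≠ 2))
    (bot : ∀ x < n, (c x 0 = 0 → c (x + 1) 0 ≠ 2) ∧ (c (x + 1) 0 = 0 → c x 0 ≠ 2)) :
    c 0 0 = 2 := by
  by_contra h
  have h1 : ∑ x ∈ Finset.range n, ∑ y ∈ Finset.range n,
      ((gridhex_w (c x (y + 1)) (c (x + 1) (y + 1)) - gridhex_w (c x y) (c (x + 1) y)) +
        (gridhex_w (c (x + 1) y) (c (x + 1) (y + 1)) - gridhex_w (c x y) (c x (y + 1)))) = 0 :=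
    Finset.sum_eq_zero fun x hx => Finset.sum_eq_zero fun y hy =>
      gridhex_two _ _ _ _ (cell x (Finset.mem_range.1 hx) y (Finset.mem_range.1 hy))
  simp only [Finset.sum_add_distrib] at h1
  rw [Finset.sum_comm (f := fun x y => gridhex_w (c (x + 1) y) (c (x + 1) (y + 1)) -
    gridhex_w (c x y) (c x (y + 1)))] at h1
  have h2 : ∀ x ∈ Finset.range n, ∑ y ∈ Finset.range n,
      (gridhex_w (c x (y + 1)) (c (x + 1) (y + 1)) - gridhex_w (c x y) (c (x + 1) y)) =
      -(gridhex_i 0 (c (x + 1) 0) - gridhex_i 0 (c x 0)) := fun x hx => by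
    have hx' := Finset.mem_range.1 hx
    rw [Finset.sum_range_sub (fun y => gridhex_w (c x y) (c (x + 1) y)),
      (gridhex_zero 1 _ _ (by decide) (top x hx'.le) (top (x + 1) hx')).1,
      gridhex_bot _ _ (bot x hx').1 (bot x hx').2, zero_sub]
  have h3 : ∀ y ∈ Finset.range n, ∑ x ∈ Finset.range n,
      (gridhex_w (c (x + 1) y) (c (x + 1) (y + 1)) - gridhex_w (c x y) (c x (y + 1))) =
      -(gridhex_i 1 (c 0 (y + 1)) - gridhex_i 1 (c 0 y)) := fun y hy => by
    have hy' := Finset.mem_range.1 hy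
    rw [Finset.sum_range_sub (fun x => gridhex_w (c x y) (c x (y + 1))),
      (gridhex_zero 0 _ _ (by decide) (right y hy'.le) (right (y + 1) hy')).1,
      gridhex_left _ _ (left y hy').1 (left y hy').2, zero_sub]
  rw [Finset.sum_congr rfl h2, Finset.sum_congr rfl h3, Finset.sum_neg_distrib,
    Finset.sum_neg_distrib, Finset.sum_range_sub (fun x => gridhex_i 0 (c x 0)),
    Finset.sum_range_sub (fun y => gridhex_i 1 (c 0 y)),
    (gridhex_zero 0 _ _ (by decide) (right 0 n.zero_le) (right 0 n.zero_le)).2,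
    (gridhex_zero 1 _ _ (by decide) (top 0 n.zero_le) (top 0 n.zero_le)).2, zero_sub, zero_sub,
    neg_neg, neg_neg] at h1
  exact gridhex_corner _ h h1

/-- The grid point with the coordinates `x` and `y`. -/
def gridhex_pt (n x y : ℕ) : Bool → Fin (n + 1) := fun i =>
  ⟨min (if i then y else x) n, Nat.lt_succ_of_le (min_le_right _ _)⟩

theorem gridhex_adj {n x y x' y' : ℕ} (h1 : x' ≤ n) (h2 : y' ≤ n) (h3 : x ≤ x') (h4 : x' ≤ x + 1)
    (h5 : y ≤ y') (h6 : y' ≤ y + 1) (h7 : x + y < x' + y') :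
    (gridG n).Adj (gridhex_pt n x y) (gridhex_pt n x' y') := by
  refine ⟨fun e => ?_, Or.inl fun i => ?_⟩
  · have e1 := congrArg (fun v => (v false : ℕ)) e
    have e2 := congrArg (fun v => (v true : ℕ)) e
    simp only [gridhex_pt, Bool.false_eq_true, if_false, if_true] at e1 e2
    omega
  · cases i <;> simp only [gridhex_pt, Bool.false_eq_true, if_false, if_true] <;> omega

theorem grid_hex (n : ℕ) (W : Set (Bool → Fin (n + 1)))
    (h : ¬ Cr (gridG n) (gridS n) true Wᶜ) : Cr (gridG n) (gridS n) false W := by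
  by_contra h'
  obtain ⟨c, c0, c1⟩ : ∃ c : (Bool → Fin (n + 1)) → Fin 3,
      (∀ v, c v = 0 ↔ ∃ a ∈ gridS n false false, Con (gridG n) W a v) ∧
      ∀ v, c v = 1 ↔ ∃ a ∈ gridS n true false, Con (gridG n) Wᶜ a v := by
    refine ⟨fun v => if ∃ a ∈ gridS n false false, Con (gridG n) W a v then 0 else
      if ∃ a ∈ gridS n true false, Con (gridG n) Wᶜ a v then 1 else 2, fun v => ?_, fun v => ?_⟩
    · beta_reduce
      split_ifs with p q
      · exact iff_of_true rfl p
      · exact iff_of_false (by decide) p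
      · exact iff_of_false (by decide) p
    · beta_reduce
      split_ifs with p q
      · refine iff_of_false (by decide) ?_
        rintro ⟨a, -, ha⟩
        obtain ⟨b, -, hb⟩ := p
        exact ha.right_mem hb.right_mem
      · exact iff_of_true rfl q
      · exact iff_of_false (by decide) q
  have s0 : ∀ u v, (gridG n).Adj u v → c u = 0 → v ∈ W → c v ≠ 2 := fun u v e hu hv => by
    obtain ⟨a, ha, q⟩ := (c0 u).1 hu
    rw [(c0 v).2 ⟨a, ha, q.trans (Con.of_adj e q.right_mem hv)⟩]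
    decide
  have s1 : ∀ u v, (gridG n).Adj u v → c u = 1 → v ∉ W → c v ≠ 2 := fun u v e hu hv => by
    obtain ⟨a, ha, q⟩ := (c1 u).1 hu
    rw [(c1 v).2 ⟨a, ha, q.trans (Con.of_adj e q.right_mem hv)⟩]
    decide
  have l0 : ∀ v ∈ gridS n false false, v ∈ W → c v ≠ 2 := fun v hv hw => by
    rw [(c0 v).2 ⟨v, hv, Con.refl hw⟩]
    decide
  have l1 : ∀ v ∈ gridS n true false, v ∉ W → c v ≠ 2 := fun v hv hw => by
    rw [(c1 v).2 ⟨v, hv, Con.refl hw⟩]
    decide
  have s2 : ∀ {u v t}, (gridG n).Adj u t → (gridG n).Adj v t → c u = 0 → c v = 1 → c t ≠ 2 :=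
    fun {u v t} e e' hu hv => (em (t ∈ W)).elim (s0 u t e hu) (s1 v t e' hv)
  have tri : ∀ {u v t}, (gridG n).Adj u v → (gridG n).Adj v t → (gridG n).Adj u t →
      gridhex_w (c u) (c v) + gridhex_w (c v) (c t) = gridhex_w (c u) (c t) :=
    fun {u v t} e1 e2 e3 => gridhex_tri _ _ _ (s2 e3 e2) (s2 e2 e3) (s2 e1 e2.symm)
      (s2 e2.symm e1) (s2 e1.symm e3.symm) (s2 e3.symm e1.symm)
  have m0 : ∀ y, gridhex_pt n 0 y ∈ gridS n false false := fun y => by simp [gridS, gridhex_pt]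
  have m1 : ∀ x, gridhex_pt n x 0 ∈ gridS n true false := fun y => by simp [gridS, gridhex_pt]
  refine (em (gridhex_pt n 0 0 ∈ W)).elim (l0 _ (m0 0)) (l1 _ (m1 0))
    (gridhex_core n (fun x y => c (gridhex_pt n x y)) (fun x hx y hy => ?_) (fun y _ hc => ?_)
      (fun x _ hc => ?_) (fun y hy => ?_) (fun x hx => ?_))
  · exact (tri (gridhex_adj (by omega) (by omega) (by omega) (by omega) (by omega) (by omega)
      (by omega)) (gridhex_adj (by omega) (by omega) (by omega) (by omega) (by omega) (by omega)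
      (by omega)) (gridhex_adj (by omega) (by omega) (by omega) (by omega) (by omega) (by omega)
      (by omega))).trans (tri (gridhex_adj (by omega) (by omega) (by omega) (by omega) (by omega)
      (by omega) (by omega)) (gridhex_adj (by omega) (by omega) (by omega) (by omega) (by omega)
      (by omega) (by omega)) (gridhex_adj (by omega) (by omega) (by omega) (by omega) (by omega)
      (by omega) (by omega))).symm
  · obtain ⟨a, ha, q⟩ := (c0 _).1 hc
    exact h' ⟨a, ha, _, by simp [gridS, gridhex_pt], q⟩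
  · obtain ⟨a, ha, q⟩ := (c1 _).1 hc
    exact h ⟨a, ha, _, by simp [gridS, gridhex_pt], q⟩
  · have e : (gridG n).Adj (gridhex_pt n 0 y) (gridhex_pt n 0 (y + 1)) :=
      gridhex_adj (by omega) (by omega) (by omega) (by omega) (by omega) (by omega) (by omega)
    exact ⟨fun hc => (em (_ ∈ W)).elim (l0 _ (m0 _)) (s1 _ _ e hc),
      fun hc => (em (_ ∈ W)).elim (l0 _ (m0 _)) (s1 _ _ e.symm hc)⟩
  · have e : (gridG n).Adj (gridhex_pt n x 0) (gridhex_pt n (x + 1) 0) :=
      gridhex_adj (by omega) (by omega) (by omega) (by omega) (by omega) (by omega) (by omega)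
    exact ⟨fun hc => (em (_ ∈ W)).elim (s0 _ _ e hc) (l1 _ (m1 _)),
      fun hc => (em (_ ∈ W)).elim (s0 _ _ e.symm hc) (l1 _ (m1 _))⟩

end KP2
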