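import Pool.Agent.Lib.MP_e1e491_gt.P2.Basic

/-! Quotients with connected fibres. -/

namespace KP2

open Set Metric
open scoped Classical

variable {V V' : Type} {G : SimpleGraph V} {π : V → V'}

theorem Con.quot {W : Set V} {v w : V} (h : Con G W v w) :
    Con (quotG G π) (π '' W) (π v) (π w) := by
  refine Con.induction (P := fun x => Con (quotG G π) (π '' W) (π v) (π x)) h
    (Con.refl (mem_image_of_mem π h.left_mem)) ?_
  intro a ha b hb hab ih
  by_cases e : π a = π b
  · rw [← e]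
    exact ih
  · exact ih.trans (Con.of_adj ⟨e, a, b, hab, rfl, rfl⟩ (mem_image_of_mem π ha)
      (mem_image_of_mem π hb))

theorem Cn.quot {W : Set V} (h : Cn G W) : Cn (quotG G π) (π '' W) := by
  rintro _ ⟨a, ha, rfl⟩ _ ⟨b, hb, rfl⟩
  exact (h a ha b hb).quot

theorem quot_fibre (hf : ∀ a, Cn G {v | π v = a}) {W : Set V'} {v w : V} (e : π v = π w)
    (hw : π w ∈ W) : Con G (π ⁻¹' W) v w := by
  refine (hf (π w) v e w rfl).mono ?_
  intro x hx
  have hx' : π x = π w := hx
  show π x ∈ W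
  rw [hx']
  exact hw

theorem Con.lift (hf : ∀ a, Cn G {v | π v = a}) {W : Set V'} {v w : V}
    (h : Con (quotG G π) W (π v) (π w)) : Con G (π ⁻¹' W) v w := by
  have key : ∀ x, π x = π w → Con G (π ⁻¹' W) v x := by
    refine Con.induction (P := fun a => ∀ x, π x = a → Con G (π ⁻¹' W) v x) h ?_ ?_
    · intro x hx
      exact quot_fibre hf hx.symm (by rw [hx]; exact h.left_mem)
    · rintro a ha b hb ⟨-, v', w', hadj, rfl, rfl⟩ ih x hx
      exact ((ih v' rfl).trans (Con.of_adj hadj ha hb)).trans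
        (quot_fibre hf hx.symm (by rw [hx]; exact hb))
  exact key w rfl

theorem quot_cr_iff {side : Bool → Bool → Set V} (hf : ∀ a, Cn G {v | π v = a}) (i : Bool)
    (W : Set V') :
    Cr (quotG G π) (fun i b => π '' side i b) i W ↔ Cr G side i (π ⁻¹' W) := by
  constructor
  · rintro ⟨_, ⟨a, ha, rfl⟩, _, ⟨b, hb, rfl⟩, h⟩
    exact ⟨a, ha, b, hb, h.lift hf⟩
  · rintro ⟨a, ha, b, hb, h⟩
    exact ⟨π a, mem_image_of_mem π ha, π b, mem_image_of_mem π hb,
      h.quot.mono (image_preimage_subset π W)⟩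

theorem HC.quot {side : Bool → Bool → Set V} (h : HC G side) (hf : ∀ a, Cn G {v | π v = a}) :
    HC (quotG G π) fun i b => π '' side i b := by
  intro W
  rw [quot_cr_iff hf, quot_cr_iff hf, preimage_compl]
  exact h _

theorem Ch.mono {I A B : Type} {X : I → Set A} {Y : I → Set B}
    (h : ∀ i j, (X i ∩ X j).Nonempty → (Y i ∩ Y j).Nonempty) {n : ℕ} {i j : I}
    (hc : Ch X n i j) : Ch Y n i j := by
  induction n generalizing i with
  | zero => exact hc
  | succ n ih =>
    obtain ⟨k, hk, hc'⟩ := hc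
    exact ⟨k, h i k hk, ih hc'⟩

end KP2
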