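import Pool.Agent.Lib.MP_e1e491_gt.P2.Basic

/-! Area bound, bounded degree and colouring. -/

namespace KP2

open Set Metric
open scoped Classical

variable {S J : Type} [MetricSpace S] [CompactSpace S] {D : Sq S J}

theorem Sh.card_le {I : Type} [Fintype I] {C₀ C p r : ℝ} (hP : Pack S C₀ p) (hC : 1 ≤ C)
    (A : Sh D I C r) (x : S) {t R : ℝ} (ht : 0 < t) (hR : t ≤ R) :
    ((Finset.univ.filter fun i => t ≤ A.s i ∧ A.s i ≤ 2 * t ∧ dist x (A.l i) ≤ R).card : ℝ) ≤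
      C * (C₀ * (R / t) ^ p) := by
  obtain ⟨T, hT, hsep, hnet⟩ :=
    exists_net (A.l '' {i | t ≤ A.s i ∧ A.s i ≤ 2 * t ∧ dist x (A.l i) ≤ R}) ht
  have h1 := hP t R ht hR x T hsep fun z hz => by
    obtain ⟨i, hi, rfl⟩ := hT (Finset.mem_coe.2 hz)
    rw [dist_comm]
    exact hi.2.2
  have h2 : (Finset.univ.filter fun i => t ≤ A.s i ∧ A.s i ≤ 2 * t ∧ dist x (A.l i) ≤ R) ⊆
      T.biUnion fun c => Finset.univ.filter fun i =>
        t ≤ A.s i ∧ A.s i ≤ 2 * t ∧ dist c (A.l i) ≤ t := fun i hi => by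
    have h3 := (Finset.mem_filter.1 hi).2
    obtain ⟨c, hc, hd⟩ := hnet (A.l i) ⟨i, h3, rfl⟩
    exact Finset.mem_biUnion.2 ⟨c, hc, Finset.mem_filter.2 ⟨Finset.mem_univ _, h3.1, h3.2.1, hd.le⟩⟩
  have h3 := (Finset.card_le_card h2).trans Finset.card_biUnion_le
  refine (Nat.cast_le.2 h3).trans ?_
  push_cast
  refine (Finset.sum_le_card_nsmul _ _ C fun c _ => A.c2 c t ht).trans ?_
  rw [nsmul_eq_mul, mul_comm]
  exact mul_le_mul_of_nonneg_left h1 (by linarith)

theorem exists_sum {C₀ C p : ℝ} (hP : Pack S C₀ p) (hC₀ : 1 ≤ C₀) (hp : p < 2) (hC : 1 ≤ C) :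
    ∃ K : ℝ, 1 ≤ K ∧ ∀ (I : Type) [Fintype I] (r : ℝ) (A : Sh D I C r), 0 < r →
      ∀ (x : S) (R : ℝ), ∑ i ∈ Finset.univ.filter (fun i => dist x (A.l i) + A.s i ≤ R),
        A.s i ^ 2 ≤ K * R ^ 2 := by
  have hq0 : (0 : ℝ) ≤ 2 ^ p / 4 := by positivity
  have hq1 : (2 : ℝ) ^ p / 4 < 1 := by
    have h := Real.rpow_lt_rpow_of_exponent_lt one_lt_two hp
    rw [Real.rpow_two] at h
    linarith
  refine ⟨max 1 (C * C₀ * 2 ^ p * (1 - 2 ^ p / 4)⁻¹), le_max_left _ _,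
    fun I _ r A hr x R => ?_⟩
  have hs : ∀ i, 0 < A.s i := fun i => hr.trans_le (A.le_s i)
  rcases le_or_gt R 0 with hR | hR
  · rw [Finset.filter_false_of_mem, Finset.sum_empty]
    · positivity
    · intro i _ h
      linarith [hs i, dist_nonneg (x := x) (y := A.l i)]
  refine le_trans ?_ (mul_le_mul_of_nonneg_right (le_max_right _ _) (sq_nonneg R))
  have hg : ∀ i, ∃ n : ℕ, dist x (A.l i) + A.s i ≤ R →
      (2 : ℝ) ^ n ≤ R / A.s i ∧ R / A.s i < 2 ^ (n + 1) := fun i => by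
    by_cases h : dist x (A.l i) + A.s i ≤ R
    · obtain ⟨n, hn⟩ := exists_nat_pow_near (x := R / A.s i) (y := (2 : ℝ))
        ((one_le_div (hs i)).2 (by linarith [dist_nonneg (x := x) (y := A.l i)])) one_lt_two
      exact ⟨n, fun _ => hn⟩
    · exact ⟨0, fun k => absurd k h⟩
  choose g hg using hg
  rw [← Finset.sum_fiberwise_of_maps_to (g := g) fun i hi => Finset.mem_image_of_mem g hi]
  have h1 := (hasSum_geometric_of_lt_one hq0 hq1).mul_left (C * C₀ * 2 ^ p * R ^ 2)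
  refine le_trans (Finset.sum_le_sum fun n _ => ?_) ((sum_le_hasSum _
    (fun n _ => by positivity) h1).trans (le_of_eq (by ring)))
  have h2 : (0 : ℝ) < 2 ^ (n + 1) := by positivity
  have h3 := A.card_le hP hC x (t := R / 2 ^ (n + 1)) (R := R) (by positivity)
    (div_le_self hR.le (one_le_pow₀ one_le_two))
  have h4 : ∀ i ∈ (Finset.univ.filter fun i => dist x (A.l i) + A.s i ≤ R).filter
      fun i => g i = n, R / 2 ^ (n + 1) ≤ A.s i ∧ A.s i ≤ 2 * (R / 2 ^ (n + 1)) ∧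
        dist x (A.l i) ≤ R := fun i hi => by
    obtain ⟨hi1, rfl⟩ := Finset.mem_filter.1 hi
    have h5 := (Finset.mem_filter.1 hi1).2
    obtain ⟨h6, h7⟩ := hg i h5
    rw [le_div_iff₀ (hs i)] at h6
    rw [div_lt_iff₀ (hs i)] at h7
    refine ⟨(div_le_iff₀ h2).2 (by linarith), ?_, by linarith [hs i]⟩
    rw [← mul_div_assoc, le_div_iff₀ h2, pow_succ]
    linarith
  refine (Finset.sum_le_card_nsmul _ _ ((2 * (R / 2 ^ (n + 1))) ^ 2) fun i hi =>
    pow_le_pow_left₀ (hs i).le (h4 i hi).2.1 2).trans ?_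
  rw [nsmul_eq_mul]
  refine (mul_le_mul_of_nonneg_right ((Nat.cast_le.2 (Finset.card_le_card fun i hi =>
    Finset.mem_filter.2 ⟨Finset.mem_univ _, h4 i hi⟩)).trans h3) (sq_nonneg _)).trans
    (le_of_eq ?_)
  have h5 : (4 : ℝ) ^ n = (2 ^ n) ^ 2 := by
    rw [← pow_mul, mul_comm, pow_mul]
    norm_num
  rw [div_div_cancel₀ hR.ne', ← Real.rpow_natCast 2 (n + 1), ← Real.rpow_mul zero_le_two,
    mul_comm _ p, Real.rpow_mul zero_le_two, Real.rpow_natCast, Real.rpow_natCast, div_pow, h5]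
  field_simp
  ring

theorem exists_deg {C₀ C p : ℝ} (hP : Pack S C₀ p) (hC₀ : 1 ≤ C₀) (hp : p < 2) (hC : 1 ≤ C) :
    ∃ N : ℕ, ∀ (I : Type) [Fintype I] (r : ℝ) (A : Sh D I C r), 0 < r → ∀ j,
      (Finset.univ.filter fun i => (A.U i ∩ A.U j).Nonempty).card ≤ N := by
  obtain ⟨K, hK, h⟩ := exists_sum (D := D) hP hC₀ hp hC
  refine ⟨⌈4 * K * C ^ 4⌉₊, fun I _ r A hr j => ?_⟩
  have hs : ∀ i, 0 < A.s i := fun i => hr.trans_le (A.le_s i)
  have hC0 : 0 < C := by linarith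
  have h1 := h I r A hr (A.l j) (2 * C * A.s j)
  have h2 : (Finset.univ.filter fun i => (A.U i ∩ A.U j).Nonempty) ⊆
      Finset.univ.filter fun i => dist (A.l j) (A.l i) + A.s i ≤ 2 * C * A.s j := fun i hi => by
    have h3 := A.c1 i j (Finset.mem_filter.1 hi).2
    refine Finset.mem_filter.2 ⟨Finset.mem_univ _, ?_⟩
    rw [dist_comm]
    linarith [h3.1, h3.2]
  have h3 := Finset.card_nsmul_le_sum (Finset.univ.filter fun i => (A.U i ∩ A.U j).Nonempty)
    (fun i => A.s i ^ 2) ((A.s j / C) ^ 2) fun i hi => by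
      have h4 := A.c1 j i (by rw [inter_comm]; exact (Finset.mem_filter.1 hi).2)
      exact pow_le_pow_left₀ (div_pos (hs j) hC0).le ((div_le_iff₀' hC0).2 h4.1) 2
  have h4 := (h3.trans (Finset.sum_le_sum_of_subset_of_nonneg h2
    fun i _ _ => sq_nonneg _)).trans h1
  rw [nsmul_eq_mul] at h4
  have h5 : K * (2 * C * A.s j) ^ 2 = 4 * K * C ^ 4 * (A.s j / C) ^ 2 := by
    field_simp
    ring
  rw [h5] at h4
  exact Nat.cast_le.1 ((le_of_mul_le_mul_right h4 (pow_pos (div_pos (hs j) hC0) 2)).trans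
    (Nat.le_ceil _))

/-- Greedy colouring. -/
theorem exists_colouring {I : Type} [Fintype I] (R : I → I → Prop) (hR : ∀ i j, R i j → R j i)
    {N : ℕ} (hN : ∀ j, (Finset.univ.filter fun i => R i j).card ≤ N) :
    ∃ col : I → ℕ, (∀ i, col i ≤ N) ∧ ∀ i j, i ≠ j → R i j → col i ≠ col j := by
  have key : ∀ T : Finset I, ∃ col : I → ℕ, (∀ i, col i ≤ N) ∧
      ∀ i ∈ T, ∀ j ∈ T, i ≠ j → R i j → col i ≠ col j := fun T => by
    induction T using Finset.induction_on with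
    | empty => exact ⟨fun _ => 0, fun _ => Nat.zero_le _, fun i hi => absurd hi (by simp)⟩
    | insert a T ha ih =>
      obtain ⟨col, h1, h2⟩ := ih
      obtain ⟨c, hc, hc'⟩ := Finset.exists_mem_notMem_of_card_lt_card
        (s := (Finset.univ.filter fun i => R i a).image col) (t := Finset.range (N + 1))
        (by rw [Finset.card_range]; exact Nat.lt_succ_of_le (Finset.card_image_le.trans (hN a)))
      have h3 : ∀ i, R i a → col i ≠ c := fun i hi e =>
        hc' (Finset.mem_image.2 ⟨i, Finset.mem_filter.2 ⟨Finset.mem_univ _, hi⟩, e⟩)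
      refine ⟨fun i => if i = a then c else col i, fun i => ?_, fun i hi j hj hij hR' => ?_⟩
      · dsimp only
        split_ifs
        · exact Nat.lt_succ_iff.1 (Finset.mem_range.1 hc)
        · exact h1 i
      · dsimp only
        split_ifs with e1 e2 e2
        · exact absurd (e1.trans e2.symm) hij
        · exact (h3 j (e1 ▸ hR i j hR')).symm
        · exact h3 i (e2 ▸ hR')
        · exact h2 i ((Finset.mem_insert.1 hi).resolve_left e1) j
            ((Finset.mem_insert.1 hj).resolve_left e2) hij hR'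
  obtain ⟨col, h1, h2⟩ := key Finset.univ
  exact ⟨col, h1, fun i j => h2 i (Finset.mem_univ _) j (Finset.mem_univ _)⟩

theorem Sh.ch_le {I : Type} [Fintype I] {C r : ℝ} (A : Sh D I C r) (hC : 1 ≤ C) (hr : 0 < r)
    {n : ℕ} {i j : I} (h : Ch A.U n i j) : A.s i ≤ (2 * C) ^ n * A.s j ∧
      A.s j ≤ (2 * C) ^ n * A.s i ∧ dist (A.l i) (A.l j) ≤ (2 * C) ^ n * A.s j := by
  have hs : ∀ i, 0 < A.s i := fun i => hr.trans_le (A.le_s i)
  induction n generalizing i with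
  | zero =>
    obtain rfl : i = j := h
    simp [(hs i).le]
  | succ n ih =>
    obtain ⟨k, hk, hc⟩ := h
    obtain ⟨h1, h2, h3⟩ := ih hc
    have h4 := A.c1 i k hk
    have h5 := A.c1 k i (by rwa [inter_comm])
    have h6 : 0 < (2 * C) ^ n := by positivity
    have h7 := mul_le_mul_of_nonneg_left h1 (show 0 ≤ C by linarith)
    have h8 := mul_le_mul_of_nonneg_left h5.1 h6.le
    have h9 := le_mul_of_one_le_left (mul_pos h6 (hs j)).le hC
    have h10 : 0 ≤ (2 * C) ^ n * (C * A.s i) := (mul_pos h6 (mul_pos (by linarith) (hs i))).le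
    have h11 := dist_triangle (A.l i) (A.l k) (A.l j)
    have h12 := mul_pos h6 (hs j)
    rw [pow_succ]
    refine ⟨?_, ?_, ?_⟩ <;> linarith [h4.1, h4.2]

end KP2
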