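import Pool.Agent.Lib.MP_e1e491_gt.P2.Basic

/-! Bounded parts of the plane embed in the sphere. -/

namespace KP2

open Set Metric
open scoped Classical

/-- The unit sphere. -/
abbrev S2 : Type := sphere (0 : EuclideanSpace ℝ (Fin 3)) 1

/-- Inverse stereographic projection as a vector. -/
noncomputable def sphere_vec (x y : ℝ) : EuclideanSpace ℝ (Fin 3) :=
  WithLp.toLp 2 ![2 * x / (1 + x ^ 2 + y ^ 2), 2 * y / (1 + x ^ 2 + y ^ 2),
    (x ^ 2 + y ^ 2 - 1) / (1 + x ^ 2 + y ^ 2)]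

theorem sphere_vec_mem (x y : ℝ) :
    sphere_vec x y ∈ sphere (0 : EuclideanSpace ℝ (Fin 3)) 1 := by
  have h : (0 : ℝ) < 1 + x ^ 2 + y ^ 2 := by positivity
  rw [mem_sphere_zero_iff_norm, EuclideanSpace.norm_eq, Real.sqrt_eq_one]
  simp only [sphere_vec, Fin.sum_univ_three, Real.norm_eq_abs, sq_abs, Matrix.cons_val_zero,
    Matrix.cons_val_one, Matrix.cons_val]
  field_simp
  ring

theorem sphere_vec_dist (x y x' y' : ℝ) :
    dist (sphere_vec x y) (sphere_vec x' y') ^ 2 =
      4 * ((x - x') ^ 2 + (y - y') ^ 2) / ((1 + x ^ 2 + y ^ 2) * (1 + x' ^ 2 + y' ^ 2)) := by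
  have h : (0 : ℝ) < 1 + x ^ 2 + y ^ 2 := by positivity
  have h' : (0 : ℝ) < 1 + x' ^ 2 + y' ^ 2 := by positivity
  rw [EuclideanSpace.dist_eq, Real.sq_sqrt (Finset.sum_nonneg fun i _ => sq_nonneg _)]
  simp only [sphere_vec, Fin.sum_univ_three, Real.dist_eq, sq_abs, Matrix.cons_val_zero,
    Matrix.cons_val_one, Matrix.cons_val]
  field_simp
  ring

theorem sphere_sq_bounds (u v : Pl) :
    dist u v ^ 2 ≤ (u false - v false) ^ 2 + (u true - v true) ^ 2 ∧
      (u false - v false) ^ 2 + (u true - v true) ^ 2 ≤ 2 * dist u v ^ 2 := by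
  have h0 : |u false - v false| ≤ dist u v := by
    have := dist_le_pi_dist u v false
    rwa [Real.dist_eq] at this
  have h1 : |u true - v true| ≤ dist u v := by
    have := dist_le_pi_dist u v true
    rwa [Real.dist_eq] at this
  have hS : 0 ≤ (u false - v false) ^ 2 + (u true - v true) ^ 2 := by positivity
  constructor
  · have : dist u v ≤ Real.sqrt ((u false - v false) ^ 2 + (u true - v true) ^ 2) := by
      rw [dist_pi_le_iff (Real.sqrt_nonneg _)]
      intro b
      rw [Real.dist_eq]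
      apply Real.abs_le_sqrt
      cases b
      · nlinarith [sq_nonneg (u true - v true)]
      · nlinarith [sq_nonneg (u false - v false)]
    calc dist u v ^ 2 ≤ Real.sqrt ((u false - v false) ^ 2 + (u true - v true) ^ 2) ^ 2 :=
          pow_le_pow_left₀ dist_nonneg this 2
      _ = _ := Real.sq_sqrt hS
  · have a0 : (u false - v false) ^ 2 ≤ dist u v ^ 2 := by
      rw [← sq_abs]
      exact pow_le_pow_left₀ (abs_nonneg _) h0 2
    have a1 : (u true - v true) ^ 2 ≤ dist u v ^ 2 := by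
      rw [← sq_abs]
      exact pow_le_pow_left₀ (abs_nonneg _) h1 2
    linarith

theorem sphere_den_le (M : ℝ) (u : Pl) (hu : ‖u‖ ≤ M) :
    1 + u false ^ 2 + u true ^ 2 ≤ 1 + 2 * M ^ 2 := by
  have h0 : |u false| ≤ M := (norm_le_pi_norm u false).trans hu
  have h1 : |u true| ≤ M := (norm_le_pi_norm u true).trans hu
  have a0 : u false ^ 2 ≤ M ^ 2 := by
    rw [← sq_abs]
    exact pow_le_pow_left₀ (abs_nonneg _) h0 2
  have a1 : u true ^ 2 ≤ M ^ 2 := by
    rw [← sq_abs]
    exact pow_le_pow_left₀ (abs_nonneg _) h1 2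
  linarith

theorem exists_lift (M : ℝ) : ∃ (g : Pl → S2) (c L : ℝ), 0 < c ∧ ∀ u v, ‖u‖ ≤ M → ‖v‖ ≤ M →
    c * dist u v ≤ dist (g u) (g v) ∧ dist (g u) (g v) ≤ L * dist u v := by
  have hK : (0 : ℝ) < 1 + 2 * M ^ 2 := by positivity
  refine ⟨fun u => ⟨sphere_vec (u false) (u true), sphere_vec_mem _ _⟩, 2 / (1 + 2 * M ^ 2), 3,
    by positivity, fun u v hu hv => ?_⟩
  rw [Subtype.dist_eq]
  have hd := sphere_vec_dist (u false) (u true) (v false) (v true)
  obtain ⟨b1, b2⟩ := sphere_sq_bounds u v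
  have du := sphere_den_le M u hu
  have dv := sphere_den_le M v hv
  have pu : (1 : ℝ) ≤ 1 + u false ^ 2 + u true ^ 2 := by
    nlinarith [sq_nonneg (u false), sq_nonneg (u true)]
  have pv : (1 : ℝ) ≤ 1 + v false ^ 2 + v true ^ 2 := by
    nlinarith [sq_nonneg (v false), sq_nonneg (v true)]
  set A := 1 + u false ^ 2 + u true ^ 2 with hA
  set B := 1 + v false ^ 2 + v true ^ 2 with hB
  set S := (u false - v false) ^ 2 + (u true - v true) ^ 2 with hS
  set K := 1 + 2 * M ^ 2 with hKd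
  have hAB1 : 1 ≤ A * B := by nlinarith
  have hABK : A * B ≤ K ^ 2 := by nlinarith
  have hS0 : 0 ≤ S := by positivity
  constructor
  · refine (pow_le_pow_iff_left₀ (by positivity) dist_nonneg two_ne_zero).1 ?_
    rw [hd]
    calc (2 / K * dist u v) ^ 2 = 4 * dist u v ^ 2 / K ^ 2 := by field_simp; ring
      _ ≤ 4 * S / K ^ 2 := by gcongr
      _ ≤ 4 * S / (A * B) := by gcongr
  · refine (pow_le_pow_iff_left₀ dist_nonneg (by positivity) two_ne_zero).1 ?_
    rw [hd]
    calc 4 * S / (A * B) ≤ 4 * S / 1 := by gcongr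
      _ ≤ (3 * dist u v) ^ 2 := by nlinarith [sq_nonneg (dist u v)]

theorem angle_le (x y : S2) :
    dist x y ≤ InnerProductGeometry.angle x.1 y.1 ∧
      InnerProductGeometry.angle x.1 y.1 ≤ 2 * dist x y := by
  have hx : ‖x.1‖ = 1 := mem_sphere_zero_iff_norm.1 x.2
  have hy : ‖y.1‖ = 1 := mem_sphere_zero_iff_norm.1 y.2
  set θ := InnerProductGeometry.angle x.1 y.1 with hθ
  have h0 : 0 ≤ θ := InnerProductGeometry.angle_nonneg _ _
  have hπ : θ ≤ Real.pi := InnerProductGeometry.angle_le_pi _ _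
  have hcos : Real.cos θ = inner ℝ x.1 y.1 := by
    rw [hθ, InnerProductGeometry.cos_angle, hx, hy]
    simp
  have hsq : dist x y ^ 2 = (2 * Real.sin (θ / 2)) ^ 2 := by
    rw [Subtype.dist_eq, dist_eq_norm, norm_sub_sq_real, hx, hy, ← hcos]
    have h1 : Real.cos θ = 1 - 2 * Real.sin (θ / 2) ^ 2 := by
      have h2 := Real.cos_two_mul (θ / 2)
      have h3 := Real.sin_sq_add_cos_sq (θ / 2)
      have h4 : 2 * (θ / 2) = θ := by ring
      rw [h4] at h2
      linarith
    rw [h1]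
    ring
  have hs0 : 0 ≤ Real.sin (θ / 2) :=
    Real.sin_nonneg_of_nonneg_of_le_pi (by linarith) (by linarith [Real.pi_pos])
  have hd : dist x y = 2 * Real.sin (θ / 2) :=
    (pow_left_inj₀ dist_nonneg (by linarith) two_ne_zero).1 hsq
  rw [hd]
  constructor
  · have := Real.sin_le (x := θ / 2) (by linarith)
    linarith
  · have h1 := Real.mul_le_sin (x := θ / 2) (by linarith) (by linarith)
    have h2 : Real.pi ≤ 4 := Real.pi_le_four
    have h3 : 1 / 2 ≤ 2 / Real.pi := by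
      rw [div_le_div_iff₀ (by norm_num) Real.pi_pos]
      linarith
    have h4 : 1 / 2 * (θ / 2) ≤ 2 / Real.pi * (θ / 2) :=
      mul_le_mul_of_nonneg_right h3 (by linarith)
    linarith

end KP2
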