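import Pool.Agent.Lib.MP_e1e491_gt.P2.Basic

/-! From a cover by connected sets to a partition in connected sets. -/

namespace KP2

open Set Metric
open scoped Classical

/-- The index of least colour among the sets that contain a point. -/
theorem forest_least {V I : Type} (X : I → Set V) (hc : ∀ v, ∃ i, v ∈ X i) (col : I → ℕ)
    (hcol : ∀ i j, i ≠ j → (X i ∩ X j).Nonempty → col i ≠ col j) :
    ∃ j : V → I, (∀ v, v ∈ X (j v)) ∧ ∀ v i, v ∈ X i → j v ≠ i → col (j v) < col i := by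
  have h : ∀ v, ∃ j, v ∈ X j ∧ ∀ i, v ∈ X i → j ≠ i → col j < col i := fun v => by
    have e : ∃ k, ∃ i, v ∈ X i ∧ col i = k := (hc v).elim fun i hi => ⟨_, i, hi, rfl⟩
    obtain ⟨j, hj, hk⟩ := Nat.find_spec e
    refine ⟨j, hj, fun i hi hne => lt_of_le_of_ne ?_ (hcol j i hne ⟨v, hj, hi⟩)⟩
    rw [hk]
    exact Nat.find_min' e ⟨i, hi, rfl⟩
  choose j h1 h2 using h
  exact ⟨j, h1, h2⟩

/-- The points of smaller colour next to the component of `v`. -/
def forest_A {V I : Type} (G : SimpleGraph V) (X : I → Set V) (j : V → I) (v : V) : Set V :=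
  {w | w ∈ X (j v) ∧ j w ≠ j v ∧ ∃ u, Con G {x | j x = j v} v u ∧ G.Adj u w}

theorem forest_A_eq {V I : Type} {G : SimpleGraph V} {X : I → Set V} {j : V → I} {u v : V}
    (h : Con G {x | j x = j v} v u) : forest_A G X j u = forest_A G X j v := by
  have e : j u = j v := h.right_mem
  ext w
  simp only [forest_A, mem_ofPred_eq, e]
  exact ⟨fun ⟨h1, h2, x, h3, h4⟩ => ⟨h1, h2, x, h.trans h3, h4⟩,
    fun ⟨h1, h2, x, h3, h4⟩ => ⟨h1, h2, x, h.symm.trans h3, h4⟩⟩

theorem forest_root {V I : Type} {G : SimpleGraph V} {X : I → Set V} (hX : ∀ i, Cn G (X i))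
    {j : V → I} (hj : ∀ v, v ∈ X (j v)) {v : V} (h : ¬(forest_A G X j v).Nonempty) :
    X (j v) ⊆ {x | j x = j v} := by
  intro w hw
  by_contra hne
  obtain ⟨y, hy, h1, h2⟩ := (hX _ v (hj v) w hw).exists_first (P := fun x => j x ≠ j v) hne
  rcases h2 with rfl | ⟨u, h2, h3⟩
  · exact h1 rfl
  · exact h ⟨y, hy, h1, u, h3.mono fun x hx => not_not.1 hx.2, h2⟩

theorem exists_forest {V I : Type} (G : SimpleGraph V) (X : I → Set V) (hX : ∀ i, Cn G (X i))
    (hc : ∀ v, ∃ i, v ∈ X i) {N : ℕ} (col : I → ℕ) (hN : ∀ i, col i ≤ N)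
    (hcol : ∀ i j, i ≠ j → (X i ∩ X j).Nonempty → col i ≠ col j) :
    ∃ β : V → I, (∀ i, Cn G {v | β v = i}) ∧
      ∀ v, ∃ j n, n ≤ N ∧ v ∈ X j ∧ Ch X n j (β v) := by
  obtain ⟨j, hj, hm⟩ := forest_least X hc col hcol
  have hp : ∀ v, (forest_A G X j v).Nonempty →
      ∀ w ∈ forest_A G X j v, col (j w) < col (j v) := fun v _ w hw => hm w _ hw.1 hw.2.1
  obtain ⟨β, hβ⟩ : ∃ β : V → I, ∀ v,
      β v = if h : (forest_A G X j v).Nonempty then β h.some else j v := by
    let F : ∀ v : V, (∀ w, col (j w) < col (j v) → I) → I := fun v ih =>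
      if h : (forest_A G X j v).Nonempty then ih h.some (hp v h _ h.some_mem) else j v
    exact ⟨(measure fun v => col (j v)).wf.fix F, fun v => by rw [WellFounded.fix_eq]⟩
  have h1 : ∀ v u, Con G {x | j x = j v} v u → β u = β v := fun v u h => by
    have e : j u = j v := h.right_mem
    rw [hβ u, hβ v]
    simp only [forest_A_eq h, e]
  have h2 : ∀ v u, Con G {x | j x = j v} v u → Con G {x | β x = β v} v u := fun v u h =>
    (h.induction (P := fun y => Con G {x | j x = j v} v y ∧ Con G {x | β x = β v} v y)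
      ⟨Con.refl rfl, Con.refl rfl⟩ fun y hy z hz hyz hP =>
        have h3 := hP.1.trans (Con.of_adj hyz hy hz)
        ⟨h3, hP.2.trans (Con.of_adj hyz hP.2.right_mem (h1 v z h3))⟩).2
  have h3 : ∀ k v, col (j v) = k → (∃ r, ¬(forest_A G X j r).Nonempty ∧ j r = β v ∧
      Con G {x | β x = β v} v r) ∧ ∃ n, n ≤ col (j v) ∧ Ch X n (j v) (β v) := fun k => by
    induction k using Nat.strong_induction_on with
    | _ k ih =>
      intro v hv
      by_cases h : (forest_A G X j v).Nonempty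
      · have e : β v = β h.some := by rw [hβ v, dif_pos h]
        have lt := hp v h _ h.some_mem
        obtain ⟨⟨r, a1, a2, a3⟩, n, b1, b2⟩ := ih _ (hv ▸ lt) h.some rfl
        obtain ⟨c1, -, u, c3, c4⟩ := h.some_mem
        rw [← e] at a2 a3 b2
        exact ⟨⟨r, a1, a2, ((h2 v u c3).trans (Con.of_adj c4 (h1 v u c3) e.symm)).trans a3⟩,
          n + 1, by omega, j h.some, ⟨_, c1, hj _⟩, b2⟩
      · have e : β v = j v := by rw [hβ v, dif_neg h]
        exact ⟨⟨v, h, e.symm, Con.refl rfl⟩, 0, Nat.zero_le _, e.symm⟩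
  refine ⟨β, fun i a ha b hb => ?_, fun v => ?_⟩
  · obtain ⟨⟨r, a1, a2, a3⟩, -⟩ := h3 _ a rfl
    obtain ⟨⟨s, b1, b2, b3⟩, -⟩ := h3 _ b rfl
    have ea : β a = i := ha
    have eb : β b = i := hb
    have er : β r = i := a3.right_mem.trans ea
    have hs : s ∈ X (j r) := by
      rw [a2, ea, ← eb, ← b2]
      exact hj s
    have h4 := h2 r s ((hX _ r (hj r) s hs).mono (forest_root hX hj a1))
    rw [ea] at a3
    rw [eb] at b3
    rw [er] at h4
    exact (a3.trans h4).trans b3.symm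
  · obtain ⟨-, n, b1, b2⟩ := h3 _ v rfl
    exact ⟨j v, n, b1.trans (hN _), hj v, b2⟩

end KP2
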