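import Pool.Agent.Lib.MP_e1e491_gt.P2.Basic

/-! Shadows of planar sets in the grid. -/

namespace KP2

open Set Metric
open scoped Classical

theorem shadow_mem_pt {n : ℕ} {z : Pl} {v : Bool → Fin (n + 1)} :
    v ∈ shad n {z} ↔ ∀ i, |(n : ℝ) * z i - (v i : ℕ)| < 1 := by
  simp [shad]

theorem shadow_step {n : ℕ} {W : Set (Bool → Fin (n + 1))} {v w : Bool → Fin (n + 1)}
    (hv : v ∈ W) (hw : w ∈ W)
    (h : (∀ i, (v i : ℕ) ≤ w i ∧ (w i : ℕ) ≤ v i + 1) ∨
      ∀ i, (w i : ℕ) ≤ v i ∧ (v i : ℕ) ≤ w i + 1) : Con (gridG n) W v w := by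
  by_cases hvw : v = w
  · subst hvw
    exact Con.refl hv
  · exact Con.of_adj ⟨hvw, h⟩ hv hw

theorem shadow_near {t : ℝ} {a b : ℕ} (ha : |t - a| < 1) (hb : |t - b| < 1) : a ≤ b + 1 := by
  rw [abs_lt] at ha hb
  have h : (a : ℝ) < ((b + 2 : ℕ) : ℝ) := by
    push_cast
    linarith [ha.1, hb.2]
  have := Nat.cast_lt.mp h
  omega

theorem shad_mono (n : ℕ) {E F : Set Pl} (h : E ⊆ F) : shad n E ⊆ shad n F := by
  rintro v ⟨z, hz, hv⟩
  exact ⟨z, h hz, hv⟩

theorem shad_nonempty (n : ℕ) {z : Pl} (hz : z ∈ QQ) : (shad n {z}).Nonempty := by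
  have h0 : ∀ i, 0 ≤ (n : ℝ) * z i := fun i => mul_nonneg (Nat.cast_nonneg n) (hz.1 i)
  have h1 : ∀ i, (n : ℝ) * z i ≤ n := fun i =>
    mul_le_of_le_one_right (Nat.cast_nonneg n) (hz.2 i)
  refine ⟨fun i => ⟨⌊(n : ℝ) * z i⌋₊, Nat.lt_succ_of_le (Nat.floor_le_of_le (h1 i))⟩, ?_⟩
  rw [shadow_mem_pt]
  intro i
  have a1 := Nat.floor_le (h0 i)
  have a2 := Nat.lt_floor_add_one ((n : ℝ) * z i)
  rw [abs_lt]
  constructor
  · simp only
    linarith
  · simp only
    linarith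

/-- At most four vertices, the corners of a unit square. -/
theorem shad_pt_cn (n : ℕ) (z : Pl) : Cn (gridG n) (shad n {z}) := by
  intro v hv w hw
  have hv' := shadow_mem_pt.mp hv
  have hw' := shadow_mem_pt.mp hw
  have h1 : ∀ i, (v i : ℕ) ≤ w i + 1 := fun i => shadow_near (hv' i) (hw' i)
  have h2 : ∀ i, (w i : ℕ) ≤ v i + 1 := fun i => shadow_near (hw' i) (hv' i)
  let u : Bool → Fin (n + 1) := fun i => if i then v i else w i
  have ut : u true = v true := rfl
  have uf : u false = w false := rfl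
  have hu : u ∈ shad n {z} := by
    rw [shadow_mem_pt]
    intro i
    cases i
    · rw [uf]; exact hw' false
    · rw [ut]; exact hv' true
  have a1 := h1 false
  have a2 := h2 false
  have b1 := h1 true
  have b2 := h2 true
  refine Con.trans (b := u) (shadow_step hv hu ?_) (shadow_step hu hw ?_)
  · simp only [Bool.forall_bool, ut, uf]
    omega
  · simp only [Bool.forall_bool, ut, uf]
    omega

theorem shadow_ev (n : ℕ) (z0 : Pl) : ∀ᶠ z in nhds z0, shad n {z0} ⊆ shad n {z} := by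
  have h : ∀ v : Bool → Fin (n + 1), ∀ᶠ z in nhds z0, v ∈ shad n {z0} → v ∈ shad n {z} := by
    intro v
    by_cases hv : v ∈ shad n {z0}
    · have hv' := shadow_mem_pt.mp hv
      have h2 : ∀ i, ∀ᶠ z : Pl in nhds z0, |(n : ℝ) * z i - (v i : ℕ)| < 1 := by
        intro i
        have hc : Continuous fun z : Pl => |(n : ℝ) * z i - (v i : ℕ)| := by fun_prop
        exact hc.continuousAt.eventually_lt continuousAt_const (hv' i)
      filter_upwards [Filter.eventually_all.mpr h2] with z hz _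
      exact shadow_mem_pt.mpr hz
    · exact Filter.Eventually.of_forall fun z h => absurd h hv
  filter_upwards [Filter.eventually_all.mpr h] with z hz v hv
  exact hz v hv

theorem shad_cn (n : ℕ) {E : Set Pl} (hE : IsPreconnected E) (hQ : E ⊆ QQ) :
    Cn (gridG n) (shad n E) := by
  rintro v ⟨z, hz, hv⟩ w ⟨z', hz', hw⟩
  have key := hE.induction₂' (fun a b => a ∈ E ∧ b ∈ E ∧ ∀ v ∈ shad n {a}, ∀ w ∈ shad n {b},
    Con (gridG n) (shad n E) v w) ?_ ?_ hz hz'
  · exact key.2.2 v (shadow_mem_pt.mpr hv) w (shadow_mem_pt.mpr hw)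
  · intro a ha
    filter_upwards [mem_nhdsWithin_of_mem_nhds (shadow_ev n a), self_mem_nhdsWithin] with b hb hbE
    have hsub : shad n {b} ⊆ shad n E := shad_mono n (singleton_subset_iff.mpr hbE)
    refine ⟨⟨ha, hbE, fun v hv w hw => ?_⟩, ⟨hbE, ha, fun v hv w hw => ?_⟩⟩
    · exact (shad_pt_cn n b v (hb hv) w hw).mono hsub
    · exact (shad_pt_cn n b v hv w (hb hw)).mono hsub
  · rintro a b c - - - ⟨ha, hb, hab⟩ ⟨_, hc, hbc⟩
    obtain ⟨u, hu⟩ := shad_nonempty n (hQ hb)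
    exact ⟨ha, hc, fun v hv w hw => (hab v hv u hu).trans (hbc u hu w hw)⟩

theorem shad_side (n : ℕ) {z : Pl} {i b : Bool} (h : z i = bv b) : shad n {z} ⊆ gridS n i b := by
  intro v hv
  have hv' := shadow_mem_pt.mp hv i
  rw [h, abs_lt] at hv'
  have hlt := (v i).2
  show (v i : ℕ) = if b then n else 0
  cases b
  · simp only [bv, Bool.false_eq_true, if_false, mul_zero] at hv' ⊢
    have h1 : ((v i : ℕ) : ℝ) < ((1 : ℕ) : ℝ) := by
      push_cast
      linarith [hv'.1]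
    have := Nat.cast_lt.mp h1
    omega
  · simp only [bv, if_true, mul_one] at hv' ⊢
    have h1 : (n : ℝ) < (((v i : ℕ) + 1 : ℕ) : ℝ) := by
      push_cast
      linarith [hv'.2]
    have := Nat.cast_lt.mp h1
    omega

theorem exists_pt {n : ℕ} (hn : 0 < n) (v : Bool → Fin (n + 1)) :
    ∃ z ∈ QQ, v ∈ shad n {z} ∧ ∀ i b, v ∈ gridS n i b → z i = bv b := by
  have hn' : (0 : ℝ) < n := Nat.cast_pos.mpr hn
  refine ⟨fun i => ((v i : ℕ) : ℝ) / n, ⟨fun i => ?_, fun i => ?_⟩, ?_, ?_⟩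
  · exact div_nonneg (Nat.cast_nonneg _) hn'.le
  · have h1 : ((v i : ℕ) : ℝ) ≤ n := Nat.cast_le.mpr (Nat.le_of_lt_succ (v i).2)
    exact (div_le_one hn').mpr h1
  · rw [shadow_mem_pt]
    intro i
    rw [mul_div_cancel₀ _ hn'.ne']
    simp
  · intro i b hv
    have hv' : (v i : ℕ) = if b then n else 0 := hv
    cases b
    · simp only [Bool.false_eq_true, if_false] at hv'
      simp [hv', bv]
    · simp only [if_true] at hv'
      simp [hv', bv, hn'.ne']

theorem grid_cn {n : ℕ} (hn : 0 < n) : Cn (gridG n) univ := by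
  have h : shad n QQ = univ := by
    refine eq_univ_of_forall fun v => ?_
    obtain ⟨z, hz, hv, _⟩ := exists_pt hn v
    exact shad_mono n (singleton_subset_iff.mpr hz) hv
  rw [← h]
  exact shad_cn n (convex_Icc (𝕜 := ℝ) (0 : Pl) 1).isPreconnected subset_rfl

theorem shadow_gap {A B : Set Pl} (hA : IsCompact A) (hB : IsCompact B) :
    ∀ᶠ n : ℕ in Filter.atTop, ¬ (A ∩ B).Nonempty → ∀ x ∈ A, ∀ y ∈ B, 3 / (n : ℝ) < dist x y := by
  by_cases h : (A ∩ B).Nonempty
  · exact Filter.Eventually.of_forall fun n hn => absurd h hn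
  · have hd : Disjoint A B := by
      rw [disjoint_iff_inter_eq_empty]
      exact not_nonempty_iff_eq_empty.mp h
    obtain ⟨δ, hδ, hth⟩ := hd.exists_thickenings hA hB.isClosed
    have ht : Filter.Tendsto (fun n : ℕ => (3 : ℝ) / n) Filter.atTop (nhds 0) :=
      tendsto_const_div_atTop_nhds_zero_nat 3
    filter_upwards [ht.eventually (gt_mem_nhds hδ)] with n hn _ x hx y hy
    by_contra hle
    have hlt : dist x y < δ := lt_of_le_of_lt (not_lt.mp hle) hn
    have h1 : x ∈ thickening δ A := self_subset_thickening hδ A hx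
    have h2 : x ∈ thickening δ B := mem_thickening_iff.mpr ⟨y, hy, hlt⟩
    exact Set.disjoint_left.mp hth h1 h2

theorem exists_mesh {I : Type} [Fintype I] (U : I → Set Pl) (hU : ∀ i, IsCompact (U i)) :
    ∃ n : ℕ, 0 < n ∧ ∀ i j v w, v ∈ shad n (U i) → w ∈ shad n (U j) →
      v = w ∨ (gridG n).Adj v w → (U i ∩ U j).Nonempty := by
  have h : ∀ᶠ n : ℕ in Filter.atTop, ∀ i j, ¬ (U i ∩ U j).Nonempty →
      ∀ x ∈ U i, ∀ y ∈ U j, 3 / (n : ℝ) < dist x y :=
    Filter.eventually_all.mpr fun i => Filter.eventually_all.mpr fun j =>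
      shadow_gap (hU i) (hU j)
  obtain ⟨n, hn, hn0⟩ := (h.and (Filter.eventually_gt_atTop 0)).exists
  refine ⟨n, hn0, ?_⟩
  rintro i j v w ⟨x, hx, hv⟩ ⟨y, hy, hw⟩ hvw
  by_contra hne
  have hlt := hn i j hne x hx y hy
  have hn' : (0 : ℝ) < n := Nat.cast_pos.mpr hn0
  have hnear : ∀ k, (v k : ℕ) ≤ w k + 1 ∧ (w k : ℕ) ≤ v k + 1 := by
    intro k
    rcases hvw with rfl | ⟨_, h1 | h1⟩
    · omega
    · have := h1 k
      omega
    · have := h1 k
      omega
  have hle : dist x y ≤ 3 / (n : ℝ) := by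
    rw [dist_pi_le_iff (by positivity)]
    intro k
    have a1 := abs_lt.mp (hv k)
    have a2 := abs_lt.mp (hw k)
    have b1 : ((v k : ℕ) : ℝ) ≤ ((w k : ℕ) : ℝ) + 1 := by exact_mod_cast (hnear k).1
    have b2 : ((w k : ℕ) : ℝ) ≤ ((v k : ℕ) : ℝ) + 1 := by exact_mod_cast (hnear k).2
    rw [Real.dist_eq, le_div_iff₀ hn', ← abs_of_pos hn', ← abs_mul, abs_le]
    constructor
    · nlinarith [a1.1, a1.2, a2.1, a2.2]
    · nlinarith [a1.1, a1.2, a2.1, a2.2]
  exact absurd hlt (not_lt.mpr hle)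

end KP2
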