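import Pool.Agent.Lib.MP_e1e491_gt.P2.ShA
import Pool.Agent.Lib.MP_e1e491_gt.P2.ShSum
import Pool.Agent.Lib.MP_e1e491_gt.P2.GridHex
import Pool.Agent.Lib.MP_e1e491_gt.P2.GridCross
import Pool.Agent.Lib.MP_e1e491_gt.P2.Shadow
import Pool.Agent.Lib.MP_e1e491_gt.P2.Forest
import Pool.Agent.Lib.MP_e1e491_gt.P2.Quot

/-! The graph of blobs. -/

namespace KP2

open Set Metric
open scoped Classical

variable {S J : Type} [MetricSpace S] [CompactSpace S] {D : Sq S J}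

theorem exists_bl {C p : ℝ} (hG : Geo D C p) : ∃ C' : ℝ, 1 ≤ C' ∧ ∀ r : ℝ, 0 < r → r ≤ 1 →
    ∃ (V : Type) (_ : Fintype V), Nonempty (Bl D V C' r) := by
  obtain ⟨C₁, hC₁, hsh⟩ := exists_sh hG
  obtain ⟨K, hK, hsum⟩ := exists_sum (D := D) hG.pack hG.one_le hG.p_lt hC₁
  obtain ⟨N, hdeg⟩ := exists_deg (D := D) hG.pack hG.one_le hG.p_lt hC₁
  have h2C : (1 : ℝ) ≤ 2 * C₁ := by linarith
  obtain ⟨L, hL⟩ : ∃ L : ℝ, L = (2 * C₁) ^ (N + 1) := ⟨_, rfl⟩
  have hL1 : 1 ≤ L := hL ▸ one_le_pow₀ h2C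
  have hCL : C₁ ≤ L := by
    have : 2 * C₁ ≤ L := hL ▸ le_self_pow₀ h2C (Nat.succ_ne_zero N)
    linarith
  have hL0 : 0 ≤ L := by linarith
  have hL2 : L ≤ L ^ 2 := le_self_pow₀ hL1 two_ne_zero
  have hL3 : L ^ 2 ≤ L ^ 3 := pow_le_pow_right₀ hL1 (by norm_num)
  refine ⟨K + 2 * L ^ 3, by linarith, fun r hr hr1 => ?_⟩
  obtain ⟨I, _, ⟨A⟩⟩ := hsh r hr hr1
  have hs0 : ∀ i, 0 ≤ A.s i := fun i => hr.le.trans (A.le_s i)
  obtain ⟨col, hcolN, hcol⟩ := exists_colouring (fun i j => (A.U i ∩ A.U j).Nonempty)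
    (fun i j h => by rwa [inter_comm]) (hdeg I r A hr)
  obtain ⟨n, hn, hmesh⟩ := exists_mesh A.U A.cpt
  have hXU : ∀ i j, (shad n (A.U i) ∩ shad n (A.U j)).Nonempty → (A.U i ∩ A.U j).Nonempty :=
    fun i j ⟨v, hi, hj⟩ => hmesh i j v v hi hj (Or.inl rfl)
  have hcov : ∀ v, ∃ i, v ∈ shad n (A.U i) := fun v => by
    obtain ⟨z, hz, hv, -⟩ := exists_pt hn v
    obtain ⟨i, hi⟩ := A.cover z hz
    exact ⟨i, shad_mono n (singleton_subset_iff.2 hi) hv⟩
  obtain ⟨β₀, hfib, hβ₀⟩ := exists_forest (gridG n) (fun i => shad n (A.U i))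
    (fun i => shad_cn n (A.con i) (A.sub i)) hcov col hcolN
    (fun i j hij h => hcol i j hij (hXU i j h))
  have key : ∀ i u u', u' ∈ shad n (A.U i) → (u' = u ∨ (gridG n).Adj u' u) →
      A.s (β₀ u) ≤ L * A.s i ∧ A.s i ≤ L * A.s (β₀ u) ∧
        dist (A.l i) (A.l (β₀ u)) ≤ L * A.s (β₀ u) := by
    intro i u u' hu' hadj
    obtain ⟨j, m, hm, hj, hch⟩ := hβ₀ u
    have h1 : Ch A.U (m + 1) i (β₀ u) := ⟨j, hmesh i j u' u hu' hj hadj, Ch.mono hXU hch⟩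
    obtain ⟨a1, a2, a3⟩ := A.ch_le hC₁ hr h1
    have hle : (2 * C₁) ^ (m + 1) ≤ L := hL ▸ pow_le_pow_right₀ h2C (by omega)
    exact ⟨a2.trans (mul_le_mul_of_nonneg_right hle (hs0 _)),
      a1.trans (mul_le_mul_of_nonneg_right hle (hs0 _)),
      a3.trans (mul_le_mul_of_nonneg_right hle (hs0 _))⟩
  have near : ∀ x u, u ∈ shad n {D.ι x} →
      A.s (β₀ u) ≤ (K + 2 * L ^ 3) * r ∧ dist x (A.l (β₀ u)) ≤ (K + 2 * L ^ 3) * r := by
    intro x u hu
    obtain ⟨i, hi⟩ := A.cover _ (D.mem_QQ x)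
    obtain ⟨b1, b2⟩ := A.c3 x i hi
    obtain ⟨a1, -, a3⟩ := key i u u (shad_mono n (singleton_subset_iff.2 hi) hu) (Or.inl rfl)
    have c0 : C₁ * r ≤ L * r := mul_le_mul_of_nonneg_right hCL hr.le
    have c1 : A.s (β₀ u) ≤ L ^ 2 * r := by
      have := mul_le_mul_of_nonneg_left (b1.trans c0) hL0
      nlinarith
    have c2 : L * A.s (β₀ u) ≤ L ^ 3 * r := by
      have := mul_le_mul_of_nonneg_left c1 hL0
      nlinarith
    have c3 : L * r ≤ L ^ 3 * r := mul_le_mul_of_nonneg_right (hL2.trans hL3) hr.le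
    have c4 : L ^ 2 * r ≤ L ^ 3 * r := mul_le_mul_of_nonneg_right hL3 hr.le
    have c5 : 0 ≤ K * r := by positivity
    have c6 : 0 ≤ L ^ 3 * r := by positivity
    have c7 := dist_triangle x (A.l i) (A.l (β₀ u))
    constructor <;> nlinarith
  let π : (Bool → Fin (n + 1)) → range β₀ := rangeFactorization β₀
  have hf : ∀ a : range β₀, Cn (gridG n) {v | π v = a} := fun a => by
    have : {v | π v = a} = {v | β₀ v = a.1} := by
      ext v
      exact Subtype.ext_iff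
    rw [this]
    exact hfib a.1
  have hhc : HC (gridG n) (gridS n) := fun W => ⟨grid_cross n W, grid_hex n W⟩
  choose pt hpt using fun x : S => shad_nonempty n (D.mem_QQ x)
  refine ⟨range β₀, inferInstance, ⟨{
    G := quotG (gridG n) π
    side := fun i b => π '' gridS n i b
    l := fun v => A.l v.1
    s := fun v => A.s v.1
    β := fun x => π (pt x)
    hc := hhc.quot hf
    conn := ?_
    le_s := fun v => A.le_s _
    s_le := fun v => (A.s_le _).trans (by nlinarith)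
    adj := ?_
    sum := ?_
    shadow := ?_
    side_β := fun x i b h => ⟨pt x, shad_side n h (hpt x), rfl⟩
    side_near := ?_ }⟩⟩
  · have := (grid_cn hn).quot (π := π)
    rwa [image_univ, (rangeFactorization_surjective (f := β₀)).range_eq] at this
  · rintro v w ⟨-, u, u', hadj, rfl, rfl⟩
    obtain ⟨i, hi⟩ := hcov u
    obtain ⟨a1, -, a3⟩ := key i u u hi (Or.inl rfl)
    obtain ⟨-, b2, b3⟩ := key i u' u hi (Or.inr hadj)
    change A.s (β₀ u) ≤ _ * A.s (β₀ u') ∧ dist (A.l (β₀ u)) (A.l (β₀ u')) ≤ _ * A.s (β₀ u')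
    have h0 := hs0 (β₀ u')
    have c1 : A.s (β₀ u) ≤ L ^ 2 * A.s (β₀ u') := by
      have := mul_le_mul_of_nonneg_left b2 hL0
      nlinarith
    have c2 : L * A.s (β₀ u) ≤ L ^ 3 * A.s (β₀ u') := by
      have := mul_le_mul_of_nonneg_left c1 hL0
      nlinarith
    have c3 : L * A.s (β₀ u') ≤ L ^ 3 * A.s (β₀ u') :=
      mul_le_mul_of_nonneg_right (hL2.trans hL3) h0
    have c4 : L ^ 2 * A.s (β₀ u') ≤ L ^ 3 * A.s (β₀ u') := mul_le_mul_of_nonneg_right hL3 h0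
    have c5 : 0 ≤ K * A.s (β₀ u') := by positivity
    have c6 : 0 ≤ L ^ 3 * A.s (β₀ u') := by positivity
    have c7 := dist_triangle_left (A.l (β₀ u)) (A.l (β₀ u')) (A.l i)
    constructor <;> nlinarith
  · intro x R
    refine le_trans ?_ ((hsum I r A hr x R).trans
      (mul_le_mul_of_nonneg_right (by nlinarith) (sq_nonneg R)))
    refine le_of_eq_of_le (Finset.sum_map _ (Function.Embedding.subtype (· ∈ range β₀))
      (fun i => A.s i ^ 2)).symm ?_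
    refine Finset.sum_le_sum_of_subset_of_nonneg (fun i hi => ?_) fun _ _ _ => sq_nonneg _
    obtain ⟨v, hv, rfl⟩ := Finset.mem_map.1 hi
    exact Finset.mem_filter.2 ⟨Finset.mem_univ _, (Finset.mem_filter.1 hv).2⟩
  · intro E hE
    refine ⟨π '' shad n (D.ι '' E), (shad_cn n (hE.image _ D.cont.continuousOn) ?_).quot,
      fun x hx => ⟨pt x, shad_mono n (singleton_subset_iff.2 (mem_image_of_mem _ hx)) (hpt x),
        rfl⟩, ?_⟩
    · rintro _ ⟨x, -, rfl⟩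
      exact D.mem_QQ x
    · rintro _ ⟨u, ⟨_, ⟨x, hx, rfl⟩, hu⟩, rfl⟩
      exact ⟨x, hx, near x u ⟨_, rfl, hu⟩⟩
  · rintro i b _ ⟨u, hu, rfl⟩
    obtain ⟨z, hz, huz, hside⟩ := exists_pt hn u
    obtain ⟨x, rfl⟩ := D.mem_range_of_side hz (hside i b hu)
    exact ⟨x, hside i b hu, (near x u huz).2⟩

end KP2
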