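import Pool.Agent.Lib.MP_e1e491_gt.P2.Disc
import Pool.Agent.Lib.MP_e1e491_gt.P2.Blob

/-! The limit map. -/

namespace KP2

open Set Metric
open scoped Classical

/-- Small ratios go to small ratios. -/
def SQS {X Y : Type*} [PseudoMetricSpace X] [PseudoMetricSpace Y] (f : X → Y) : Prop :=
  ∀ δ : ℝ, 0 < δ → ∃ ε : ℝ, 0 < ε ∧ ∀ x y z, dist x y ≤ ε * dist x z →
    dist (f x) (f y) ≤ δ * dist (f x) (f z)

/-- Limit along an ultrafilter. -/
theorem exists_limit {S : Type} [MetricSpace S] (f : ℕ → S → Pl) {M : ℝ} {a b : S}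
    (hM : ∀ᶠ n in Filter.atTop, ∀ x, ‖f n x‖ ≤ M)
    (hab : ∀ᶠ n in Filter.atTop, 1 / 2 ≤ dist (f n a) (f n b))
    (h : ∀ δ : ℝ, 0 < δ → ∃ ε : ℝ, 0 < ε ∧ ∀ x y z, x ≠ z → dist x y ≤ ε * dist x z →
      ∀ᶠ n in Filter.atTop, dist (f n x) (f n y) ≤ δ * dist (f n x) (f n z)) :
    ∃ g : S → Pl, SQS g ∧ g a ≠ g b ∧ ∀ x, ‖g x‖ ≤ M := by
  have hU : (Filter.hyperfilter ℕ : Filter ℕ) ≤ Filter.atTop := Nat.hyperfilter_le_atTop
  have h1 : ∀ x, ∃ z ∈ closedBall (0 : Pl) M,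
      Filter.Tendsto (fun n => f n x) (Filter.hyperfilter ℕ : Filter ℕ) (nhds z) := fun x =>
    (isCompact_closedBall (0 : Pl) M).ultrafilter_le_nhds ((Filter.hyperfilter ℕ).map fun n => f n x)
      (Filter.le_principal_iff.2 (Filter.mem_map.2
        ((hM.filter_mono hU).mono fun n hn => mem_closedBall_zero_iff.2 (hn x))))
  choose g hg ht using h1
  refine ⟨g, fun δ hδ => ?_, fun e => ?_, fun x => mem_closedBall_zero_iff.1 (hg x)⟩
  · obtain ⟨ε, hε, h2⟩ := h δ hδ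
    refine ⟨ε, hε, fun x y z hxy => ?_⟩
    by_cases e : x = z
    · rw [← e, dist_self, mul_zero, dist_le_zero] at hxy
      rw [← e, ← hxy, dist_self, mul_zero]
    · exact le_of_tendsto_of_tendsto ((ht x).dist (ht y)) (((ht x).dist (ht z)).const_mul δ)
        ((h2 x y z e hxy).filter_mono hU)
  · have := ge_of_tendsto ((ht a).dist (ht b)) (hab.filter_mono hU)
    rw [e, dist_self] at this
    linarith

theorem exists_sqs {S J : Type} [MetricSpace S] [CompactSpace S] {D : Sq S J} {C p : ℝ}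
    (hG : Geo D C p) : ∃ (g : S → Pl) (M : ℝ), SQS g ∧ (∃ a b, g a ≠ g b) ∧ ∀ x, ‖g x‖ ≤ M := by
  obtain ⟨C', hC', hB⟩ := exists_bl hG
  obtain ⟨K, r₀, -, hr₀, hK⟩ := exists_ht (D := D) hC'
  have r0 : ∀ n : ℕ, (0 : ℝ) < 1 / ((n : ℝ) + 1) := fun n => Nat.one_div_pos_of_nat
  have r1 : ∀ n : ℕ, 1 / ((n : ℝ) + 1) ≤ 1 := fun n =>
    (div_le_one (by positivity)).2 (le_add_of_nonneg_left n.cast_nonneg)
  have r2 : ∀ r : ℝ, 0 < r → ∀ᶠ n : ℕ in Filter.atTop, 1 / ((n : ℝ) + 1) ≤ r := fun r hr =>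
    tendsto_one_div_add_atTop_nhds_zero_nat.eventually (eventually_le_nhds hr)
  choose V F hV using fun n : ℕ => hB _ (r0 n) (r1 n)
  have B := fun n => (hV n).some
  choose m X H T using fun n => exists_til (B n).hc (B n).conn
  obtain ⟨a, ha⟩ := D.exists_corner fun _ => false
  obtain ⟨b, hb⟩ := D.exists_corner fun _ => true
  have hab : b ≠ a := fun e => by
    have := ha false
    rw [← e, hb] at this
    simp [bv] at this
  obtain ⟨g, h1, h2, h3⟩ := exists_limit (fun n x i => X n i ((B n).β x)) (M := K) (a := b) (b := a)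
    ((r2 r₀ hr₀).mono fun n hn x => by
      have k := hK _ _ (B n) _ _ _ (T n) (r0 n) hn
      refine (pi_norm_le_iff_of_nonneg (((T n).H_pos false).le.trans (k false).1)).2 fun i => ?_
      rw [Real.norm_of_nonneg ((T n).X_nonneg _ _)]
      linarith [(T n).le_H i ((B n).β x), (T n).m_nonneg ((B n).β x), (k i).1])
    (by
      obtain ⟨ε, hε, k⟩ := disc hG.toGeoP hC' one_pos
      obtain ⟨r₁, hr₁, k⟩ := k b b a hab (by rw [dist_self]; positivity)
      refine (r2 r₁ hr₁).mono fun n hn => ?_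
      have k1 := (k _ _ (B n) _ _ _ (T n) (r0 n) hn).2
      have k2 := (T n).zero false _ ((B n).side_β a false false (ha false))
      have k3 := (T n).one false _ ((B n).side_β b false true (hb false))
      have k4 := (le_abs_self _).trans
        (dist_le_pi_dist (fun i => X n i ((B n).β b)) (fun i => X n i ((B n).β a)) false)
      rw [(T n).H_false] at k3
      linarith)
    fun δ hδ => by
      obtain ⟨ε, hε, k⟩ := disc hG.toGeoP hC' hδ
      refine ⟨ε, hε, fun x y z hxz hxy => ?_⟩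
      obtain ⟨r₁, hr₁, k⟩ := k x y z hxz hxy
      exact (r2 r₁ hr₁).mono fun n hn => (k _ _ (B n) _ _ _ (T n) (r0 n) hn).1
  exact ⟨g, K, h1, ⟨b, a, h2⟩, h3⟩

end KP2
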