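import Pool.Agent.Lib.MP_e1e491_gt.P2.TilB

/-! Good lines. -/

namespace KP2

open Set Metric
open scoped Classical

variable {V : Type} [Fintype V] {G : SimpleGraph V} {side : Bool → Bool → Set V} {m : V → ℝ}
  {X : Bool → V → ℝ} {H : Bool → ℝ}

omit [Fintype V] in
theorem lines_con {c : ℕ → V} {k a b : ℕ} {S : Set V} (hadj : ∀ n < k, G.Adj (c n) (c (n + 1)))
    (hab : a ≤ b) (hb : b ≤ k) (hS : ∀ n, a ≤ n → n ≤ b → c n ∈ S) : Con G S (c a) (c b) := by
  induction b, hab using Nat.le_induction with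
  | base => exact Con.refl (hS a le_rfl le_rfl)
  | succ n hn ih =>
    exact (ih (by omega) fun j h1 h2 => hS j h1 (by omega)).trans
      (Con.of_adj (hadj n (by omega)) (hS n hn (by omega)) (hS _ (by omega) le_rfl))

theorem lines_mono {Y d : ℕ → ℝ} {k a b : ℕ} (h : ∀ n < k, Y (n + 1) = Y n + d n)
    (hd : ∀ n ≤ k, 0 ≤ d n) (hab : a ≤ b) (hb : b ≤ k) : Y a ≤ Y b ∧ Y a + d a ≤ Y b + d b := by
  induction b, hab using Nat.le_induction with
  | base => exact ⟨le_rfl, le_rfl⟩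
  | succ n hn ih =>
    obtain ⟨h1, h2⟩ := ih (by omega)
    have := h n (by omega)
    have := hd n (by omega)
    have := hd (n + 1) hb
    exact ⟨by linarith, by linarith⟩

omit [Fintype V] in
theorem lines_pos {i : Bool} {t : ℝ} {v : V} (h : v ∈ Vt m X i t) : 0 ≤ m v := by
  linarith [h.1, h.2]

omit [Fintype V] in
/-- Two lines in different directions meet. -/
theorem Line.cross {i : Bool} {t s : ℝ} (h : Line G side m X H i t) (h' : Line G side m X H (!i) s)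
    (hs : s ∈ Ioo 0 (H (!i))) : (Vt m X i t ∩ Vt m X (!i) s).Nonempty := by
  obtain ⟨-, k, c, hm, hadj, -, -, x0, xk⟩ := h
  have he : ∃ n, s < X (!i) (c n) + m (c n) := ⟨k, xk ▸ hs.2⟩
  have hk : Nat.find he ≤ k := Nat.find_min' he (xk ▸ hs.2)
  refine ⟨c (Nat.find he), (hm _).2 ⟨_, hk, rfl⟩, ?_, Nat.find_spec he⟩
  rcases hn : Nat.find he with _ | n
  · exact x0 ▸ hs.1
  · have h1 := Nat.find_min he (m := n) (by omega)
    rw [← (hadj n (by omega)).2, not_lt] at h1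
    exact lt_of_le_of_ne h1 (h'.1 _ _).1.symm

theorem Line.cr {i : Bool} {t : ℝ} (h : Line G side m X H i t) :
    Cr G side (!i) (Vt m X i t) := by
  obtain ⟨-, k, c, hm, hadj, c0, ck, -, -⟩ := h
  exact ⟨_, c0, _, ck, lines_con (fun n hn => (hadj n hn).1) (Nat.zero_le k) le_rfl
    fun n _ hn => (hm _).2 ⟨n, hn, rfl⟩⟩

theorem Line.osc {i : Bool} {t y ρ : ℝ} (h : Line G side m X H i t) {ψ W : V → ℝ}
    (hW : ∀ v, 0 ≤ W v) (hψ : ∀ v w, G.Adj v w → |ψ v - ψ w| ≤ W w) {v w : V}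
    (hv : v ∈ Vt m X i t) (hw : w ∈ Vt m X i t) (hv' : Win m X (!i) y ρ v)
    (hw' : Win m X (!i) y ρ w) :
    |ψ v - ψ w| ≤ wt (fun v => if Win m X (!i) y ρ v then W v else 0) (Vt m X i t) := by
  obtain ⟨-, k, c, hm, hadj, -, -, -, -⟩ := h
  have hd : ∀ n ≤ k, 0 ≤ m (c n) := fun n hn => lines_pos ((hm _).2 ⟨n, hn, rfl⟩)
  have key : ∀ a b, a ≤ b → b ≤ k → Win m X (!i) y ρ (c a) → Win m X (!i) y ρ (c b) →
      Con G (Vt m X i t ∩ {v | Win m X (!i) y ρ v}) (c a) (c b) := fun a b hab hb ha' hb' =>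
    lines_con (fun n hn => (hadj n hn).1) hab hb fun n h1 h2 => ⟨(hm _).2 ⟨n, h2.trans hb, rfl⟩,
      (lines_mono (Y := fun n => X (!i) (c n)) (fun n hn => (hadj n hn).2) hd h2 hb).1.trans hb'.1,
      ha'.2.trans (lines_mono (Y := fun n => X (!i) (c n)) (fun n hn => (hadj n hn).2) hd h1
        (h2.trans hb)).2⟩
  obtain ⟨a, ha, rfl⟩ := (hm v).1 hv
  obtain ⟨b, hb, rfl⟩ := (hm w).1 hw
  have hc : Con G (Vt m X i t ∩ {v | Win m X (!i) y ρ v}) (c a) (c b) := by
    rcases le_total a b with e | e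
    exacts [key a b e hb hv' hw', (key b a e ha hw' hv').symm]
  refine (hc.abs_sub_le hW hψ).trans (le_of_eq ?_)
  rw [wt_eq_sum, wt_eq_sum]
  refine Finset.sum_congr rfl fun v _ => ?_
  by_cases h1 : v ∈ Vt m X i t <;> by_cases h2 : Win m X (!i) y ρ v <;> simp [h1, h2]

theorem Line.area {i : Bool} {t y ρ ℓ : ℝ} (h : Line G side m X H i t) (hρ : 0 ≤ ρ) (hℓ : 0 ≤ ℓ) :
    wt (fun v => if Win m X (!i) y ρ v then min (m v) ℓ else 0) (Vt m X i t) ≤
      2 * ρ + 2 * ℓ := by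
  obtain ⟨-, k, c, hm, hadj, -, -, -, xk⟩ := h
  have hd : ∀ n ≤ k, 0 ≤ m (c n) := fun n hn => lines_pos ((hm _).2 ⟨n, hn, rfl⟩)
  let cl : ℝ → ℝ := fun x => max (y - ρ - ℓ) (min x (y + ρ + ℓ))
  let Z : ℕ → ℝ := fun n => cl (if n ≤ k then X (!i) (c n) else H (!i))
  have e : Finset.univ.filter (fun v => v ∈ Vt m X i t) = (Finset.range (k + 1)).image c := by
    ext v
    simp only [Finset.mem_filter, Finset.mem_univ, true_and, hm, Finset.mem_image,
      Finset.mem_range, Nat.lt_succ_iff]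
  rw [wt, e]
  refine (Finset.sum_image_le_of_nonneg fun v hv => ?_).trans
    ((Finset.sum_le_sum (g := fun n => Z (n + 1) - Z n) fun n hn => ?_).trans ?_)
  · obtain ⟨n, hn, rfl⟩ := Finset.mem_image.1 hv
    have := hd n (Nat.lt_succ_iff.1 (Finset.mem_range.1 hn))
    split_ifs
    exacts [le_min this hℓ, le_rfl]
  · have hn := Nat.lt_succ_iff.1 (Finset.mem_range.1 hn)
    have h0 := hd n hn
    have e1 : Z (n + 1) = cl (X (!i) (c n) + m (c n)) := by
      simp only [Z]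
      split_ifs with h1
      · rw [(hadj n h1).2]
      · rw [show n = k by omega, xk]
    have e2 : Z n = cl (X (!i) (c n)) := by simp only [Z, if_pos hn]
    rw [e1, e2]
    split_ifs with h1
    · obtain ⟨h1, h2⟩ := h1
      simp only [cl, max_def, min_def]
      split_ifs <;> linarith
    · exact sub_nonneg.2 (max_le_max le_rfl (min_le_min (by linarith) le_rfl))
  · rw [Finset.sum_range_sub]
    have h1 : ∀ x, cl x ≤ y + ρ + ℓ := fun x => max_le (by linarith) (min_le_right _ _)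
    have h2 : ∀ x, y - ρ - ℓ ≤ cl x := fun x => le_max_left _ _
    have h3 : Z (k + 1) ≤ y + ρ + ℓ := h1 _
    have h4 : y - ρ - ℓ ≤ Z 0 := h2 _
    linarith

theorem Til.good_line (T : Til G side m X H) {ψ W : V → ℝ} (hW : ∀ v, 0 ≤ W v)
    (hψ : ∀ v w, G.Adj v w → |ψ v - ψ w| ≤ W w) (i : Bool) {u ℓ ρ : ℝ} (y : ℝ) (hℓ : 0 < ℓ)
    (hρ : ℓ ≤ ρ) (hu : 0 ≤ u) (hu' : u + ℓ ≤ H i) :
    ∃ t ∈ Ioo u (u + ℓ), Line G side m X H i t ∧ ∀ v ∈ Vt m X i t, ∀ w ∈ Vt m X i t,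
      Win m X (!i) y ρ v → Win m X (!i) y ρ w →
        |ψ v - ψ w| ≤ 2 * (ρ / ℓ) * √(∑ v, W v ^ 2) := by
  have hl : ∀ᵐ t : ℝ, t ∈ Ioo u (u + ℓ) → Line G side m X H i t := by
    filter_upwards [T.line i] with t ht h using ht ⟨hu.trans_lt h.1, h.2.trans_le hu'⟩
  have huu : u < u + ℓ := by linarith
  obtain ⟨t, ht, hL, hw⟩ := exists_wt_le (m := m) (X := X) (i := i)
    (f := fun v => if Win m X (!i) y ρ v then W v else 0) huu hl
  refine ⟨t, ht, hL, fun v hv w hw' h1 h2 => (hL.osc hW hψ hv hw' h1 h2).trans ?_⟩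
  have h3 := sum_ov_le (m := m) (X := X) (i := i) (c := 2 * ρ + 2 * ℓ)
    (f := fun v => if Win m X (!i) y ρ v then min (m v) ℓ else 0) huu.le (by
      filter_upwards [hl] with t ht h using (ht h).area (by linarith) hℓ.le)
  rw [add_sub_cancel_left] at hw h3
  have h4 := Real.sum_mul_le_sqrt_mul_sqrt Finset.univ W
    fun v => if Win m X (!i) y ρ v then ov m X i u (u + ℓ) v else 0
  have h5 : √(∑ v, (if Win m X (!i) y ρ v then ov m X i u (u + ℓ) v else 0) ^ 2) ≤ 2 * ρ := by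
    rw [Real.sqrt_le_left (by linarith)]
    refine le_trans (Finset.sum_le_sum fun v _ => ?_) (h3.trans (by nlinarith))
    split_ifs
    · rw [sq]
      refine mul_le_mul_of_nonneg_right (le_min (ov_le v (T.m_nonneg v)) ?_) (ov_nonneg v)
      simpa using ov_le' (m := m) (X := X) (i := i) v huu.le
    · simp
  have h6 := (h4.trans (mul_le_mul_of_nonneg_left h5 (Real.sqrt_nonneg _)))
  have h7 : ∑ v, (if Win m X (!i) y ρ v then W v else 0) * ov m X i u (u + ℓ) v =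
      ∑ v, W v * if Win m X (!i) y ρ v then ov m X i u (u + ℓ) v else 0 :=
    Finset.sum_congr rfl fun v _ => by split_ifs <;> simp
  rw [← h7] at h6
  refine le_of_mul_le_mul_right ((hw.trans h6).trans (le_of_eq ?_)) hℓ
  field_simp

/-- The height is the extremal length. -/
theorem Til.H_le (T : Til G side m X H) {W : V → ℝ} (hW : ∀ v, 0 ≤ W v) (i : Bool)
    (h : ∀ A, Cr G side (!i) A → 1 ≤ wt W A) : H i ≤ (∑ v, W v ^ 2) * H (!i) := by
  have h0 := T.H_pos i
  have h1 := le_sum_ov (m := m) (X := X) (i := i) (c := 1) (f := W) h0.le (by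
    filter_upwards [T.line i] with t ht k using h _ (ht k).cr)
  rw [one_mul, sub_zero] at h1
  have h2 : ∑ v, W v * ov m X i 0 (H i) v ≤ ∑ v, W v * m v := Finset.sum_le_sum fun v _ =>
    mul_le_mul_of_nonneg_left (ov_le v (T.m_nonneg v)) (hW v)
  have h3 := Finset.sum_mul_sq_le_sq_mul_sq Finset.univ W m
  have h4 : H true = H i * H (!i) := by cases i <;> simp [T.H_false]
  rw [T.area_eq, h4] at h3
  have h5 := (pow_le_pow_left₀ h0.le (h1.trans h2) 2).trans h3
  refine le_of_mul_le_mul_left ?_ h0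
  linarith

end KP2
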