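import Pool.Agent.Lib.MP_e1e491_gt.P2.Basic

/-! The distortion function. -/

namespace KP2

open Set Metric
open scoped Classical

open scoped NNReal

theorem eta_majorant {φ : ℝ → ℝ} (hm : Monotone φ) (h0 : ∀ t, 0 ≤ φ t)
    (hs : ∀ δ, 0 < δ → ∃ ε, 0 < ε ∧ φ ε ≤ δ) :
    ∃ η : NNReal ≃ₜ NNReal, ∀ s : NNReal, φ s ≤ η s := by
  set ψ : ℝ → ℝ := fun t => ∫ s in (1 : ℝ)..2, φ (t * s) with hψ
  have hint : ∀ t : ℝ, 0 ≤ t → IntervalIntegrable (fun s => φ (t * s)) MeasureTheory.volume 1 2 :=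
    fun t ht => Monotone.intervalIntegrable (fun a b hab => hm (by gcongr))
  have hlow : ∀ t : ℝ, 0 ≤ t → φ t ≤ ψ t := by
    intro t ht
    have := intervalIntegral.integral_mono_on (f := fun _ => φ t) (by norm_num : (1 : ℝ) ≤ 2)
      intervalIntegrable_const (hint t ht) (fun s hs => hm (by nlinarith [hs.1]))
    simpa [show (2 : ℝ) - 1 = 1 by norm_num] using this
  have hup : ∀ t : ℝ, 0 ≤ t → ψ t ≤ φ (2 * t) := by
    intro t ht
    have := intervalIntegral.integral_mono_on (g := fun _ => φ (2 * t))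
      (by norm_num : (1 : ℝ) ≤ 2) (hint t ht) intervalIntegrable_const
      (fun s hs => hm (by nlinarith [hs.2]))
    simpa [show (2 : ℝ) - 1 = 1 by norm_num] using this
  have hmono : ∀ a b : ℝ, 0 ≤ a → a ≤ b → ψ a ≤ ψ b := fun a b ha hab =>
    intervalIntegral.integral_mono_on (by norm_num) (hint a ha) (hint b (ha.trans hab))
      fun s hs => hm (by nlinarith [hs.1])
  have hψ0 : ∀ t, 0 ≤ t → 0 ≤ ψ t := fun t ht => (h0 t).trans (hlow t ht)
  have hz : ψ 0 = 0 := by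
    refine le_antisymm (le_of_forall_pos_le_add fun δ hδ => ?_) (hψ0 0 le_rfl)
    obtain ⟨ε, hε, h⟩ := hs δ hδ
    have := hup 0 le_rfl
    have := hm (show 2 * (0 : ℝ) ≤ ε by linarith)
    linarith
  have hP : Continuous fun u : ℝ => ∫ s in (0 : ℝ)..u, φ s :=
    intervalIntegral.continuous_primitive (fun a b => hm.intervalIntegrable) 0
  have hform : ∀ t : ℝ, 0 < t →
      ψ t = t⁻¹ * ((∫ s in (0 : ℝ)..(t * 2), φ s) - ∫ s in (0 : ℝ)..t, φ s) := by
    intro t ht
    simp only [hψ]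
    rw [intervalIntegral.integral_comp_mul_left _ ht.ne', smul_eq_mul, mul_one,
      intervalIntegral.integral_interval_sub_left hm.intervalIntegrable hm.intervalIntegrable]
  have hcont : Continuous fun s : NNReal => ψ s := by
    refine continuous_iff_continuousAt.2 fun s => ?_
    rcases (zero_le : 0 ≤ s).eq_or_lt with rfl | hs0
    · refine Metric.continuousAt_iff.2 fun δ hδ => ?_
      obtain ⟨ε, hε, h⟩ := hs (δ / 2) (by positivity)
      refine ⟨ε / 2, by positivity, fun y hy => ?_⟩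
      have hy' : (y : ℝ) < ε / 2 := by
        rwa [NNReal.dist_eq, NNReal.coe_zero, sub_zero, abs_of_nonneg y.coe_nonneg] at hy
      rw [NNReal.coe_zero, hz, Real.dist_eq, sub_zero, abs_of_nonneg (hψ0 _ y.coe_nonneg)]
      have := hup y y.coe_nonneg
      have := hm (show 2 * (y : ℝ) ≤ ε by linarith)
      linarith
    · have hs' : (0 : ℝ) < s := hs0
      have c1 : ContinuousAt (fun t : ℝ =>
          t⁻¹ * ((∫ s in (0 : ℝ)..(t * 2), φ s) - ∫ s in (0 : ℝ)..t, φ s)) s :=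
        (continuousAt_inv₀ hs'.ne').mul
          (((hP.comp (continuous_id.mul continuous_const)).sub hP).continuousAt)
      have c2 : ContinuousAt ψ s :=
        c1.congr ((lt_mem_nhds hs').mono fun t ht => (hform t ht).symm)
      exact c2.comp NNReal.continuous_coe.continuousAt
  set e : NNReal → NNReal := fun s => ⟨s + ψ s, add_nonneg s.2 (hψ0 s s.coe_nonneg)⟩ with he
  have hsm : StrictMono e := fun a b hab => by
    have h1 : (a : ℝ) < b := hab
    have h2 := hmono a b a.coe_nonneg h1.le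
    show (a : ℝ) + ψ a < b + ψ b
    linarith
  have hec : Continuous e := (NNReal.continuous_coe.add hcont).subtype_mk _
  have hsurj : Function.Surjective e := by
    intro y
    have h1 : e 0 = 0 := NNReal.eq (show ((0 : NNReal) : ℝ) + ψ (0 : NNReal) = (0 : NNReal) by simp [hz])
    have h2 : y ≤ e y := by
      show (y : ℝ) ≤ y + ψ y
      linarith [hψ0 y y.coe_nonneg]
    obtain ⟨x, -, hx⟩ := intermediate_value_Icc (zero_le : 0 ≤ y) hec.continuousOn
      (show y ∈ Icc (e 0) (e y) from ⟨by rw [h1]; exact zero_le, h2⟩)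
    exact ⟨x, hx⟩
  refine ⟨(hsm.orderIsoOfSurjective e hsurj).toHomeomorph, fun s => ?_⟩
  show φ s ≤ (s : ℝ) + ψ s
  linarith [hlow s s.coe_nonneg, s.coe_nonneg]

/-- A monotone function that tends to zero at zero lies below a homeomorphism. -/
theorem exists_homeo (φ : ℝ → ℝ) (hφ : Monotone φ) (h0 : φ 0 ≤ 0)
    (h : ∀ δ : ℝ, 0 < δ → ∃ ε : ℝ, 0 < ε ∧ φ ε ≤ δ) :
    ∃ η : ℝ≥0 ≃ₜ ℝ≥0, ∀ s : ℝ≥0, φ s ≤ η s := by
  obtain ⟨η, hη⟩ := eta_majorant (φ := fun t => max (φ t) 0)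
    (fun a b hab => max_le_max (hφ hab) le_rfl) (fun t => le_max_right _ _) (fun δ hδ => by
      obtain ⟨ε, hε, h1⟩ := h δ hδ
      exact ⟨ε, hε, max_le h1 hδ.le⟩)
  exact ⟨η, fun s => (le_max_left _ _).trans (hη s)⟩

theorem WQS.exists_eta {S Y : Type} [MetricSpace S] [MetricSpace Y] {f : S → Y} (h : WQS f)
    {K : ℝ} (hK : 0 < K) : ∃ η : ℝ≥0 ≃ₜ ℝ≥0, ∀ x y z : S, z ≠ x →
      K * dist (f x) (f y) ≤ η (nndist x y / nndist x z) * dist (f x) (f z) := by
  set A : ℝ → Set ℝ := fun t => {u | u = 0 ∨ ∃ x y z, dist x y ≤ t * dist x z ∧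
    u = K * (dist (f x) (f y) / dist (f x) (f z))} with hA
  have hub : ∀ t H : ℝ, 0 ≤ H → (∀ x y z, dist x y ≤ t * dist x z →
      dist (f x) (f y) ≤ H * dist (f x) (f z)) → ∀ u ∈ A t, u ≤ K * H := by
    rintro t H hH h u (rfl | ⟨x, y, z, h1, rfl⟩)
    · positivity
    · have := div_le_of_le_mul₀ dist_nonneg hH (h x y z h1)
      gcongr
  have hbdd : ∀ t, BddAbove (A t) := by
    intro t
    obtain ⟨H, hH⟩ := h.1 t
    exact ⟨K * |H|, hub t _ (abs_nonneg H) fun x y z h =>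
      (hH x y z h).trans (by gcongr; exact le_abs_self H)⟩
  have hz : ∀ t, (0 : ℝ) ∈ A t := fun t => Or.inl rfl
  obtain ⟨η, hη⟩ := eta_majorant (φ := fun t => sSup (A t)) (fun a b hab => by
      refine csSup_le_csSup (hbdd b) ⟨0, hz a⟩ ?_
      rintro u (rfl | ⟨x, y, z, h1, rfl⟩)
      · exact hz b
      · exact Or.inr ⟨x, y, z, h1.trans (by gcongr), rfl⟩)
    (fun t => le_csSup (hbdd t) (hz t)) (fun δ hδ => by
      obtain ⟨ε, hε, h1⟩ := h.2 (δ / K) (by positivity)
      refine ⟨ε, hε, csSup_le ⟨0, hz ε⟩ fun u hu => ?_⟩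
      have := hub ε _ (by positivity) h1 u hu
      rwa [mul_div_cancel₀ _ hK.ne'] at this)
  refine ⟨η, fun x y z hzx => ?_⟩
  have hd : 0 < dist x z := dist_pos.2 (Ne.symm hzx)
  have e : dist x y ≤ dist x y / dist x z * dist x z := by rw [div_mul_cancel₀ _ hd.ne']
  rcases (dist_nonneg : 0 ≤ dist (f x) (f z)).eq_or_lt with h0 | h0
  · obtain ⟨H, hH⟩ := h.1 (dist x y / dist x z)
    have := hH x y z e
    rw [← h0, mul_zero] at this ⊢
    exact mul_nonpos_of_nonneg_of_nonpos hK.le this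
  · have h1 : K * (dist (f x) (f y) / dist (f x) (f z)) ≤ η (nndist x y / nndist x z) := by
      refine le_trans ?_ (hη _)
      refine le_csSup (hbdd _) (Or.inr ⟨x, y, z, ?_, rfl⟩)
      rwa [NNReal.coe_div, coe_nndist, coe_nndist]
    rwa [← mul_div_assoc, div_le_iff₀ h0] at h1

end KP2
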