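import Mathlib

/-! Definitions for the embedding of a metric carpet in the plane. -/

namespace KP2

open Set Metric

noncomputable section

/-- The plane with the sup norm. -/
abbrev Pl : Type := Bool → ℝ

/-- The unit square. -/
def QQ : Set Pl := Icc 0 1

/-- The value of the coordinate on a side of the square. -/
def bv (b : Bool) : ℝ := if b then 1 else 0

/-- `T` is `r`-separated. -/
def Sepd {S : Type*} [PseudoMetricSpace S] (r : ℝ) (T : Finset S) : Prop :=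
  ∀ x ∈ T, ∀ y ∈ T, x ≠ y → r ≤ dist x y

/-- Packing bound with a real exponent. -/
def Pack (S : Type*) [PseudoMetricSpace S] (C p : ℝ) : Prop :=
  ∀ r R : ℝ, 0 < r → r ≤ R → ∀ (ξ : S) (T : Finset S), Sepd r T →
    (∀ z ∈ T, dist z ξ ≤ R) → (T.card : ℝ) ≤ C * (R / r) ^ p

/-- Weak form of quasisymmetry. -/
def WQS {X Y : Type*} [PseudoMetricSpace X] [PseudoMetricSpace Y] (f : X → Y) : Prop :=
  (∀ T : ℝ, ∃ H : ℝ, ∀ x y z, dist x y ≤ T * dist x z →
    dist (f x) (f y) ≤ H * dist (f x) (f z)) ∧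
  ∀ δ : ℝ, 0 < δ → ∃ ε : ℝ, 0 < ε ∧ ∀ x y z, dist x y ≤ ε * dist x z →
    dist (f x) (f y) ≤ δ * dist (f x) (f z)

/-- Linear local connectivity, bounded turning and relative separation of the sets `P j`. -/
structure GeoP {S J : Type} [MetricSpace S] (P : J → Set S) (C : ℝ) : Prop where
  one_le : 1 ≤ C
  llc1 : ∀ x y : S, ∃ E : Set S, IsPreconnected E ∧ x ∈ E ∧ y ∈ E ∧
    ∀ w ∈ E, dist x w ≤ C * dist x y
  bt : ∀ j, ∀ x ∈ P j, ∀ y ∈ P j, ∃ E : Set S, E ⊆ P j ∧ IsPreconnected E ∧ x ∈ E ∧ y ∈ E ∧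
    ∀ w ∈ E, dist x w ≤ C * dist x y
  llc2 : ∀ x y z : S, ∃ E : Set S, IsPreconnected E ∧ y ∈ E ∧ z ∈ E ∧
    ∀ w ∈ E, min (dist x y) (dist x z) ≤ C * dist x w
  sep : ∀ i j, i ≠ j → ∀ x ∈ P i, ∀ x' ∈ P j,
    (∀ y ∈ P i, dist x y ≤ C * dist x x') ∨ ∀ y ∈ P j, dist x' y ≤ C * dist x x'

/-- `S` is the unit square without the open squares `ball (c j) (a j)`. -/
structure Sq (S J : Type) [TopologicalSpace S] where
  ι : S → Pl
  c : J → Pl
  a : J → ℝ
  cont : Continuous ι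
  inj : Function.Injective ι
  a_pos : ∀ j, 0 < a j
  disj : ∀ i j, i ≠ j → Disjoint (ball (c i) (a i)) (ball (c j) (a j))
  sub : ∀ j, ball (c j) (a j) ⊆ QQ
  range_eq : range ι = QQ \ ⋃ j, ball (c j) (a j)

/-- The boundary of the hole `j`. -/
def Sq.P {S J : Type} [TopologicalSpace S] (D : Sq S J) (j : J) : Set S :=
  D.ι ⁻¹' sphere (D.c j) (D.a j)

/-- The hole `j` is big at scale `r`. -/
def Sq.Big {S J : Type} [MetricSpace S] (D : Sq S J) (r : ℝ) (j : J) : Prop :=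
  ∃ x ∈ D.P j, ∃ y ∈ D.P j, r < dist x y

/-- All metric hypotheses. -/
structure Geo {S J : Type} [MetricSpace S] (D : Sq S J) (C p : ℝ) : Prop extends GeoP D.P C where
  p_pos : 0 < p
  p_lt : p < 2
  pack : Pack S C p

/-- `a` and `b` are joined by a walk inside `W`. -/
def Con {V : Type} (G : SimpleGraph V) (W : Set V) (a b : V) : Prop :=
  ∃ q : G.Walk a b, ∀ v ∈ q.support, v ∈ W

/-- Any two points of `W` are joined inside `W`. -/
def Cn {V : Type} (G : SimpleGraph V) (W : Set V) : Prop := ∀ a ∈ W, ∀ b ∈ W, Con G W a b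

/-- `W` contains a crossing in the direction `i`. -/
def Cr {V : Type} (G : SimpleGraph V) (side : Bool → Bool → Set V) (i : Bool) (W : Set V) : Prop :=
  ∃ a ∈ side i false, ∃ b ∈ side i true, Con G W a b

/-- The game of hex has exactly one winner. -/
def HC {V : Type} (G : SimpleGraph V) (side : Bool → Bool → Set V) : Prop :=
  ∀ W : Set V, Cr G side false W ↔ ¬ Cr G side true Wᶜ

/-- Chains of length `n` of sets in which neighbours meet. -/
def Ch {I V : Type} (X : I → Set V) : ℕ → I → I → Prop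
  | 0, i, j => i = j
  | n + 1, i, j => ∃ k, (X i ∩ X k).Nonempty ∧ Ch X n k j

/-- The triangulated grid. -/
def gridG (n : ℕ) : SimpleGraph (Bool → Fin (n + 1)) where
  Adj v w := v ≠ w ∧ ((∀ i, (v i : ℕ) ≤ w i ∧ (w i : ℕ) ≤ v i + 1) ∨
    ∀ i, (w i : ℕ) ≤ v i ∧ (v i : ℕ) ≤ w i + 1)
  symm := ⟨fun _ _ h => ⟨h.1.symm, h.2.symm⟩⟩
  loopless := ⟨fun _ h => h.1 rfl⟩

/-- The sides of the grid. -/
def gridS (n : ℕ) (i b : Bool) : Set (Bool → Fin (n + 1)) :=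
  {v | (v i : ℕ) = if b then n else 0}

/-- The grid points near a point of `E`. -/
def shad (n : ℕ) (E : Set Pl) : Set (Bool → Fin (n + 1)) :=
  {v | ∃ z ∈ E, ∀ i, |(n : ℝ) * z i - (v i : ℕ)| < 1}

/-- The quotient graph. -/
def quotG {V V' : Type} (G : SimpleGraph V) (π : V → V') : SimpleGraph V' where
  Adj a b := a ≠ b ∧ ∃ v w, G.Adj v w ∧ π v = a ∧ π w = b
  symm := ⟨fun _ _ h => ⟨h.1.symm, by
    obtain ⟨v, w, h1, h2, h3⟩ := h.2
    exact ⟨w, v, h1.symm, h3, h2⟩⟩⟩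
  loopless := ⟨fun _ h => h.1 rfl⟩

open Classical in
/-- A cover of the square by continua with locations and sizes. -/
structure Sh {S J : Type} [MetricSpace S] (D : Sq S J) (I : Type) [Fintype I] (C r : ℝ) where
  U : I → Set Pl
  l : I → S
  s : I → ℝ
  cpt : ∀ i, IsCompact (U i)
  con : ∀ i, IsPreconnected (U i)
  sub : ∀ i, U i ⊆ QQ
  cover : ∀ z ∈ QQ, ∃ i, z ∈ U i
  le_s : ∀ i, r ≤ s i
  s_le : ∀ i, s i ≤ C
  c1 : ∀ i j, (U i ∩ U j).Nonempty → s i ≤ C * s j ∧ dist (l i) (l j) ≤ C * s j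
  c2 : ∀ (x : S) (t : ℝ), 0 < t →
    ((Finset.univ.filter fun i => t ≤ s i ∧ s i ≤ 2 * t ∧ dist x (l i) ≤ t).card : ℝ) ≤ C
  c3 : ∀ ξ i, D.ι ξ ∈ U i → s i ≤ C * r ∧ dist ξ (l i) ≤ C * r

open Classical in
/-- The graph of blobs at scale `r`. -/
structure Bl {S J : Type} [MetricSpace S] (D : Sq S J) (V : Type) [Fintype V] (C r : ℝ) where
  G : SimpleGraph V
  side : Bool → Bool → Set V
  l : V → S
  s : V → ℝ
  β : S → V
  hc : HC G side
  conn : Cn G univ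
  le_s : ∀ v, r ≤ s v
  s_le : ∀ v, s v ≤ C
  adj : ∀ v w, G.Adj v w → s v ≤ C * s w ∧ dist (l v) (l w) ≤ C * s w
  sum : ∀ (x : S) (R : ℝ),
    ∑ v ∈ Finset.univ.filter (fun v => dist x (l v) + s v ≤ R), s v ^ 2 ≤ C * R ^ 2
  shadow : ∀ E : Set S, IsPreconnected E → ∃ W : Set V, Cn G W ∧ (∀ x ∈ E, β x ∈ W) ∧
    ∀ v ∈ W, ∃ x ∈ E, s v ≤ C * r ∧ dist x (l v) ≤ C * r
  side_β : ∀ x i b, D.ι x i = bv b → β x ∈ side i b
  side_near : ∀ i b, ∀ v ∈ side i b, ∃ x, D.ι x i = bv b ∧ dist x (l v) ≤ C * r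

open Classical in
/-- The weight of a set of vertices. -/
def wt {V : Type} [Fintype V] (m : V → ℝ) (W : Set V) : ℝ :=
  ∑ v ∈ Finset.univ.filter (fun v => v ∈ W), m v

/-- The vertices whose interval in the direction `i` contains `t`. -/
def Vt {V : Type} (m : V → ℝ) (X : Bool → V → ℝ) (i : Bool) (t : ℝ) : Set V :=
  {v | X i v < t ∧ t < X i v + m v}

/-- Extremal weights and the weighted distances from the sides. -/
structure PreTil {V : Type} [Fintype V] (G : SimpleGraph V) (side : Bool → Bool → Set V)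
    (m : V → ℝ) (X : Bool → V → ℝ) (H : Bool → ℝ) : Prop where
  m_nonneg : ∀ v, 0 ≤ m v
  X_nonneg : ∀ i v, 0 ≤ X i v
  H_false : H false = 1
  area : ∑ v, m v ^ 2 ≤ H true
  cross : ∀ i W, Cr G side i W → H i ≤ wt m W
  adj : ∀ i v w, G.Adj v w → X i w ≤ X i v + m v
  zero : ∀ i, ∀ v ∈ side i false, X i v = 0
  one : ∀ i, ∀ v ∈ side i true, H i ≤ X i v + m v

/-- The vertices met by the line at height `t` in the coordinate `i` form one geodesic path. -/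
def Line {V : Type} (G : SimpleGraph V) (side : Bool → Bool → Set V) (m : V → ℝ)
    (X : Bool → V → ℝ) (H : Bool → ℝ) (i : Bool) (t : ℝ) : Prop :=
  (∀ j v, t ≠ X j v ∧ t ≠ X j v + m v) ∧ ∃ (k : ℕ) (c : ℕ → V),
    (∀ v, v ∈ Vt m X i t ↔ ∃ n ≤ k, c n = v) ∧
    (∀ n < k, G.Adj (c n) (c (n + 1)) ∧ X (!i) (c (n + 1)) = X (!i) (c n) + m (c n)) ∧
    c 0 ∈ side (!i) false ∧ c k ∈ side (!i) true ∧
    X (!i) (c 0) = 0 ∧ X (!i) (c k) + m (c k) = H (!i)

/-- A square tiling. -/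
structure Til {V : Type} [Fintype V] (G : SimpleGraph V) (side : Bool → Bool → Set V)
    (m : V → ℝ) (X : Bool → V → ℝ) (H : Bool → ℝ) : Prop extends PreTil G side m X H where
  H_pos : ∀ i, 0 < H i
  area_eq : ∑ v, m v ^ 2 = H true
  le_H : ∀ i v, X i v + m v ≤ H i
  line : ∀ i, ∀ᵐ t : ℝ, t ∈ Ioo 0 (H i) → Line G side m X H i t

/-- The squares of `A` reach out to distance `ℓ` from the corner of the square of `a`. -/
def Ext {V : Type} (m : V → ℝ) (X : Bool → V → ℝ) (A : Set V) (a : V) (ℓ : ℝ) : Prop :=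
  ∃ b ∈ A, ∃ i, X i a + ℓ ≤ X i b + m b ∨ X i b + ℓ ≤ X i a

/-- The interval of `v` in the direction `i` meets `[y - ρ, y + ρ]`. -/
def Win {V : Type} (m : V → ℝ) (X : Bool → V → ℝ) (i : Bool) (y ρ : ℝ) (v : V) : Prop :=
  X i v ≤ y + ρ ∧ y - ρ ≤ X i v + m v

end

end KP2
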