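import Pool.Agent.Lib.MP_e1e491_gt.P2.Defs

/-! Walks inside a set, crossings, weights, nets. -/

namespace KP2

open Set Metric
open scoped Classical

section Graph

variable {V : Type} {G : SimpleGraph V} {side : Bool → Bool → Set V} {W W' : Set V} {a b c : V}

theorem Con.refl (h : a ∈ W) : Con G W a a := by
  exact ⟨SimpleGraph.Walk.nil, fun v hv => by
    rw [SimpleGraph.Walk.support_nil, List.mem_singleton] at hv
    exact hv ▸ h⟩

theorem Con.symm (h : Con G W a b) : Con G W b a := by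
  obtain ⟨q, hq⟩ := h
  exact ⟨q.reverse, fun v hv => hq v (by simpa using hv)⟩

theorem Con.trans (h : Con G W a b) (h' : Con G W b c) : Con G W a c := by
  obtain ⟨q, hq⟩ := h
  obtain ⟨q', hq'⟩ := h'
  exact ⟨q.append q', fun v hv =>
    ((SimpleGraph.Walk.mem_support_append_iff q q').1 hv).elim (hq v) (hq' v)⟩

theorem Con.mono (h : Con G W a b) (hW : W ⊆ W') : Con G W' a b := by
  obtain ⟨q, hq⟩ := h
  exact ⟨q, fun v hv => hW (hq v hv)⟩

theorem Con.left_mem (h : Con G W a b) : a ∈ W := by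
  obtain ⟨q, hq⟩ := h
  exact hq a q.start_mem_support

theorem Con.right_mem (h : Con G W a b) : b ∈ W := by
  obtain ⟨q, hq⟩ := h
  exact hq b q.end_mem_support

theorem Con.of_adj (h : G.Adj a b) (ha : a ∈ W) (hb : b ∈ W) : Con G W a b := by
  refine ⟨SimpleGraph.Walk.cons h SimpleGraph.Walk.nil, fun v hv => ?_⟩
  simp only [SimpleGraph.Walk.support_cons, SimpleGraph.Walk.support_nil, List.mem_cons,
    List.not_mem_nil, or_false] at hv
  rcases hv with rfl | rfl
  exacts [ha, hb]

theorem Con.induction {P : V → Prop} (h : Con G W a b) (h0 : P a)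
    (hs : ∀ v ∈ W, ∀ w ∈ W, G.Adj v w → P v → P w) : P b := by
  obtain ⟨q, hq⟩ := h
  induction q with
  | nil => exact h0
  | @cons u v w huv q ih =>
    have h1 : ∀ x ∈ q.support, x ∈ W := fun x hx => hq x (by simp [hx])
    exact ih (hs u (hq u (by simp)) v (h1 v q.start_mem_support) huv h0) h1

/-- The first vertex of the walk with the property `P`. -/
theorem Con.exists_first {P : V → Prop} (h : Con G W a b) (hb : P b) :
    ∃ w ∈ W, P w ∧ (w = a ∨ ∃ u, G.Adj u w ∧ Con G (W ∩ {v | ¬ P v}) a u) := by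
  obtain ⟨q, hq⟩ := h
  induction q with
  | nil => exact ⟨_, hq _ (by simp), hb, Or.inl rfl⟩
  | @cons u v w huv q ih =>
    have hu : u ∈ W := hq u (by simp)
    by_cases hP : P u
    · exact ⟨u, hu, hP, Or.inl rfl⟩
    · obtain ⟨x, hx, hPx, h1⟩ := ih hb fun x hx => hq x (by simp [hx])
      refine ⟨x, hx, hPx, Or.inr ?_⟩
      rcases h1 with rfl | ⟨y, hy, h1⟩
      · exact ⟨u, huv, Con.refl ⟨hu, hP⟩⟩
      · exact ⟨y, hy, (Con.of_adj huv (mem_inter hu hP) h1.left_mem).trans h1⟩

theorem Cr.mono {i : Bool} (h : Cr G side i W) (hW : W ⊆ W') : Cr G side i W' := by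
  obtain ⟨x, hx, y, hy, h1⟩ := h
  exact ⟨x, hx, y, hy, h1.mono hW⟩

theorem HC.cr_of_not (h : HC G side) {i : Bool} (hW : ¬ Cr G side i Wᶜ) :
    Cr G side (!i) W := by
  cases i
  · have h1 := (h Wᶜ).not.1 hW
    rw [compl_compl, not_not] at h1
    exact h1
  · exact (h W).2 hW

theorem HC.meet (h : HC G side) {i : Bool} (hW : Cr G side i W) (hW' : Cr G side (!i) W') :
    (W ∩ W').Nonempty := by
  by_contra hne
  have hd : Disjoint W W' := disjoint_iff_inter_eq_empty.2 (not_nonempty_iff_eq_empty.1 hne)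
  cases i
  · exact (h W).1 hW (hW'.mono hd.subset_compl_left)
  · exact (h W').1 hW' (hW.mono hd.subset_compl_right)

theorem HC.cr_univ (h : HC G side) (i : Bool) : Cr G side i univ := by
  have h1 := h.cr_of_not (i := !i) (W := univ) (by
    rintro ⟨x, -, y, -, h1⟩
    exact h1.left_mem trivial)
  rwa [Bool.not_not] at h1

variable [Fintype V]

theorem wt_nonneg {m : V → ℝ} (hm : ∀ v, 0 ≤ m v) (W : Set V) : 0 ≤ wt m W := by
  exact Finset.sum_nonneg fun v _ => hm v

theorem wt_mono {m : V → ℝ} (hm : ∀ v, 0 ≤ m v) (hW : W ⊆ W') : wt m W ≤ wt m W' := by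
  refine Finset.sum_le_sum_of_subset_of_nonneg (fun v hv => ?_) fun v _ _ => hm v
  rw [Finset.mem_filter] at hv ⊢
  exact ⟨hv.1, hW hv.2⟩

theorem wt_eq_sum (m : V → ℝ) (W : Set V) : wt m W = ∑ v, if v ∈ W then m v else 0 := by
  exact Finset.sum_filter _ _

/-- Take a path and add up the jumps. -/
theorem Con.abs_sub_le {ψ m : V → ℝ} (h : Con G W a b) (hm : ∀ v, 0 ≤ m v)
    (hψ : ∀ v w, G.Adj v w → |ψ v - ψ w| ≤ m w) : |ψ a - ψ b| ≤ wt m W := by
  obtain ⟨q, hq⟩ := h
  have key : ∀ {x y : V} (p : G.Walk x y), |ψ x - ψ y| ≤ (p.support.tail.map m).sum := by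
    intro x y p
    induction p with
    | nil => simp
    | @cons u v w huv p ih =>
      rw [SimpleGraph.Walk.support_cons, List.tail_cons, ← p.cons_tail_support, List.map_cons,
        List.sum_cons]
      exact (_root_.abs_sub_le _ (ψ v) _).trans (add_le_add (hψ u v huv) ih)
  refine (key q.bypass).trans ?_
  rw [← List.sum_toFinset m q.bypass_isPath.support_nodup.tail]
  refine Finset.sum_le_sum_of_subset_of_nonneg (fun v hv => ?_) fun v _ _ => hm v
  rw [Finset.mem_filter]
  exact ⟨Finset.mem_univ v,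
    hq v (q.support_bypass_subset_support (List.mem_of_mem_tail (List.mem_toFinset.1 hv)))⟩

end Graph

/-- A separated subset of `A` of maximal cardinality. -/
theorem exists_net {S : Type} [MetricSpace S] [CompactSpace S] (A : Set S) {r : ℝ} (hr : 0 < r) :
    ∃ T : Finset S, (T : Set S) ⊆ A ∧ Sepd r T ∧ ∀ x ∈ A, ∃ c ∈ T, dist c x < r := by
  obtain ⟨t, -, htf, ht⟩ := finite_cover_balls_of_compact (isCompact_univ (X := S)) (half_pos hr)
  have h1 : ∀ x : S, ∃ c ∈ t, dist x c < r / 2 := fun x => by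
    simpa using ht (mem_univ x)
  choose f hf hf' using h1
  have hb : BddAbove {n | ∃ T : Finset S, (T : Set S) ⊆ A ∧ Sepd r T ∧ T.card = n} := by
    refine ⟨htf.toFinset.card, ?_⟩
    rintro _ ⟨T, -, hT, rfl⟩
    refine Finset.card_le_card_of_injOn f (fun x _ => by simpa using hf x) fun x hx y hy hxy => ?_
    by_contra hne
    have h2 := hT x hx y hy hne
    have h3 := dist_triangle_right x y (f x)
    have h4 := hf' x
    have h5 := hf' y
    rw [← hxy] at h5
    linarith
  obtain ⟨T, hTA, hT, hc⟩ := Nat.sSup_mem (s := {n | ∃ T : Finset S, (T : Set S) ⊆ A ∧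
    Sepd r T ∧ T.card = n}) ⟨0, ∅, by simp, by simp [Sepd], rfl⟩ hb
  refine ⟨T, hTA, hT, fun x hx => ?_⟩
  by_contra hno
  have h2 : ∀ c ∈ T, r ≤ dist c x := fun c hc' => le_of_not_gt fun h => hno ⟨c, hc', h⟩
  have h3 : x ∉ T := fun h => by
    have := h2 x h
    rw [dist_self] at this
    linarith
  have h4 := le_csSup hb (a := T.card + 1) ⟨insert x T, by
    rw [Finset.coe_insert]
    exact insert_subset hx hTA, ?_, Finset.card_insert_of_notMem h3⟩
  · omega
  · intro y hy z hz hyz
    rcases Finset.mem_insert.1 hy with e | hy' <;> rcases Finset.mem_insert.1 hz with e' | hz'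
    · exact absurd (e.trans e'.symm) hyz
    · rw [dist_comm, e]
      exact h2 z hz'
    · rw [e']
      exact h2 y hy'
    · exact hT y hy' z hz' hyz

theorem exists_diam (S : Type) [MetricSpace S] [CompactSpace S] :
    ∃ R : ℝ, 1 ≤ R ∧ ∀ x y : S, dist x y ≤ R := by
  obtain ⟨R, hR⟩ := Metric.isBounded_iff.1 (isCompact_univ (X := S)).isBounded
  exact ⟨max 1 R, le_max_left _ _, fun x y =>
    (hR (mem_univ x) (mem_univ y)).trans (le_max_right _ _)⟩

end KP2
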