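import Pool.Agent.Lib.MP_e1e491_gt.P2.Basic

/-! From small ratios to quasisymmetry. -/

namespace KP2

open Set Metric
open scoped Classical

open scoped NNReal

section

variable {S Y : Type} [MetricSpace S] [MetricSpace Y]

/-- chains of length `n` inside `E` -/
def qs_Chn (E : Set S) (τ : ℝ) (x y : S) (n : ℕ) : Prop :=
  ∃ q : ℕ → S, q 0 = x ∧ q n = y ∧ (∀ k ≤ n, q k ∈ E) ∧ ∀ k < n, dist (q k) (q (k + 1)) ≤ τ

theorem qs_exists {τ : ℝ} (hτ : 0 < τ) {E : Set S} (hE : IsPreconnected E) {x y : S} (hx : x ∈ E)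
    (hy : y ∈ E) : ∃ n, qs_Chn E τ x y n := by
  have h1 : Relation.ReflTransGen (fun a b => b ∈ E ∧ dist a b ≤ τ) x y := by
    refine hE.induction₂' (Relation.ReflTransGen fun a b => b ∈ E ∧ dist a b ≤ τ)
      (fun a ha => ?_) (fun _ _ _ _ _ _ h h' => h.trans h') hx hy
    filter_upwards [self_mem_nhdsWithin, mem_nhdsWithin_of_mem_nhds (ball_mem_nhds a hτ)]
      with b hb hb'
    exact ⟨Relation.ReflTransGen.single ⟨hb, (mem_ball'.1 hb').le⟩,
      Relation.ReflTransGen.single ⟨ha, (mem_ball.1 hb').le⟩⟩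
  clear hy
  induction h1 with
  | refl => exact ⟨0, fun _ => x, rfl, rfl, fun _ _ => hx, fun _ h => absurd h (Nat.not_lt_zero _)⟩
  | @tail b c _ hbc ih =>
    obtain ⟨n, q, h0, hn, hq, hd⟩ := ih
    refine ⟨n + 1, fun k => if k ≤ n then q k else c, ?_, ?_, fun k _ => ?_, fun k hk => ?_⟩
    · simp only [Nat.zero_le, if_true, h0]
    · simp only [Nat.not_succ_le_self, if_false]
    · by_cases h : k ≤ n
      · simp only [h, if_true]
        exact hq k h
      · simp only [h, if_false]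
        exact hbc.1
    · have h2 : k ≤ n := Nat.lt_succ_iff.1 hk
      by_cases h : k + 1 ≤ n
      · simp only [h, h2, if_true]
        exact hd k h
      · have h3 : k = n := by omega
        subst h3
        simp only [le_refl, if_true, Nat.not_succ_le_self, if_false, hn]
        exact hbc.2

theorem qs_short {τ : ℝ} {E : Set S} {q : ℕ → S} {i e m : ℕ} (hq : ∀ k ≤ i + 1 + e + m, q k ∈ E)
    (hd : ∀ k < i + 1 + e + m, dist (q k) (q (k + 1)) ≤ τ) (h : dist (q i) (q (i + 1 + e)) ≤ τ) :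
    qs_Chn E τ (q 0) (q (i + 1 + e + m)) (i + 1 + m) := by
  refine ⟨fun k => if k ≤ i then q k else q (k + e), ?_, ?_, fun k hk => ?_, fun k hk => ?_⟩
  · simp only [Nat.zero_le, if_true]
  · have h1 : ¬ i + 1 + m ≤ i := by omega
    simp only [h1, if_false]
    rw [Nat.add_right_comm]
  · by_cases h1 : k ≤ i
    · simp only [h1, if_true]
      exact hq k (by omega)
    · simp only [h1, if_false]
      exact hq _ (by omega)
  · by_cases h1 : k + 1 ≤ i
    · have h2 : k ≤ i := by omega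
      simp only [h1, h2, if_true]
      exact hd k (by omega)
    · by_cases h2 : k ≤ i
      · have h3 : k = i := by omega
        subst h3
        simp only [le_refl, if_true, Nat.not_succ_le_self, if_false]
        exact h
      · simp only [h1, h2, if_false]
        rw [Nat.add_right_comm]
        exact hd _ (by omega)

/-- A shortest chain in a connected set. -/
theorem exists_chain {C p R τ : ℝ} (hP : Pack S C p) (hτ : 0 < τ) (hR : τ ≤ R) {E : Set S}
    (hE : IsPreconnected E) {x y : S} (hx : x ∈ E) (hy : y ∈ E) (hb : ∀ w ∈ E, dist x w ≤ R) :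
    ∃ (N : ℕ) (q : ℕ → S), (N : ℝ) ≤ 2 * (C * (R / τ) ^ p) ∧ q 0 = x ∧ q N = y ∧
      ∀ n < N, dist (q n) (q (n + 1)) ≤ τ := by
  have hex := qs_exists hτ hE hx hy
  obtain ⟨q, h0, hn, hq, hd⟩ := Nat.find_spec hex
  have hmin := fun m => Nat.find_min hex (m := m)
  generalize Nat.find hex = N at hn hq hd hmin
  have hsep : ∀ i j, i < j → 2 * j ≤ N → τ < dist (q (2 * i)) (q (2 * j)) := by
    intro i j hij hj
    by_contra hc
    obtain ⟨e, he⟩ : ∃ e, 2 * j = 2 * i + 1 + (e + 1) := ⟨2 * j - 2 * i - 2, by omega⟩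
    obtain ⟨m, rfl⟩ : ∃ m, N = 2 * i + 1 + (e + 1) + m := ⟨N - 2 * j, by omega⟩
    rw [he] at hc
    have h1 := qs_short hq hd (not_lt.1 hc)
    rw [h0, hn] at h1
    exact hmin _ (by omega) h1
  have hsep' : ∀ i ∈ Finset.range (N / 2 + 1), ∀ j ∈ Finset.range (N / 2 + 1), i ≠ j →
      τ < dist (q (2 * i)) (q (2 * j)) := by
    intro i hi j hj hij
    rw [Finset.mem_range] at hi hj
    rcases lt_or_gt_of_ne hij with h | h
    · exact hsep i j h (by omega)
    · rw [dist_comm]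
      exact hsep j i h (by omega)
  have h2 := hP τ R hτ hR x ((Finset.range (N / 2 + 1)).image fun i => q (2 * i))
    (fun a ha b hb hab => by
      obtain ⟨i, hi, rfl⟩ := Finset.mem_image.1 ha
      obtain ⟨j, hj, rfl⟩ := Finset.mem_image.1 hb
      exact (hsep' i hi j hj fun h => hab (by rw [h])).le)
    (fun a ha => by
      obtain ⟨i, hi, rfl⟩ := Finset.mem_image.1 ha
      rw [Finset.mem_range] at hi
      rw [dist_comm]
      exact hb _ (hq _ (by omega)))
  rw [Finset.card_image_of_injOn (fun i hi j hj h => by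
    by_contra hij
    have h3 := hsep' i hi j hj hij
    have h4 : q (2 * i) = q (2 * j) := h
    rw [h4, dist_self] at h3
    exact lt_asymm hτ h3), Finset.card_range] at h2
  refine ⟨N, q, le_trans ?_ (mul_le_mul_of_nonneg_left h2 zero_le_two), h0, hn, hd⟩
  have h5 : N ≤ 2 * (N / 2 + 1) := by omega
  exact_mod_cast h5

theorem wqs_of_small {C p : ℝ} (hP : Pack S C p) (hp : 0 < p) (hC : 1 ≤ C)
    (llc : ∀ x y : S, ∃ E : Set S, IsPreconnected E ∧ x ∈ E ∧ y ∈ E ∧
      ∀ w ∈ E, dist x w ≤ C * dist x y) {f : S → Y}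
    (h : ∀ δ : ℝ, 0 < δ → ∃ ε : ℝ, 0 < ε ∧ ∀ x y z, dist x y ≤ ε * dist x z →
      dist (f x) (f y) ≤ δ * dist (f x) (f z)) : WQS f := by
  refine ⟨fun T => ?_, h⟩
  obtain ⟨ε₁, hε₁, h1⟩ := h 1 one_pos
  obtain ⟨ε, hε0, hε1, hε2⟩ : ∃ ε : ℝ, 0 < ε ∧ ε ≤ 1 ∧ ε ≤ ε₁ :=
    ⟨min 1 ε₁, lt_min one_pos hε₁, min_le_left _ _, min_le_right _ _⟩
  obtain ⟨T', hT1, hT2⟩ : ∃ T' : ℝ, 1 ≤ T' ∧ T ≤ T' := ⟨max 1 T, le_max_left _ _, le_max_right _ _⟩
  refine ⟨2 ^ ⌈2 * (C * (C * T' / (ε / 2)) ^ p)⌉₊, fun x y z hxy => ?_⟩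
  rcases (dist_nonneg (x := x) (y := z)).eq_or_lt with hd | hd
  · rw [← hd, mul_zero] at hxy
    rw [dist_le_zero.1 hxy, dist_self]
    positivity
  obtain ⟨E, hE, hx, hy, hb⟩ := llc x y
  have hCT : 1 ≤ C * T' := one_le_mul_of_one_le_of_one_le hC hT1
  obtain ⟨N, q, hN, h0, hn, hq⟩ := exists_chain (R := C * T' * dist x z) (τ := ε / 2 * dist x z)
    hP (by positivity) (mul_le_mul_of_nonneg_right (by linarith) hd.le) hE hx hy fun w hw =>
      (hb w hw).trans (by
        rw [mul_assoc]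
        exact mul_le_mul_of_nonneg_left (hxy.trans (mul_le_mul_of_nonneg_right hT2 hd.le))
          (zero_le_one.trans hC))
  rw [mul_div_mul_right _ _ hd.ne'] at hN
  have h2 : ∀ n ≤ N, dist (f x) (f (q n)) ≤ (2 ^ n - 1) * dist (f x) (f z) := by
    intro n
    induction n with
    | zero => intro _; rw [h0, dist_self, pow_zero, sub_self, zero_mul]
    | succ n ih =>
      intro hn'
      have h3 := ih (Nat.le_of_succ_le hn')
      have h4 := hq n hn'
      have h5 : ∀ w, dist x z / 2 ≤ dist (q n) w →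
          dist (f (q n)) (f (q (n + 1))) ≤ dist (f (q n)) (f w) := by
        intro w hw
        have h6 := h1 (q n) (q (n + 1)) w (h4.trans (by
          calc ε / 2 * dist x z = ε * (dist x z / 2) := by ring
            _ ≤ ε₁ * dist (q n) w := mul_le_mul hε2 hw (by positivity) hε₁.le))
        rwa [one_mul] at h6
      have h7 : dist (f (q n)) (f (q (n + 1))) ≤ dist (f x) (f (q n)) + dist (f x) (f z) := by
        by_cases h8 : dist x z / 2 ≤ dist (q n) x
        · have h9 := h5 x h8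
          rw [dist_comm (f (q n)) (f x)] at h9
          linarith [dist_nonneg (x := f x) (y := f z)]
        · have h9 := dist_triangle_left x z (q n)
          exact (h5 z (by linarith [not_le.1 h8])).trans (dist_triangle_left _ _ _)
      have h10 := dist_triangle (f x) (f (q n)) (f (q (n + 1)))
      rw [pow_succ]
      linarith
  have h11 := h2 N le_rfl
  rw [hn] at h11
  refine h11.trans (mul_le_mul_of_nonneg_right ?_ dist_nonneg)
  have h12 : N ≤ ⌈2 * (C * (C * T' / (ε / 2)) ^ p)⌉₊ := by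
    exact_mod_cast hN.trans (Nat.le_ceil _)
  linarith [pow_le_pow_right₀ (one_le_two (α := ℝ)) h12]

theorem WQS.injective {f : S → Y} (h : WQS f) (hn : ∃ a b, f a ≠ f b) :
    Function.Injective f := by
  intro x z hxz
  by_contra hne
  have hd : 0 < dist x z := dist_pos.2 hne
  have h1 : ∀ y, f x = f y := by
    intro y
    obtain ⟨H, hH⟩ := h.1 (dist x y / dist x z)
    have h2 := hH x y z (by rw [div_mul_cancel₀ _ hd.ne'])
    rw [← hxz, dist_self, mul_zero] at h2
    exact dist_le_zero.1 h2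
  obtain ⟨a, b, hab⟩ := hn
  exact hab ((h1 a).symm.trans (h1 b))

theorem WQS.continuous {f : S → Y} (h : WQS f) : Continuous f := by
  refine Metric.continuous_iff.2 fun x ε hε => ?_
  by_cases hz : ∃ z, x ≠ z
  · obtain ⟨z, hz⟩ := hz
    have hD : 0 < dist (f x) (f z) + 1 := by positivity
    obtain ⟨η, hη, h1⟩ := h.2 (ε / (dist (f x) (f z) + 1)) (div_pos hε hD)
    refine ⟨η * dist x z, mul_pos hη (dist_pos.2 hz), fun y hy => ?_⟩
    rw [dist_comm] at hy ⊢
    refine (h1 x y z hy.le).trans_lt ?_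
    rw [div_mul_eq_mul_div, div_lt_iff₀ hD]
    exact mul_lt_mul_of_pos_left (lt_add_one _) hε
  · push Not at hz
    refine ⟨1, one_pos, fun y _ => ?_⟩
    rw [← hz y, dist_self]
    exact hε

theorem WQS.comp {Z : Type} [MetricSpace Z] {f : S → Y} {g : Y → Z} (hg : WQS g) (hf : WQS f) :
    WQS (g ∘ f) := by
  refine ⟨fun T => ?_, fun δ hδ => ?_⟩
  · obtain ⟨H, h1⟩ := hf.1 T
    obtain ⟨H', h2⟩ := hg.1 H
    exact ⟨H', fun x y z h => h2 _ _ _ (h1 x y z h)⟩
  · obtain ⟨ε, hε, h2⟩ := hg.2 δ hδ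
    obtain ⟨ε', hε', h1⟩ := hf.2 ε hε
    exact ⟨ε', hε', fun x y z h => h2 _ _ _ (h1 x y z h)⟩

theorem WQS.bilip {Z : Type} [MetricSpace Z] {f : S → Y} {g : S → Z} (hf : WQS f) {c L : ℝ}
    (hc : 0 < c) (h : ∀ x y, c * dist (f x) (f y) ≤ dist (g x) (g y) ∧
      dist (g x) (g y) ≤ L * dist (f x) (f y)) : WQS g := by
  have hL : 0 < |L| + 1 := by positivity
  have key : ∀ (H : ℝ) (x y z : S), dist (f x) (f y) ≤ H * dist (f x) (f z) →
      dist (g x) (g y) ≤ (|L| + 1) * |H| / c * dist (g x) (g z) := by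
    intro H x y z h1
    have h2 : dist (f x) (f z) ≤ dist (g x) (g z) / c := by
      rw [le_div_iff₀' hc]
      exact (h x z).1
    calc dist (g x) (g y) ≤ L * dist (f x) (f y) := (h x y).2
      _ ≤ (|L| + 1) * dist (f x) (f y) :=
        mul_le_mul_of_nonneg_right ((le_abs_self L).trans (le_add_of_nonneg_right zero_le_one))
          dist_nonneg
      _ ≤ (|L| + 1) * (|H| * (dist (g x) (g z) / c)) :=
        mul_le_mul_of_nonneg_left (h1.trans
          (mul_le_mul (le_abs_self H) h2 dist_nonneg (abs_nonneg H))) hL.le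
      _ = (|L| + 1) * |H| / c * dist (g x) (g z) := by ring
  refine ⟨fun T => ?_, fun δ hδ => ?_⟩
  · obtain ⟨H, h1⟩ := hf.1 T
    exact ⟨_, fun x y z h2 => key H x y z (h1 x y z h2)⟩
  · have h3 : 0 < δ * c / (|L| + 1) := by positivity
    obtain ⟨ε, hε, h1⟩ := hf.2 _ h3
    refine ⟨ε, hε, fun x y z h2 => (key _ x y z (h1 x y z h2)).trans (le_of_eq ?_)⟩
    rw [abs_of_pos h3, mul_div_cancel₀ _ hL.ne', mul_div_cancel_right₀ _ hc.ne']

theorem wqs_of_gauge {f : S → Y} {K α β : ℝ} (hK : 0 < K) (hα : 0 < α) (hβ : 0 < β)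
    (h : ∀ x y z : S, z ≠ x → dist (f x) (f y) ≤
      K * ((dist x y / dist x z) ^ α + (dist x y / dist x z) ^ β) * dist (f x) (f z)) :
    WQS f := by
  have key : ∀ t : ℝ, 0 ≤ t → ∀ x y z : S, dist x y ≤ t * dist x z →
      dist (f x) (f y) ≤ K * (t ^ α + t ^ β) * dist (f x) (f z) := by
    intro t ht x y z h1
    by_cases hz : z = x
    · rw [hz, dist_self, mul_zero] at h1
      rw [hz, dist_le_zero.1 h1, dist_self, mul_zero]
    · have hd : 0 < dist x z := dist_pos.2 (Ne.symm hz)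
      have h2 : dist x y / dist x z ≤ t := (div_le_iff₀ hd).2 h1
      have h3 : 0 ≤ dist x y / dist x z := by positivity
      exact (h x y z hz).trans (mul_le_mul_of_nonneg_right (mul_le_mul_of_nonneg_left
        (add_le_add (Real.rpow_le_rpow h3 h2 hα.le) (Real.rpow_le_rpow h3 h2 hβ.le)) hK.le)
        dist_nonneg)
  refine ⟨fun T => ⟨_, fun x y z h1 => key |T| (abs_nonneg T) x y z
    (h1.trans (mul_le_mul_of_nonneg_right (le_abs_self T) dist_nonneg))⟩, fun δ hδ => ?_⟩
  have hu : 0 < δ / (2 * K) := by positivity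
  have hε : 0 < min ((δ / (2 * K)) ^ α⁻¹) ((δ / (2 * K)) ^ β⁻¹) :=
    lt_min (Real.rpow_pos_of_pos hu _) (Real.rpow_pos_of_pos hu _)
  refine ⟨_, hε, fun x y z h1 => (key _ hε.le x y z h1).trans
    (mul_le_mul_of_nonneg_right ?_ dist_nonneg)⟩
  have h2 := Real.rpow_le_rpow hε.le (min_le_left _ _) hα.le
  have h3 := Real.rpow_le_rpow hε.le (min_le_right _ _) hβ.le
  rw [Real.rpow_inv_rpow hu.le hα.ne'] at h2
  rw [Real.rpow_inv_rpow hu.le hβ.ne'] at h3
  refine (mul_le_mul_of_nonneg_left (add_le_add h2 h3) hK.le).trans (le_of_eq ?_)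
  field_simp
  ring

end

end KP2
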