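import Pool.Agent.Lib.MP_e1e491_gt.P2.Lines

/-! The Loewner estimate in the tiling. -/

namespace KP2

open Set Metric
open scoped Classical

variable {V : Type} [Fintype V] {G : SimpleGraph V} {side : Bool → Bool → Set V} {m : V → ℝ}
  {X : Bool → V → ℝ} {H : Bool → ℝ}

/-- Follow a walk in `A` until the first square that leaves the box of size `ℓ`. -/
theorem Til.hit (T : Til G side m X H) {A : Set V} (hA : Cn G A) {a : V} (ha : a ∈ A) {ℓ : ℝ}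
    (hℓ : 0 < ℓ) (h : Ext m X A a ℓ) : ∃ (i : Bool) (u : ℝ), 0 ≤ u ∧ u + ℓ ≤ H i ∧
      X i a - ℓ ≤ u ∧ u ≤ X i a ∧ ∀ t ∈ Ioo u (u + ℓ), (∀ v, t ≠ X i v ∧ t ≠ X i v + m v) →
        ∃ b ∈ A, b ∈ Vt m X i t ∧ Win m X (!i) (X (!i) a) ℓ b := by
  obtain ⟨b, hb, hP⟩ := h
  obtain ⟨w, hwA, hPw, hw⟩ := Con.exists_first
    (P := fun v => ∃ i, X i a + ℓ ≤ X i v + m v ∨ X i v + ℓ ≤ X i a) (hA a ha b hb) hP
  have hnot : ∀ v, (¬ ∃ i, X i a + ℓ ≤ X i v + m v ∨ X i v + ℓ ≤ X i a) →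
      ∀ j, X j v + m v < X j a + ℓ ∧ X j a < X j v + ℓ := by
    intro v hv j
    constructor
    · by_contra hc
      exact hv ⟨j, Or.inl (not_lt.mp hc)⟩
    · by_contra hc
      exact hv ⟨j, Or.inr (not_lt.mp hc)⟩
  have key : ∃ W : Set V, Con G W a w ∧ ∀ v ∈ W, v ∈ A ∧ ∀ j, Win m X j (X j a) ℓ v := by
    rcases hw with hw | ⟨u, huw, hau⟩
    · refine ⟨{a}, ?_, ?_⟩
      · rw [hw]
        exact Con.refl rfl
      · intro v hv
        have hva : v = a := hv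
        rw [hva]
        refine ⟨ha, fun j => ⟨by linarith, ?_⟩⟩
        have := T.m_nonneg a
        linarith
    · refine ⟨(A ∩ {v | ¬ ∃ i, X i a + ℓ ≤ X i v + m v ∨ X i v + ℓ ≤ X i a}) ∪ {w}, ?_, ?_⟩
      · exact (hau.mono subset_union_left).trans
          (Con.of_adj huw (Or.inl hau.right_mem) (Or.inr rfl))
      · rintro v (⟨hvA, hv⟩ | hv)
        · refine ⟨hvA, fun j => ?_⟩
          have h1 := hnot v hv j
          have h2 := T.m_nonneg v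
          exact ⟨by linarith [h1.1], by linarith [h1.2]⟩
        · have hvw : v = w := hv
          rw [hvw]
          refine ⟨hwA, fun j => ?_⟩
          have h1 := hnot u hau.right_mem.2 j
          have h2 := T.adj j u w huw
          have h3 := T.adj j w u huw.symm
          exact ⟨by linarith [h1.1], by linarith [h1.2]⟩
  obtain ⟨W, hW, hWin⟩ := key
  have hma := T.m_nonneg a
  obtain ⟨i, hi | hi⟩ := hPw
  · have h1 := T.le_H i w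
    refine ⟨i, X i a, T.X_nonneg i a, by linarith, by linarith, le_rfl, fun t ht hne => ?_⟩
    obtain ⟨v, hvW, hv⟩ := T.toPreTil.meet (fun v => (hne v).1) hW ht.1 (by linarith [ht.2])
    exact ⟨v, (hWin v hvW).1, hv, (hWin v hvW).2 _⟩
  · have h1 := T.le_H i a
    have h2 := T.X_nonneg i w
    refine ⟨i, X i a - ℓ, by linarith, by linarith, le_rfl, by linarith, fun t ht hne => ?_⟩
    obtain ⟨v, hvW, hv⟩ := T.toPreTil.meet (fun v => (hne v).1) hW.symm (by linarith [ht.1])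
      (by linarith [ht.2])
    exact ⟨v, (hWin v hvW).1, hv, (hWin v hvW).2 _⟩

omit [Fintype V] in
theorem loew_win {i : Bool} {t y ρ : ℝ} {v : V} (hv : v ∈ Vt m X i t) (h1 : y - ρ ≤ t)
    (h2 : t ≤ y + ρ) : Win m X i y ρ v :=
  ⟨by linarith [hv.1], by linarith [hv.2]⟩

omit [Fintype V] in
theorem loew_all {i : Bool} {ρ : ℝ} {y : Bool → ℝ} {v : V} (h1 : Win m X i (y i) ρ v)
    (h2 : Win m X (!i) (y (!i)) ρ v) (k : Bool) : Win m X k (y k) ρ v := by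
  cases i <;> cases k
  exacts [h1, h2, h2, h1]

/-- A good line through the box of size `ρ` around `y`. -/
def loew_Good (G : SimpleGraph V) (side : Bool → Bool → Set V) (m : V → ℝ) (X : Bool → V → ℝ)
    (H : Bool → ℝ) (ψ : V → ℝ) (y : Bool → ℝ) (ρ c : ℝ) (i : Bool) (t : ℝ) : Prop :=
  Line G side m X H i t ∧ t ∈ Ioo 0 (H i) ∧ y i - ρ ≤ t ∧ t ≤ y i + ρ ∧
    ∀ v ∈ Vt m X i t, ∀ w ∈ Vt m X i t, (∀ k, Win m X k (y k) ρ v) → (∀ k, Win m X k (y k) ρ w) →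
      |ψ v - ψ w| ≤ c

theorem loew_good (T : Til G side m X H) {ψ W : V → ℝ} (hW : ∀ v, 0 ≤ W v)
    (hψ : ∀ v w, G.Adj v w → |ψ v - ψ w| ≤ W w) (i : Bool) {u ℓ ρ : ℝ} (y : Bool → ℝ)
    (hℓ : 0 < ℓ) (hρ : ℓ ≤ ρ) (hu : 0 ≤ u) (hu' : u + ℓ ≤ H i) (h1 : y i - ρ ≤ u)
    (h2 : u + ℓ ≤ y i + ρ) :
    ∃ t ∈ Ioo u (u + ℓ),
      loew_Good G side m X H ψ y ρ (2 * (ρ / ℓ) * √(∑ v, W v ^ 2)) i t := by
  obtain ⟨t, ht, hL, ho⟩ := T.good_line hW hψ i (y (!i)) hℓ hρ hu hu'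
  exact ⟨t, ht, hL, ⟨by linarith [ht.1], by linarith [ht.2]⟩, by linarith [ht.1],
    by linarith [ht.2], fun v hv w hw hv' hw' => ho v hv w hw (hv' _) (hw' _)⟩

omit [Fintype V] in
theorem loew_cross {ψ : V → ℝ} {y : Bool → ℝ} {ρ c t s : ℝ} {i : Bool}
    (h : loew_Good G side m X H ψ y ρ c i t) (h' : loew_Good G side m X H ψ y ρ c (!i) s) :
    ∃ z, z ∈ Vt m X i t ∧ z ∈ Vt m X (!i) s ∧ ∀ k, Win m X k (y k) ρ z := by
  obtain ⟨z, hz, hz'⟩ := h.1.cross h'.1 h'.2.1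
  exact ⟨z, hz, hz', loew_all (loew_win hz h.2.2.1 h.2.2.2.1) (loew_win hz' h'.2.2.1 h'.2.2.2.1)⟩

theorem loew_point (T : Til G side m X H) {ψ W : V → ℝ} (hW : ∀ v, 0 ≤ W v)
    (hψ : ∀ v w, G.Adj v w → |ψ v - ψ w| ≤ W w) {B : Set V} (hB : Cn G B) {b : V} (hb : b ∈ B)
    {ℓ ρ : ℝ} (hℓ : 0 < ℓ) (eB : Ext m X B b ℓ) (y : Bool → ℝ)
    (hρ : ∀ i, |y i - X i b| + ℓ ≤ ρ) :
    ∃ i t, loew_Good G side m X H ψ y ρ (2 * (ρ / ℓ) * √(∑ v, W v ^ 2)) i t ∧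
      ∃ b' ∈ B, b' ∈ Vt m X i t ∧ ∀ k, Win m X k (y k) ρ b' := by
  obtain ⟨i, u, hu, hu', h1, h2, h3⟩ := T.hit hB hb hℓ eB
  have h4 : ∀ k, y k - X k b ≤ ρ - ℓ ∧ X k b - y k ≤ ρ - ℓ := fun k => by
    have h5 := hρ k
    have h6 := le_abs_self (y k - X k b)
    have h7 := neg_abs_le (y k - X k b)
    constructor <;> linarith
  have h5 : ℓ ≤ ρ := by
    have h6 := h4 i
    linarith [h6.1, h6.2]
  obtain ⟨t, ht, hg⟩ := loew_good T hW hψ i y hℓ h5 hu hu' (by linarith [(h4 i).1])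
    (by linarith [(h4 i).2])
  obtain ⟨b', hb', hv, hw⟩ := h3 t ht (hg.1.1 i)
  refine ⟨i, t, hg, b', hb', hv, loew_all (loew_win hv hg.2.2.1 hg.2.2.2.1) ?_⟩
  exact ⟨by linarith [hw.1, (h4 (!i)).2], by linarith [hw.2, (h4 (!i)).1]⟩

theorem Til.loewner (T : Til G side m X H) {ψ W : V → ℝ} (hW : ∀ v, 0 ≤ W v)
    (hψ : ∀ v w, G.Adj v w → |ψ v - ψ w| ≤ W w) {A B : Set V} (hA : Cn G A) (hB : Cn G B)
    {a b : V} (ha : a ∈ A) (hb : b ∈ B) {ℓ ρ : ℝ} (hℓ : 0 < ℓ) (hH : ∀ i, ℓ ≤ H i)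
    (eA : Ext m X A a ℓ) (eB : Ext m X B b ℓ) (hρ : ∀ i, |X i a - X i b| + ℓ ≤ ρ) :
    ∃ a' ∈ A, ∃ b' ∈ B, |ψ a' - ψ b'| ≤ 6 * (ρ / ℓ) * √(∑ v, W v ^ 2) := by
  have h5 : ℓ ≤ ρ := by
    have h6 := hρ true
    have h7 := abs_nonneg (X true a - X true b)
    linarith
  obtain ⟨i, t, hg, a', ha', hav, haw⟩ := loew_point T hW hψ hA ha hℓ eA (fun k => X k a)
    (fun k => by simpa using h5)
  obtain ⟨j, s, hg', b', hb', hbv, hbw⟩ := loew_point T hW hψ hB hb hℓ eB (fun k => X k a) hρ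
  refine ⟨a', ha', b', hb', ?_⟩
  have hc : 0 ≤ 2 * (ρ / ℓ) * √(∑ v, W v ^ 2) :=
    (abs_nonneg _).trans (hg.2.2.2.2 a' hav a' hav haw haw)
  have hj : j = i ∨ j = !i := by cases i <;> cases j <;> simp
  rcases hj with rfl | rfl
  · have h1 := hH (!j)
    have h2 := T.X_nonneg (!j) a
    have h3 := T.le_H (!j) a
    have h4 := T.m_nonneg a
    have h6 := min_le_left (X (!j) a) (H (!j) - ℓ)
    have h7 := min_le_right (X (!j) a) (H (!j) - ℓ)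
    obtain ⟨r, -, hg''⟩ := loew_good T hW hψ (!j) (u := min (X (!j) a) (H (!j) - ℓ))
      (fun k => X k a) hℓ h5 (le_min h2 (by linarith)) (by linarith)
      (le_min (by linarith) (by linarith)) (by linarith)
    obtain ⟨z, hz1, hz2, hz3⟩ := loew_cross hg hg''
    obtain ⟨z', hz1', hz2', hz3'⟩ := loew_cross hg' hg''
    have e1 := hg.2.2.2.2 a' hav z hz1 haw hz3
    have e2 := hg''.2.2.2.2 z hz2 z' hz2' hz3 hz3'
    have e3 := hg'.2.2.2.2 z' hz1' b' hbv hz3' hbw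
    have e4 := abs_sub_le (ψ a') (ψ z) (ψ b')
    have e5 := abs_sub_le (ψ z) (ψ z') (ψ b')
    linarith
  · obtain ⟨z, hz1, hz2, hz3⟩ := loew_cross hg hg'
    have e1 := hg.2.2.2.2 a' hav z hz1 haw hz3
    have e2 := hg'.2.2.2.2 z hz2 b' hbv hz3 hbw
    have e4 := abs_sub_le (ψ a') (ψ z) (ψ b')
    linarith

end KP2
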