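import Pool.Agent.Lib.MP_e1e491_gt.Defs
import Pool.Agent.Lib.MP_e1e491_gt.P2.QS

/-! Transfer of the hypotheses. -/

namespace KP2

open Set Metric
open scoped Classical

variable {Z J Y : Type} [MetricSpace Z] [MetricSpace Y]

theorem GeoP.mono {P : J → Set Z} {C C' : ℝ} (h : GeoP P C) (hC : C ≤ C') : GeoP P C' := by
  have m : ∀ {u : ℝ} {a b : Z}, u ≤ C * dist a b → u ≤ C' * dist a b := fun hu =>
    hu.trans (mul_le_mul_of_nonneg_right hC dist_nonneg)
  refine ⟨h.one_le.trans hC, fun x y => ?_, fun j x hx y hy => ?_, fun x y z => ?_,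
    fun i j hij x hx x' hx' => ?_⟩
  · obtain ⟨E, h1, h2, h3, h4⟩ := h.llc1 x y
    exact ⟨E, h1, h2, h3, fun w hw => m (h4 w hw)⟩
  · obtain ⟨E, h0, h1, h2, h3, h4⟩ := h.bt j x hx y hy
    exact ⟨E, h0, h1, h2, h3, fun w hw => m (h4 w hw)⟩
  · obtain ⟨E, h1, h2, h3, h4⟩ := h.llc2 x y z
    exact ⟨E, h1, h2, h3, fun w hw => m (h4 w hw)⟩
  · exact (h.sep i j hij x hx x' hx').imp (fun h1 y hy => m (h1 y hy)) fun h1 y hy => m (h1 y hy)

theorem Pack.mono {C C' p : ℝ} (h : Pack Z C p) (hC : C ≤ C') : Pack Z C' p := by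
  intro r R hr hR ξ T h1 h2
  refine (h r R hr hR ξ T h1 h2).trans (mul_le_mul_of_nonneg_right hC ?_)
  have : 0 < R := hr.trans_le hR
  positivity

theorem GeoP.restrict {P : J → Set Z} {C : ℝ} (h : GeoP P C) (q : J → Prop) :
    GeoP (fun j : {j // q j} => P j) C :=
  ⟨h.one_le, h.llc1, fun j => h.bt j, h.llc2,
    fun i j hij => h.sep i j fun e => hij (Subtype.ext e)⟩

theorem GeoP.map {P : J → Set Z} {C : ℝ} (h : GeoP P C) (F : Z ≃ₜ Y) (hF : WQS F) :
    ∃ C', GeoP (fun j => F '' P j) C' := by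
  obtain ⟨H, hH⟩ := hF.1 C
  have m : ∀ x y z, dist x y ≤ C * dist x z →
      dist (F x) (F y) ≤ max 1 H * dist (F x) (F z) := fun x y z hh =>
    (hH x y z hh).trans (mul_le_mul_of_nonneg_right (le_max_right _ _) dist_nonneg)
  refine ⟨max 1 H, le_max_left _ _, fun x y => ?_, fun j x hx y hy => ?_, fun x y z => ?_,
    fun i j hij x hx x' hx' => ?_⟩
  · obtain ⟨x, rfl⟩ := F.surjective x
    obtain ⟨y, rfl⟩ := F.surjective y
    obtain ⟨E, h1, h2, h3, h4⟩ := h.llc1 x y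
    refine ⟨F '' E, h1.image _ F.continuous.continuousOn, mem_image_of_mem _ h2,
      mem_image_of_mem _ h3, ?_⟩
    rintro _ ⟨w, hw, rfl⟩
    exact m _ _ _ (h4 w hw)
  · obtain ⟨x, hx, rfl⟩ := hx
    obtain ⟨y, hy, rfl⟩ := hy
    obtain ⟨E, h0, h1, h2, h3, h4⟩ := h.bt j x hx y hy
    refine ⟨F '' E, image_mono h0, h1.image _ F.continuous.continuousOn, mem_image_of_mem _ h2,
      mem_image_of_mem _ h3, ?_⟩
    rintro _ ⟨w, hw, rfl⟩
    exact m _ _ _ (h4 w hw)
  · obtain ⟨x, rfl⟩ := F.surjective x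
    obtain ⟨y, rfl⟩ := F.surjective y
    obtain ⟨z, rfl⟩ := F.surjective z
    obtain ⟨E, h1, h2, h3, h4⟩ := h.llc2 x y z
    refine ⟨F '' E, h1.image _ F.continuous.continuousOn, mem_image_of_mem _ h2,
      mem_image_of_mem _ h3, ?_⟩
    rintro _ ⟨w, hw, rfl⟩
    rcases min_le_iff.1 (h4 w hw) with h5 | h5
    · exact (min_le_left _ _).trans (m _ _ _ h5)
    · exact (min_le_right _ _).trans (m _ _ _ h5)
  · obtain ⟨x, hx, rfl⟩ := hx
    obtain ⟨x', hx', rfl⟩ := hx'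
    rcases h.sep i j hij x hx x' hx' with h1 | h1
    · left
      rintro _ ⟨y, hy, rfl⟩
      exact m _ _ _ (h1 y hy)
    · right
      rintro _ ⟨y, hy, rfl⟩
      rw [dist_comm (F x)]
      exact m _ _ _ (by rw [dist_comm x' x]; exact h1 y hy)

theorem Sq.exists_map (D : Sq Z J) (F : Z ≃ₜ Y) : ∃ D' : Sq Y J, ∀ j, D'.P j = F '' D.P j := by
  refine ⟨⟨D.ι ∘ F.symm, D.c, D.a, D.cont.comp F.symm.continuous, D.inj.comp F.symm.injective,
    D.a_pos, D.disj, D.sub, ?_⟩, fun j => ?_⟩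
  · rw [F.symm.surjective.range_comp, D.range_eq]
  · rw [F.image_eq_preimage_symm]
    rfl

/-- The affine map that sends the square with centre `c` and radius `r` to the unit square. -/
noncomputable def transfer_N (c : ℂ) (r : ℝ) (v : ℂ) : Pl :=
  fun b => ((if b then (v - c).im else (v - c).re) / r + 1) / 2

theorem transfer_dist (c : ℂ) {r : ℝ} (hr : 0 < r) (v w : ℂ) :
    dist (transfer_N c r v) (transfer_N c r w) = KKC.sn (v - w) / (2 * r) := by
  have e : ∀ s t : ℝ, dist ((s / r + 1) / 2) ((t / r + 1) / 2) = |s - t| / (2 * r) := by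
    intro s t
    rw [Real.dist_eq, show (s / r + 1) / 2 - (t / r + 1) / 2 = (s - t) / (2 * r) by ring, abs_div,
      abs_of_pos (by positivity : 0 < 2 * r)]
  have e1 : dist (transfer_N c r v true) (transfer_N c r w true) = |(v - w).im| / (2 * r) := by
    simp only [transfer_N, if_true, e]
    simp
  have e2 : dist (transfer_N c r v false) (transfer_N c r w false) = |(v - w).re| / (2 * r) := by
    simp only [transfer_N, Bool.false_eq_true, if_false, e]
    simp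
  have h0 : 0 ≤ KKC.sn (v - w) := le_max_of_le_left (abs_nonneg _)
  refine le_antisymm ((dist_pi_le_iff (by positivity)).2 fun b => ?_) ?_
  · cases b
    · rw [e2]; gcongr; exact le_max_left _ _
    · rw [e1]; gcongr; exact le_max_right _ _
  · rw [KKC.sn, ← max_div_div_right (by positivity), ← e1, ← e2]
    exact max_le (dist_le_pi_dist _ _ _) (dist_le_pi_dist _ _ _)

theorem transfer_surj (c : ℂ) {r : ℝ} (hr : 0 < r) : Function.Surjective (transfer_N c r) := by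
  intro u
  refine ⟨c + ⟨r * (2 * u false - 1), r * (2 * u true - 1)⟩, funext fun b => ?_⟩
  cases b <;> simp only [transfer_N, add_sub_cancel_left, Bool.false_eq_true, if_false, if_true] <;>
    field_simp <;> ring

theorem transfer_mem (c : ℂ) {r : ℝ} (hr : 0 < r) (v : ℂ) :
    transfer_N c r v ∈ QQ ↔ KKC.sn (v - c) ≤ r := by
  have e : ∀ s : ℝ, (0 ≤ (s / r + 1) / 2 ∧ (s / r + 1) / 2 ≤ 1) ↔ |s| ≤ r := by
    intro s
    rw [abs_le, ← div_le_one hr, ← neg_one_mul, ← le_div_iff₀ hr]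
    constructor <;> rintro ⟨h1, h2⟩ <;> constructor <;> linarith
  rw [KKC.sn, max_le_iff, ← e, ← e]
  constructor
  · rintro ⟨h1, h2⟩
    exact ⟨⟨h1 false, h2 false⟩, h1 true, h2 true⟩
  · rintro ⟨⟨h1, h2⟩, h3, h4⟩
    exact ⟨fun b => by cases b; exacts [h1, h3], fun b => by cases b; exacts [h2, h4]⟩

/-- Rescale the outer square to the unit square. -/
theorem exists_sq (Q : KKC.PD Z J) : ∃ D : Sq Z {j // j ≠ Q.o}, ∀ j, D.P j = Q.P j := by
  have hr := Q.r_pos Q.o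
  set N := transfer_N (Q.c Q.o) (Q.r Q.o) with hN
  have hd := transfer_dist (Q.c Q.o) hr
  have hs := transfer_surj (Q.c Q.o) hr
  have hm := transfer_mem (Q.c Q.o) hr
  rw [← hN] at hd hs hm
  have hball : ∀ (j : {j // j ≠ Q.o}) v,
      N v ∈ ball (N (Q.c j)) (Q.r j / (2 * Q.r Q.o)) ↔ v ∈ Q.D j := by
    intro j v
    rw [mem_ball, hd, div_lt_div_iff_of_pos_right (by positivity), Q.D_in j j.2]
    rfl
  have hout : ∀ v, N v ∈ QQ ↔ v ∉ Q.D Q.o := by
    intro v
    rw [hm, Q.D_out, mem_ofPred_eq, not_lt]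
  have hNc : Continuous N := by
    refine continuous_pi fun b => ?_
    cases b <;> simp only [hN, transfer_N, Bool.false_eq_true, if_false, if_true] <;> fun_prop
  have hNi : Function.Injective N := by
    intro v w h
    have h1 := hd v w
    rw [h, dist_self, eq_comm, div_eq_zero_iff] at h1
    have h2 : KKC.sn (v - w) = 0 := h1.resolve_right (by positivity)
    have h3 : |(v - w).re| ≤ 0 := h2 ▸ le_max_left _ _
    have h4 : |(v - w).im| ≤ 0 := h2 ▸ le_max_right _ _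
    exact sub_eq_zero.1 (Complex.ext (abs_nonpos_iff.1 h3) (abs_nonpos_iff.1 h4))
  refine ⟨⟨N ∘ Q.ι, fun j => N (Q.c j), fun j => Q.r j / (2 * Q.r Q.o), hNc.comp Q.ι_cont,
    hNi.comp Q.ι_inj, fun j => div_pos (Q.r_pos j) (by positivity), fun i j hij => ?_,
    fun j u hu => ?_, ?_⟩, fun j => ?_⟩
  · refine Set.disjoint_left.2 fun u h1 h2 => ?_
    obtain ⟨v, rfl⟩ := hs u
    exact Set.disjoint_left.1 (Q.D_disj i j fun e => hij (Subtype.ext e)) ((hball i v).1 h1)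
      ((hball j v).1 h2)
  · obtain ⟨v, rfl⟩ := hs u
    exact (hout v).2 (Set.disjoint_left.1 (Q.D_disj j Q.o j.2) ((hball j v).1 hu))
  · ext u
    obtain ⟨v, rfl⟩ := hs u
    constructor
    · rintro ⟨z, hz⟩
      obtain rfl : Q.ι z = v := hNi hz
      refine ⟨(hout _).2 (Q.not_mem z _), fun h => ?_⟩
      obtain ⟨j, hj⟩ := mem_iUnion.1 h
      exact Q.not_mem z j ((hball j _).1 hj)
    · rintro ⟨h1, h2⟩
      rcases Q.cover v with ⟨z, rfl⟩ | ⟨j, hj⟩
      · exact ⟨z, rfl⟩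
      · by_cases hjo : j = Q.o
        · exact absurd (hjo ▸ hj) ((hout v).1 h1)
        · exact absurd (mem_iUnion.2 ⟨⟨j, hjo⟩, (hball ⟨j, hjo⟩ v).2 hj⟩) h2
  · ext z
    have h1 : z ∈ Q.P j ↔ Q.ι z ∈ Q.ι '' Q.P j := (Q.ι_inj.mem_set_image).symm
    rw [h1, Q.P_eq, mem_ofPred_eq, ← div_left_inj' (show 2 * Q.r Q.o ≠ 0 by positivity), ← hd]
    rfl

end KP2
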