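import Pool.Agent.Lib.MP_e1e491_gt.P2.Limit
import Pool.Agent.Lib.MP_e1e491_gt.P2.Transfer
import Pool.Agent.Lib.MP_e1e491_gt.P2.Eta
import Pool.Agent.Lib.MP_e1e491_gt.P2.Sphere

/-! Quasisymmetric embedding of a carpet of dimension less than two. -/

namespace KP2

open Set Metric
open scoped Classical

open scoped NNReal

theorem exists_wqs {S J : Type} [MetricSpace S] [CompactSpace S] {D : Sq S J} {C p : ℝ}
    (hG : Geo D C p) : ∃ f : S → S2, WQS f ∧ Function.Injective f := by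
  obtain ⟨g, M, hg, hn, hM⟩ := exists_sqs hG
  have hw : WQS g := wqs_of_small hG.pack hG.p_pos hG.one_le hG.llc1 hg
  obtain ⟨L, c, c', hc, hL⟩ := exists_lift M
  refine ⟨L ∘ g, hw.bilip hc fun x y => hL _ _ (hM x) (hM y), fun x y h => ?_⟩
  have h1 := (hL _ _ (hM x) (hM y)).1
  rw [show L (g x) = L (g y) from h, dist_self] at h1
  have h2 : dist (g x) (g y) ≤ 0 := by
    by_contra h3
    exact absurd h1 (not_le.2 (mul_pos hc (not_le.1 h3)))
  exact hw.injective hn (dist_le_zero.1 h2)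

theorem phase2 {Z J Y : Type} [MetricSpace Z] [CompactSpace Z] [MetricSpace Y] (Q : KKC.PD Z J)
    {C : ℝ} (hG : GeoP Q.P C) (F : Z ≃ₜ Y) {K α β C₁ p : ℝ} (hK : 0 < K) (hα : 0 < α)
    (hβ : 0 < β) (hp : 0 < p) (hp' : p < 2) (hP : Pack Y C₁ p)
    (hF : ∀ x y z : Z, z ≠ x → dist (F x) (F y) ≤
      K * ((dist x y / dist x z) ^ α + (dist x y / dist x z) ^ β) * dist (F x) (F z)) :
    ∃ (f : Z → sphere (0 : EuclideanSpace ℝ (Fin 3)) 1) (η : ℝ≥0 ≃ₜ ℝ≥0),
      Topology.IsEmbedding f ∧ KKC.IsQS η f ∧ ∀ x y z : Z, z ≠ x →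
        InnerProductGeometry.angle (f x).1 (f y).1 / InnerProductGeometry.angle (f x).1 (f z).1 ≤
          η (nndist x y / nndist x z) := by
  have : CompactSpace Y := F.compactSpace
  have hFw : WQS F := wqs_of_gauge hK hα hβ hF
  obtain ⟨D₀, hD₀⟩ := exists_sq Q
  obtain ⟨D, hD⟩ := D₀.exists_map F
  obtain ⟨C', hC'⟩ := (hG.restrict fun j => j ≠ Q.o).map F hFw
  have e : D.P = fun j : {j // j ≠ Q.o} => F '' Q.P j := funext fun j => by rw [hD, hD₀]
  have hGeo : Geo D (max C' C₁) p :=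
    ⟨e ▸ hC'.mono (le_max_left _ _), hp, hp', hP.mono (le_max_right _ _)⟩
  obtain ⟨g, hg, hi⟩ := exists_wqs hGeo
  have hw : WQS (g ∘ F) := hg.comp hFw
  have hinj : Function.Injective (g ∘ F) := hi.comp F.injective
  obtain ⟨η, hη⟩ := hw.exists_eta two_pos
  have hpos : ∀ x z, z ≠ x → 0 < dist ((g ∘ F) x) ((g ∘ F) z) := fun x z h =>
    dist_pos.2 fun e => h (hinj e).symm
  refine ⟨g ∘ F, η, (hw.continuous.isClosedEmbedding hinj).isEmbedding, fun x y z h => ?_,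
    fun x y z h => ?_⟩
  · rw [← NNReal.coe_le_coe, NNReal.coe_div, coe_nndist, coe_nndist, div_le_iff₀ (hpos x z h)]
    have := hη x y z h
    have h0 : 0 ≤ dist ((g ∘ F) x) ((g ∘ F) y) := dist_nonneg
    linarith
  · have h1 := (angle_le ((g ∘ F) x) ((g ∘ F) y)).2
    have h2 := (angle_le ((g ∘ F) x) ((g ∘ F) z)).1
    rw [div_le_iff₀ ((hpos x z h).trans_le h2)]
    exact h1.trans ((hη x y z h).trans (mul_le_mul_of_nonneg_left h2 (NNReal.coe_nonneg _)))

end KP2
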