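import Pool.Agent.Lib.MP_e1e491_gt.P2.Basic

/-! Elementary geometry of the square and its holes. -/

namespace KP2

open Set Metric
open scoped Classical

namespace Sq

variable {S J : Type} [MetricSpace S] (D : Sq S J)

theorem mem_QQ (x : S) : D.ι x ∈ QQ := by
  exact (D.range_eq ▸ mem_range_self x : D.ι x ∈ QQ \ ⋃ j, ball (D.c j) (D.a j)).1

theorem not_mem (x : S) (j : J) : D.ι x ∉ ball (D.c j) (D.a j) := by
  exact fun h => (D.range_eq ▸ mem_range_self x : D.ι x ∈ QQ \ ⋃ j, ball (D.c j) (D.a j)).2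
    (mem_iUnion.2 ⟨j, h⟩)

theorem cover {z : Pl} (hz : z ∈ QQ) : z ∈ range D.ι ∨ ∃ j, z ∈ ball (D.c j) (D.a j) := by
  rw [D.range_eq, or_iff_not_imp_right]
  exact fun h => ⟨hz, fun e => h (mem_iUnion.1 e)⟩

theorem closedBall_sub (j : J) : closedBall (D.c j) (D.a j) ⊆ QQ := by
  rw [← closure_ball _ (D.a_pos j).ne']
  exact closure_minimal (D.sub j) isClosed_Icc

theorem disj' {i j : J} (h : i ≠ j) :
    Disjoint (closedBall (D.c i) (D.a i)) (ball (D.c j) (D.a j)) := by
  rw [← closure_ball _ (D.a_pos i).ne']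
  exact (D.disj i j h).closure_left isOpen_ball

theorem sphere_sub (j : J) : sphere (D.c j) (D.a j) ⊆ range D.ι := by
  intro z hz
  refine (D.cover (D.closedBall_sub j (sphere_subset_closedBall hz))).resolve_right ?_
  rintro ⟨k, hk⟩
  by_cases e : j = k
  · subst e
    exact (mem_ball.1 hk).ne hz
  · exact disjoint_left.1 (D.disj' e) (sphere_subset_closedBall hz) hk

theorem isClosed_P (j : J) : IsClosed (D.P j) := by
  exact isClosed_sphere.preimage D.cont

theorem P_nonempty (j : J) : (D.P j).Nonempty := by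
  obtain ⟨z, hz⟩ := (NormedSpace.sphere_nonempty (x := D.c j)).2 (D.a_pos j).le
  obtain ⟨x, rfl⟩ := D.sphere_sub j hz
  exact ⟨x, hz⟩

/-- Polar coordinates in a hole. -/
theorem polar (j : J) {z : Pl} (hz : z ∈ closedBall (D.c j) (D.a j)) :
    ∃ q ∈ D.P j, ∃ τ ∈ Icc (0 : ℝ) 1, z = D.c j + τ • (D.ι q - D.c j) := by
  by_cases e : z = D.c j
  · obtain ⟨q, hq⟩ := D.P_nonempty j
    exact ⟨q, hq, 0, ⟨le_rfl, zero_le_one⟩, by rw [zero_smul, add_zero, e]⟩
  have h0 := D.a_pos j
  have h1 : 0 < ‖z - D.c j‖ := norm_pos_iff.2 (sub_ne_zero.2 e)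
  have h2 : D.c j + (D.a j / ‖z - D.c j‖) • (z - D.c j) ∈ sphere (D.c j) (D.a j) := by
    rw [mem_sphere_iff_norm, add_sub_cancel_left, norm_smul, Real.norm_of_nonneg (by positivity),
      div_mul_cancel₀ _ h1.ne']
  obtain ⟨q, hq⟩ := D.sphere_sub j h2
  refine ⟨q, show D.ι q ∈ sphere _ _ from hq ▸ h2, ‖z - D.c j‖ / D.a j,
    ⟨by positivity, (div_le_one h0).2 (mem_closedBall_iff_norm.1 hz)⟩, ?_⟩
  rw [hq, add_sub_cancel_left, smul_smul, div_mul_div_cancel₀ h0.ne', div_self h1.ne', one_smul,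
    add_sub_cancel]

/-- The segment from a point of a closed hole to a point of `S` crosses the boundary. -/
theorem exists_P_near (j : J) {z : Pl} (hz : z ∈ closedBall (D.c j) (D.a j)) (x : S) :
    ∃ q ∈ D.P j, dist (D.ι q) (D.ι x) ≤ dist z (D.ι x) := by
  obtain ⟨w, h1, h2⟩ := (convex_closedBall (D.ι x) (dist z (D.ι x))).isPreconnected.intermediate_value
    (f := fun w => dist w (D.c j)) (mem_closedBall.2 le_rfl) (mem_closedBall_self dist_nonneg)
    (by fun_prop) ⟨hz, not_lt.1 (D.not_mem x j)⟩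
  obtain ⟨q, rfl⟩ := D.sphere_sub j h2
  exact ⟨q, h2, h1⟩

/-- An open ball inside the square misses the sides. -/
theorem mem_range_of_side {z : Pl} (hz : z ∈ QQ) {i b : Bool} (h : z i = bv b) :
    z ∈ range D.ι := by
  refine (D.cover hz).resolve_right ?_
  rintro ⟨j, hj⟩
  obtain ⟨ε, h0, h1⟩ := Metric.isOpen_iff.1 isOpen_ball z hj
  have h2 : ∀ δ : ℝ, |δ| < ε → 0 ≤ z i + δ ∧ z i + δ ≤ 1 := fun δ hδ => by
    have h3 : (fun k => z k + δ) ∈ QQ := D.sub j (h1 ((dist_pi_lt_iff h0).2 fun k => by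
      rwa [Real.dist_eq, add_sub_cancel_left]))
    exact ⟨h3.1 i, h3.2 i⟩
  have h3 := (h2 (ε / 2) (by rw [abs_lt]; constructor <;> linarith)).2
  have h4 := (h2 (-(ε / 2)) (by rw [abs_lt]; constructor <;> linarith)).1
  cases b <;> simp only [bv, if_true, Bool.false_eq_true, if_false] at h <;> linarith

theorem exists_corner (b : Bool → Bool) : ∃ x, ∀ i, D.ι x i = bv (b i) := by
  have h : (fun i => bv (b i)) ∈ QQ := by
    constructor <;> intro i <;> cases h : b i <;> simp [bv, h]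
  obtain ⟨x, hx⟩ := D.mem_range_of_side h (i := false) rfl
  exact ⟨x, congrFun hx⟩

theorem sqb_gap [CompactSpace S] : ∃ d : ℝ, 0 < d ∧ ∀ (i : Bool) (x y : S),
    D.ι x i = bv false → D.ι y i = bv true → d ≤ dist x y := by
  obtain ⟨d, h0, h1⟩ := Metric.uniformContinuous_iff.1
    (CompactSpace.uniformContinuous_of_continuous D.cont) 1 one_pos
  refine ⟨d, h0, fun i x y hx hy => not_lt.1 fun h => ?_⟩
  have h2 := (dist_le_pi_dist (D.ι x) (D.ι y) i).trans_lt (h1 h)
  rw [hx, hy] at h2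
  simp [bv] at h2

/-- One of the two corners of a side is far from `x`. -/
theorem exists_far [CompactSpace S] : ∃ c : ℝ, 0 < c ∧ c ≤ 1 ∧ ∀ (i b : Bool) (x z : S),
    ∃ q, D.ι q i = bv b ∧ c * dist x z ≤ dist x q := by
  obtain ⟨d, h0, h1⟩ := D.sqb_gap
  obtain ⟨R, h2, h3⟩ := exists_diam S
  refine ⟨min 1 (d / (2 * R)), lt_min one_pos (by positivity), min_le_left _ _,
    fun i b x z => ?_⟩
  obtain ⟨q, hq⟩ := D.exists_corner fun k => if k = i then b else false
  obtain ⟨q', hq'⟩ := D.exists_corner fun k => if k = i then b else true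
  have h4 := h1 (!i) q q' (by rw [hq, if_neg (Bool.not_ne_self i)])
    (by rw [hq', if_neg (Bool.not_ne_self i)])
  have h5 : min 1 (d / (2 * R)) * dist x z ≤ d / 2 :=
    (mul_le_mul (min_le_right _ _) (h3 x z) dist_nonneg (by positivity)).trans_eq (by field_simp)
  have h6 := dist_triangle_left q q' x
  by_cases e : d / 2 ≤ dist x q
  · exact ⟨q, by rw [hq, if_pos rfl], h5.trans e⟩
  · exact ⟨q', by rw [hq', if_pos rfl], by linarith⟩

/-- Opposite sides are at positive distance. -/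
theorem exists_gap [CompactSpace S] : ∃ d : ℝ, 0 < d ∧ ∀ (i : Bool) (x y : S),
    D.ι x i = bv false → D.ι y i = bv true → d ≤ dist x y := by
  exact D.sqb_gap

variable {D}

theorem big_sep {C t : ℝ} (hG : GeoP D.P C) {i j : J} (hi : D.Big t i) (hj : D.Big t j)
    (h : i ≠ j) {x x' : S} (hx : x ∈ D.P i) (hx' : x' ∈ D.P j) : t < 2 * C * dist x x' := by
  rcases hG.sep i j h x hx x' hx' with e | e
  · obtain ⟨u, hu, v, hv, h1⟩ := hi
    linarith [dist_triangle_left u v x, e u hu, e v hv]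
  · obtain ⟨u, hu, v, hv, h1⟩ := hj
    linarith [dist_triangle_left u v x', e u hu, e v hv]

theorem big_finite [CompactSpace S] {C p r : ℝ} (hG : Geo D C p) (hr : 0 < r) :
    {j | D.Big r j}.Finite := by
  have h0 : 0 < C := one_pos.trans_le hG.one_le
  choose x hx using D.P_nonempty
  obtain ⟨t, -, h1, h2⟩ := finite_cover_balls_of_compact (isCompact_univ (X := S))
    (show 0 < r / (4 * C) by positivity)
  choose f h3 h4 using fun j => mem_iUnion₂.1 (h2 (mem_univ (x j)))
  refine Set.Finite.of_injOn (f := f) (fun j _ => h3 j) (fun i hi j hj e => ?_) h1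
  by_contra h
  have h5 := big_sep hG.toGeoP hi hj h (hx i) (hx j)
  have h6 := dist_triangle_right (x i) (x j) (f j)
  have h7 := mem_ball.1 (h4 i)
  have h8 := mem_ball.1 (h4 j)
  rw [e] at h7
  have h9 : 2 * C * (r / (4 * C) + r / (4 * C)) = r := by
    field_simp
    norm_num
  nlinarith

end Sq

end KP2
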