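import Pool.Agent.Lib.MP_e1e491_gt.P2.Loew
import Pool.Agent.Lib.MP_e1e491_gt.P2.Up
import Pool.Agent.Lib.MP_e1e491_gt.P2.Ht

/-! The discrete distortion estimate. -/

namespace KP2

open Set Metric
open scoped Classical

variable {S J : Type} [MetricSpace S] [CompactSpace S] {D : Sq S J}

theorem exists_lam (M K : ℝ) (hK : 0 < K) :
    ∃ Λ : ℝ, 1 ≤ Λ ∧ M * √(K * (Real.log Λ + 1)) < Real.log Λ := by
  have ha : 0 ≤ K * M ^ 2 := by positivity
  refine ⟨Real.exp (2 * (K * M ^ 2) + 1), Real.one_le_exp (by linarith), ?_⟩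
  rw [Real.log_exp]
  refine lt_of_pow_lt_pow_left₀ 2 (by linarith) ?_
  rw [mul_pow, Real.sq_sqrt (by positivity)]
  nlinarith

/-- A connected set through `z` that joins the left and the right side and stays away from `x`. -/
theorem exists_long {C : ℝ} (hG : GeoP D.P C) : ∃ c : ℝ, 0 < c ∧ ∀ x z : S, ∃ E : Set S,
    IsPreconnected E ∧ z ∈ E ∧ (∀ b, ∃ q ∈ E, D.ι q false = bv b) ∧
      ∀ w ∈ E, c * dist x z ≤ dist x w := by
  obtain ⟨c, hc, hc1, h⟩ := D.exists_far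
  have hC : 0 < C := zero_lt_one.trans_le hG.one_le
  refine ⟨c / C, by positivity, fun x z => ?_⟩
  choose q hq1 hq2 using fun b => h false b x z
  choose E h1 h2 h3 h4 using fun b => hG.llc2 x z (q b)
  have h5 : ∀ b, ∀ w ∈ E b, c / C * dist x z ≤ dist x w := fun b w hw => by
    rw [div_mul_eq_mul_div, div_le_iff₀ hC, mul_comm (dist x w)]
    exact le_trans (le_min (mul_le_of_le_one_left dist_nonneg hc1) (hq2 b)) (h4 b w hw)
  refine ⟨E false ∪ E true, (h1 false).union z (h2 false) (h2 true) (h1 true), Or.inl (h2 false),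
    fun b => ⟨q b, ?_, hq1 b⟩, fun w hw => hw.elim (h5 false w) (h5 true w)⟩
  cases b
  · exact Or.inl (h3 false)
  · exact Or.inr (h3 true)

theorem disc_ext {V : Type} {m : V → ℝ} (hm : ∀ v, 0 ≤ m v) {X : Bool → V → ℝ} {A : Set V}
    {a b : V} (ha : a ∈ A) (hb : b ∈ A) {t : ℝ}
    (h : ¬ (dist (fun i => X i a) (fun i => X i b) ≤ t ∧ m a ≤ t)) (ht : 0 ≤ t) :
    ∃ σ, t < σ ∧ ∀ ℓ ≤ σ, Ext m X A a ℓ := by
  by_cases h1 : m a ≤ t
  · have h2 : ¬ ∀ i, dist (X i a) (X i b) ≤ t := fun h2 => h ⟨(dist_pi_le_iff ht).2 h2, h1⟩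
    push Not at h2
    obtain ⟨i, hi⟩ := h2
    refine ⟨_, hi, fun ℓ hℓ => ⟨b, hb, i, ?_⟩⟩
    rw [Real.dist_eq, le_abs] at hℓ
    have h3 := hm b
    rcases hℓ with h4 | h4
    · exact Or.inr (by linarith)
    · exact Or.inl (by linarith)
  · exact ⟨m a, not_le.1 h1, fun ℓ hℓ => ⟨a, ha, false, Or.inl (by linarith)⟩⟩

theorem disc {C C' δ : ℝ} (hG : GeoP D.P C) (hC' : 1 ≤ C') (hδ : 0 < δ) : ∃ ε : ℝ, 0 < ε ∧
    ∀ x y z : S, x ≠ z → dist x y ≤ ε * dist x z → ∃ r₁ : ℝ, 0 < r₁ ∧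
      ∀ (V : Type) [Fintype V] (r : ℝ) (B : Bl D V C' r) (m : V → ℝ) (X : Bool → V → ℝ)
        (H : Bool → ℝ), Til B.G B.side m X H → 0 < r → r ≤ r₁ →
        dist (fun i => X i (B.β x)) (fun i => X i (B.β y)) ≤
          δ * dist (fun i => X i (B.β x)) (fun i => X i (B.β z)) ∧
        m (B.β x) ≤ δ * dist (fun i => X i (B.β x)) (fun i => X i (B.β z)) := by
  obtain ⟨K, hK, hψ⟩ := exists_psi (D := D) hC'
  obtain ⟨Kh, r₀, hKh, hr₀, hH⟩ := exists_ht (D := D) hC'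
  obtain ⟨c, hc, hlong⟩ := exists_long hG
  obtain ⟨Λ, hΛ, hlam⟩ := exists_lam (6 * (1 + 1 / δ + 2 * Kh * Kh)) K hK
  have hC : 0 < C := zero_lt_one.trans_le hG.one_le
  have hΛ0 : 0 < Λ := zero_lt_one.trans_le hΛ
  have hC0 : 0 < C' := zero_lt_one.trans_le hC'
  have hKh0 : 0 < Kh := zero_lt_one.trans_le hKh
  refine ⟨c / (4 * C * Λ), by positivity, fun x y z hxz hxy => ?_⟩
  have hd : 0 < dist x z := dist_pos.2 hxz
  obtain ⟨R, hR⟩ : ∃ R, R = c * dist x z / 2 := ⟨_, rfl⟩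
  have hR0 : 0 < R := by rw [hR]; positivity
  have hRΛ : R / Λ ≤ R := div_le_self hR0.le hΛ
  have hRΛ0 : 0 < R / Λ := by positivity
  refine ⟨min r₀ (R / Λ / (4 * C')), by positivity, fun V _ r B m X H T hr hr1 => ?_⟩
  by_contra hcon
  have hr2 : C' * r ≤ R / Λ / 4 := by
    have h1 := hr1.trans (min_le_right _ _)
    rw [le_div_iff₀ (by positivity)] at h1
    linarith
  have hH' := hH V r B m X H T hr (hr1.trans (min_le_left _ _))
  obtain ⟨ψ, W, hW, hjump, hzero, hlog, hsum⟩ := hψ V r B hr x (R / Λ) R hRΛ0 hRΛ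
  have e1 : R / (R / Λ) = Λ := by field_simp
  rw [e1] at hlog hsum
  obtain ⟨E₁, c1, x1, y1, d1⟩ := hG.llc1 x y
  obtain ⟨E₂, c2, z2, q2, d2⟩ := hlong x z
  obtain ⟨A₁, cn1, b1, n1⟩ := B.shadow E₁ c1
  obtain ⟨A₂, cn2, b2, n2⟩ := B.shadow E₂ c2
  obtain ⟨ρ, hρ⟩ : ∃ ρ, ρ = dist (fun i => X i (B.β x)) (fun i => X i (B.β z)) := ⟨_, rfl⟩
  have hρ0 : 0 ≤ ρ := hρ ▸ dist_nonneg
  have hρK : ρ ≤ Kh := by
    rw [hρ, dist_pi_le_iff hKh0.le]
    intro i
    have h1 := T.le_H i (B.β x)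
    have h2 := T.le_H i (B.β z)
    have h3 := T.X_nonneg i (B.β x)
    have h4 := T.X_nonneg i (B.β z)
    have h5 := T.m_nonneg (B.β x)
    have h6 := T.m_nonneg (B.β z)
    have h7 := (hH' i).1
    rw [Real.dist_eq, abs_le]
    constructor <;> linarith
  rw [← hρ] at hcon
  obtain ⟨σ, hσ, hext⟩ := disc_ext T.m_nonneg (b1 x x1) (b1 y y1) hcon (by positivity)
  have hσ0 : 0 < σ := lt_of_le_of_lt (by positivity) hσ
  obtain ⟨ℓ, hℓ⟩ : ∃ ℓ, ℓ = min σ (1 / (2 * Kh)) := ⟨_, rfl⟩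
  have hℓ0 : 0 < ℓ := by rw [hℓ]; positivity
  have hℓ1 : ℓ * (2 * Kh) ≤ 1 := by
    rw [← le_div_iff₀ (by positivity), hℓ]
    exact min_le_right _ _
  have hℓ2 : ℓ ≤ 1 / 2 := by nlinarith
  have hrat : (ρ + ℓ) / ℓ ≤ 1 + 1 / δ + 2 * Kh * Kh := by
    have h1 : 0 < 1 / δ := by positivity
    have h2 : 0 < 2 * Kh * Kh := by positivity
    rw [add_div, div_self hℓ0.ne']
    rcases min_choice σ (1 / (2 * Kh)) with e | e
    · have h3 : ρ / ℓ ≤ 1 / δ := by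
        rw [hℓ, e, div_le_div_iff₀ hσ0 hδ]
        linarith
      linarith
    · have h3 : ρ / ℓ ≤ 2 * Kh * Kh := by
        rw [hℓ, e, div_div_eq_mul_div, div_one, mul_comm]
        gcongr
      linarith
  obtain ⟨a, ha, b, hb, hab⟩ := T.loewner hW hjump cn1 cn2 (b1 x x1) (b2 z z2) hℓ0
    (fun i => by
      have h1 := (hH' i).2
      have h2 := T.H_pos i
      nlinarith)
    (hext ℓ (hℓ ▸ min_le_left _ _))
    (by
      obtain ⟨q0, m0, e0⟩ := q2 false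
      obtain ⟨q1, m1, e1⟩ := q2 true
      have h1 := T.zero false _ (B.side_β q0 false false e0)
      have h2 := T.one false _ (B.side_β q1 false true e1)
      rw [T.H_false] at h2
      by_cases h3 : X false (B.β z) + ℓ ≤ 1
      · exact ⟨_, b2 q1 m1, false, Or.inl (h3.trans h2)⟩
      · exact ⟨_, b2 q0 m0, false, Or.inr (by linarith)⟩)
    (ρ := ρ + ℓ) (fun i => by
      have h1 := dist_le_pi_dist (fun i => X i (B.β x)) (fun i => X i (B.β z)) i
      rw [Real.dist_eq, ← hρ] at h1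
      linarith)
  have ha0 : ψ a = 0 := by
    obtain ⟨w, hw, h1, h2⟩ := n1 a ha
    have h3 := d1 w hw
    have h4 := dist_triangle x w (B.l a)
    have h5 : C * dist x y ≤ R / Λ / 2 :=
      calc C * dist x y ≤ C * (c / (4 * C * Λ) * dist x z) := by gcongr
        _ = R / Λ / 2 := by rw [hR]; field_simp; norm_num
    exact hzero a (by linarith)
  have hb0 : ψ b = Real.log Λ := by
    obtain ⟨w, hw, h1, h2⟩ := n2 b hb
    have h3 := d2 w hw
    have h4 := dist_triangle_right x w (B.l b)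
    have h5 := B.le_s b
    exact hlog b (by linarith)
  rw [ha0, hb0, zero_sub, abs_neg] at hab
  refine absurd ((le_abs_self _).trans (hab.trans ?_)) hlam.not_ge
  gcongr

end KP2
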