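import Pool.Agent.Lib.MP_e1e491_gt.P2.Basic

/-! Integration over the lines. -/

namespace KP2

open Set Metric
open scoped Classical

variable {V : Type} [Fintype V] {m : V → ℝ} {X : Bool → V → ℝ} {i : Bool} {u u' c : ℝ} {f : V → ℝ}

/-- The length of the part of the interval of `v` inside `[u, u']`. -/
noncomputable def ov (m : V → ℝ) (X : Bool → V → ℝ) (i : Bool) (u u' : ℝ) (v : V) : ℝ :=
  max 0 (min u' (X i v + m v) - max u (X i v))

omit [Fintype V] in
theorem ov_nonneg (v : V) : 0 ≤ ov m X i u u' v := by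
  exact le_max_left _ _

omit [Fintype V] in
theorem ov_le (v : V) (hm : 0 ≤ m v) : ov m X i u u' v ≤ m v := by
  unfold ov
  refine max_le hm ?_
  have h1 := min_le_right u' (X i v + m v)
  have h2 := le_max_right u (X i v)
  linarith

omit [Fintype V] in
theorem ov_le' (v : V) (h : u ≤ u') : ov m X i u u' v ≤ u' - u := by
  unfold ov
  refine max_le (by linarith) ?_
  have h1 := min_le_left u' (X i v + m v)
  have h2 := le_max_left u (X i v)
  linarith

theorem int_fun_eq : (fun t => wt f (Vt m X i t)) =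
    fun t => ∑ v, (Ioo (X i v) (X i v + m v)).indicator (fun _ => f v) t := by
  funext t
  rw [wt_eq_sum]
  refine Finset.sum_congr rfl fun v _ => ?_
  by_cases hv : v ∈ Vt m X i t
  · rw [if_pos hv, indicator_of_mem (show t ∈ Ioo (X i v) (X i v + m v) from hv)]
  · rw [if_neg hv, indicator_of_notMem (show t ∉ Ioo (X i v) (X i v + m v) from hv)]

theorem int_integrable_ind (a b y u u' : ℝ) :
    IntervalIntegrable ((Ioo a b).indicator fun _ => y) MeasureTheory.volume u u' :=
  ⟨(intervalIntegrable_const (c := y) (a := u) (b := u')).1.indicator measurableSet_Ioo,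
    (intervalIntegrable_const (c := y) (a := u) (b := u')).2.indicator measurableSet_Ioo⟩

theorem int_integral_ind {a b y u u' : ℝ} (h : u ≤ u') :
    ∫ t in u..u', (Ioo a b).indicator (fun _ => y) t = y * max 0 (min u' b - max u a) := by
  rw [intervalIntegral.integral_of_le h, MeasureTheory.integral_Ioc_eq_integral_Ioo,
    MeasureTheory.setIntegral_indicator measurableSet_Ioo, MeasureTheory.setIntegral_const,
    Ioo_inter_Ioo, Real.volume_real_Ioo, smul_eq_mul, mul_comm, max_comm _ (0 : ℝ)]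

theorem int_ae_restrict {P : ℝ → Prop} {u u' : ℝ} (hP : ∀ᵐ t : ℝ, t ∈ Ioo u u' → P t) :
    ∀ᵐ t ∂(MeasureTheory.volume.restrict (Icc u u')), P t := by
  rw [← MeasureTheory.Measure.restrict_congr_set MeasureTheory.Ioo_ae_eq_Icc]
  exact (MeasureTheory.ae_restrict_iff' measurableSet_Ioo).2 hP

theorem intervalIntegrable_wt :
    IntervalIntegrable (fun t => wt f (Vt m X i t)) MeasureTheory.volume u u' := by
  rw [int_fun_eq]
  have h1 := IntervalIntegrable.sum (μ := MeasureTheory.volume) (a := u) (b := u') Finset.univ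
    (f := fun v : V => (Ioo (X i v) (X i v + m v)).indicator fun _ => f v)
    (fun v _ => int_integrable_ind _ _ _ _ _)
  have h2 : (∑ v : V, (Ioo (X i v) (X i v + m v)).indicator fun _ => f v) =
      fun t => ∑ v, (Ioo (X i v) (X i v + m v)).indicator (fun _ => f v) t := by
    funext t
    rw [Finset.sum_apply]
  rwa [h2] at h1

theorem integral_wt (h : u ≤ u') :
    ∫ t in u..u', wt f (Vt m X i t) = ∑ v, f v * ov m X i u u' v := by
  rw [int_fun_eq, intervalIntegral.integral_finsetSum
    (fun v _ => int_integrable_ind _ _ _ _ _)]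
  refine Finset.sum_congr rfl fun v _ => ?_
  rw [int_integral_ind h, ov]

theorem le_sum_ov (h : u ≤ u') (hc : ∀ᵐ t : ℝ, t ∈ Ioo u u' → c ≤ wt f (Vt m X i t)) :
    c * (u' - u) ≤ ∑ v, f v * ov m X i u u' v := by
  rw [← integral_wt h]
  have h1 : ∫ _t in u..u', c = c * (u' - u) := by
    rw [intervalIntegral.integral_const, smul_eq_mul, mul_comm]
  rw [← h1]
  exact intervalIntegral.integral_mono_ae_restrict h intervalIntegrable_const
    intervalIntegrable_wt (int_ae_restrict hc)

theorem sum_ov_le (h : u ≤ u') (hc : ∀ᵐ t : ℝ, t ∈ Ioo u u' → wt f (Vt m X i t) ≤ c) :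
    ∑ v, f v * ov m X i u u' v ≤ c * (u' - u) := by
  rw [← integral_wt h]
  have h1 : ∫ _t in u..u', c = c * (u' - u) := by
    rw [intervalIntegral.integral_const, smul_eq_mul, mul_comm]
  rw [← h1]
  exact intervalIntegral.integral_mono_ae_restrict h intervalIntegrable_wt
    intervalIntegrable_const (int_ae_restrict hc)

theorem ae_wt_eq (h : u ≤ u') (hc : ∀ᵐ t : ℝ, t ∈ Ioo u u' → c ≤ wt f (Vt m X i t))
    (hs : ∑ v, f v * ov m X i u u' v ≤ c * (u' - u)) :
    ∀ᵐ t : ℝ, t ∈ Ioo u u' → wt f (Vt m X i t) = c := by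
  have h0 := le_sum_ov h hc
  have hI : IntervalIntegrable (fun t => wt f (Vt m X i t) - c) MeasureTheory.volume u u' :=
    intervalIntegrable_wt.sub intervalIntegrable_const
  have h1 : ∫ t in u..u', (wt f (Vt m X i t) - c) = 0 := by
    rw [intervalIntegral.integral_sub intervalIntegrable_wt intervalIntegrable_const,
      integral_wt h, intervalIntegral.integral_const, smul_eq_mul]
    linarith
  have h2 : ∀ᵐ t ∂(MeasureTheory.volume.restrict (Ioc u u')), 0 ≤ wt f (Vt m X i t) - c := by
    have h3 := MeasureTheory.ae_restrict_of_ae_restrict_of_subset Ioc_subset_Icc_self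
      (int_ae_restrict hc)
    filter_upwards [h3] with t ht
    linarith
  have h4 := (intervalIntegral.integral_eq_zero_iff_of_le_of_nonneg_ae h h2 hI).1 h1
  have h5 := (MeasureTheory.ae_restrict_iff' measurableSet_Ioc).1 h4
  filter_upwards [h5] with t ht hm
  have h6 : wt f (Vt m X i t) - c = 0 := ht (Ioo_subset_Ioc_self hm)
  linarith

theorem exists_wt_le (h : u < u') {P : ℝ → Prop} (hP : ∀ᵐ t : ℝ, t ∈ Ioo u u' → P t) :
    ∃ t ∈ Ioo u u', P t ∧ wt f (Vt m X i t) * (u' - u) ≤ ∑ v, f v * ov m X i u u' v := by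
  by_contra hn
  push Not at hn
  have hd : 0 < u' - u := sub_pos.2 h
  set s := ∑ v, f v * ov m X i u u' v with hs
  have h1 : ∀ᵐ t : ℝ, t ∈ Ioo u u' → s / (u' - u) < wt f (Vt m X i t) := by
    filter_upwards [hP] with t ht hm
    rw [div_lt_iff₀ hd]
    exact hn t hm (ht hm)
  have h2 : ∀ᵐ t : ℝ, t ∈ Ioo u u' → s / (u' - u) ≤ wt f (Vt m X i t) := by
    filter_upwards [h1] with t ht hm using (ht hm).le
  have h3 := ae_wt_eq h.le h2 (by rw [div_mul_cancel₀ _ hd.ne'])
  have h4 : ∀ᵐ t : ℝ, t ∉ Ioo u u' := by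
    filter_upwards [h1, h3] with t h5 h6 hm
    exact (h5 hm).ne' (h6 hm)
  have h5 : MeasureTheory.volume (Ioo u u') = 0 := MeasureTheory.measure_eq_zero_iff_ae_notMem.2 h4
  rw [Real.volume_Ioo, ENNReal.ofReal_eq_zero] at h5
  linarith

theorem ae_ne (m : V → ℝ) (X : Bool → V → ℝ) :
    ∀ᵐ t : ℝ, ∀ j v, t ≠ X j v ∧ t ≠ X j v + m v := by
  refine MeasureTheory.ae_all_iff.2 fun j => MeasureTheory.ae_all_iff.2 fun v => ?_
  filter_upwards [MeasureTheory.Measure.ae_ne MeasureTheory.volume (X j v),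
    MeasureTheory.Measure.ae_ne MeasureTheory.volume (X j v + m v)] with t h1 h2
  exact ⟨h1, h2⟩

end KP2
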