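import Pool.Agent.Lib.MP_e1e491_gt.P2.SqB

/-! The shingles that fill a big hole. -/

namespace KP2

open Set Metric
open scoped Classical

variable {S J : Type} [MetricSpace S] [CompactSpace S] {D : Sq S J}

theorem shh_scale (D : Sq S J) {r : ℝ} (hr : 0 < r) {j : J} (hj : D.Big r j) :
    ∃ K : ℕ, D.Big (2 ^ K * r / 2) j ∧ ∀ x ∈ D.P j, ∀ y ∈ D.P j, dist x y ≤ 2 ^ K * r := by
  obtain ⟨R, -, hR⟩ := exists_diam S
  have hex : ∃ K : ℕ, ∀ x ∈ D.P j, ∀ y ∈ D.P j, dist x y ≤ 2 ^ K * r := by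
    obtain ⟨n, hn⟩ := pow_unbounded_of_one_lt (R / r) (show (1 : ℝ) < 2 by norm_num)
    refine ⟨n, fun x _ y _ => (hR x y).trans ?_⟩
    rw [div_lt_iff₀ hr] at hn
    exact hn.le
  refine ⟨Nat.find hex, ?_, Nat.find_spec hex⟩
  have h0 : Nat.find hex ≠ 0 := by
    intro h
    have h1 := Nat.find_spec hex
    rw [h] at h1
    obtain ⟨x, hx, y, hy, hxy⟩ := hj
    have := h1 x hx y hy
    rw [pow_zero, one_mul] at this
    linarith
  obtain ⟨K, hK⟩ := Nat.exists_eq_succ_of_ne_zero h0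
  have h2 := Nat.find_min hex (show K < Nat.find hex by omega)
  rw [hK]
  by_contra hb
  apply h2
  intro x hx y hy
  by_contra hc
  apply hb
  refine ⟨x, hx, y, hy, ?_⟩
  have : (2 : ℝ) ^ K.succ * r / 2 = 2 ^ K * r := by
    rw [Nat.succ_eq_add_one, pow_succ]
    ring
  rw [this]
  exact lt_of_not_ge hc

omit [CompactSpace S] in
theorem shh_dist (D : Sq S J) {j : J} {q : S} (hq : q ∈ D.P j) {τ : ℝ} (hτ : 0 ≤ τ) :
    dist (D.c j + τ • (D.ι q - D.c j)) (D.c j) = τ * D.a j := by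
  have h1 : ‖D.ι q - D.c j‖ = D.a j := by
    have : dist (D.ι q) (D.c j) = D.a j := hq
    rwa [dist_eq_norm] at this
  rw [dist_eq_norm, add_sub_cancel_left, norm_smul, h1, Real.norm_of_nonneg hτ]

theorem shh_level (K : ℕ) {τ : ℝ} (h0 : 0 ≤ τ) (h1 : τ ≤ 1) :
    ∃ k ≤ K, 1 - ((k : ℝ) + 1) / ((K : ℝ) + 1) ≤ τ ∧ τ ≤ 1 - (k : ℝ) / ((K : ℝ) + 1) := by
  have hK : (0 : ℝ) < (K : ℝ) + 1 := by positivity
  have ht : 0 ≤ (1 - τ) * ((K : ℝ) + 1) := mul_nonneg (by linarith) hK.le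
  have hf := Nat.floor_le ht
  have hl := Nat.lt_floor_add_one ((1 - τ) * ((K : ℝ) + 1))
  by_cases h : ⌊(1 - τ) * ((K : ℝ) + 1)⌋₊ ≤ K
  · refine ⟨_, h, ?_, ?_⟩
    · have := (le_div_iff₀ hK).2 hl.le
      linarith
    · have := (div_le_iff₀ hK).2 hf
      linarith
  · refine ⟨K, le_rfl, ?_, ?_⟩
    · rw [div_self hK.ne']
      linarith
    · have h2 : (K : ℝ) ≤ (⌊(1 - τ) * ((K : ℝ) + 1)⌋₊ : ℕ) := by
        exact_mod_cast (lt_of_not_ge h).le
      have := (div_le_iff₀ hK).2 (h2.trans hf)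
      linarith

theorem shh_nonneg {K k : ℕ} (h : k ≤ K) : 0 ≤ 1 - ((k : ℝ) + 1) / ((K : ℝ) + 1) := by
  have hK : (0 : ℝ) < (K : ℝ) + 1 := by positivity
  have h1 : (k : ℝ) ≤ K := by exact_mod_cast h
  have := (div_le_one hK).2 (show (k : ℝ) + 1 ≤ (K : ℝ) + 1 by linarith)
  linarith

/-- `U k p` is the set of the points `c + τ (ι q - c)` with `q` in the closure of the component of
`p` in `P j ∩ closedBall p (C 2^k r)` and `1 - (k+1)/(K+1) ≤ τ ≤ 1 - k/(K+1)`. -/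
theorem exists_hole {C r : ℝ} (hG : GeoP D.P C) (hr : 0 < r) {j : J} (hj : D.Big r j) :
    ∃ (K : ℕ) (N : ℕ → Finset S) (U : ℕ → S → Set Pl),
      D.Big (2 ^ K * r / 2) j ∧
      (∀ k, (N k : Set S) ⊆ D.P j ∧ Sepd (2 ^ k * r) (N k)) ∧
      (∀ k ≤ K, ∀ p ∈ N k, IsCompact (U k p) ∧ IsPreconnected (U k p) ∧
        U k p ⊆ closedBall (D.c j) (D.a j)) ∧
      (∀ z ∈ closedBall (D.c j) (D.a j), ∃ k ≤ K, ∃ p ∈ N k, z ∈ U k p) ∧
      (∀ k ≤ K, ∀ p ∈ N k, ∀ ξ, D.ι ξ ∈ U k p → k = 0 ∧ dist ξ p ≤ C * r) ∧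
      ∀ k ≤ K, ∀ k' ≤ K, ∀ p ∈ N k, ∀ p' ∈ N k', (U k p ∩ U k' p').Nonempty →
        k ≤ k' + 1 ∧ dist p p' ≤ 3 * C * (2 ^ k' * r) := by
  obtain ⟨K, hK1, hK2⟩ := shh_scale D hr hj
  have hC : 1 ≤ C := hG.one_le
  have hKp : (0 : ℝ) < (K : ℝ) + 1 := by positivity
  have ha := D.a_pos j
  choose N hN1 hN2 hN3 using fun k : ℕ =>
    exists_net (D.P j) (show (0 : ℝ) < 2 ^ k * r by positivity)
  obtain ⟨A, hA⟩ : ∃ A : ℕ → S → Set S, ∀ k p, A k p =
      closure (connectedComponentIn (D.P j ∩ closedBall p (C * (2 ^ k * r))) p) :=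
    ⟨_, fun _ _ => rfl⟩
  have hAs : ∀ k p, A k p ⊆ D.P j ∩ closedBall p (C * (2 ^ k * r)) := by
    intro k p
    rw [hA]
    exact closure_minimal (connectedComponentIn_subset _ _)
      ((D.isClosed_P j).inter isClosed_closedBall)
  obtain ⟨f, hf⟩ : ∃ f : S × ℝ → Pl, ∀ x, f x = D.c j + x.2 • (D.ι x.1 - D.c j) :=
    ⟨_, fun _ => rfl⟩
  have hfc : Continuous f := by
    have h1 : f = fun x => D.c j + x.2 • (D.ι x.1 - D.c j) := funext hf
    have h2 := D.cont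
    rw [h1]
    fun_prop
  obtain ⟨U, hU⟩ : ∃ U : ℕ → S → Set Pl, ∀ k p, U k p = f '' (A k p ×ˢ
      Icc (1 - ((k : ℝ) + 1) / ((K : ℝ) + 1)) (1 - (k : ℝ) / ((K : ℝ) + 1))) :=
    ⟨_, fun _ _ => rfl⟩
  have hUm : ∀ k p z, z ∈ U k p → ∃ q ∈ A k p, ∃ τ : ℝ,
      1 - ((k : ℝ) + 1) / ((K : ℝ) + 1) ≤ τ ∧ τ ≤ 1 - (k : ℝ) / ((K : ℝ) + 1) ∧
      z = D.c j + τ • (D.ι q - D.c j) := by
    intro k p z hz
    rw [hU] at hz
    obtain ⟨x, hx, rfl⟩ := hz
    exact ⟨x.1, hx.1, x.2, hx.2.1, hx.2.2, hf x⟩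
  have hk0 : ∀ k : ℕ, 0 ≤ (k : ℝ) / ((K : ℝ) + 1) := fun k => by positivity
  refine ⟨K, N, U, hK1, fun k => ⟨hN1 k, hN2 k⟩, ?_, ?_, ?_, ?_⟩
  · intro k hk p _
    refine ⟨?_, ?_, ?_⟩
    · rw [hU]
      refine IsCompact.image (IsCompact.prod ?_ isCompact_Icc) hfc
      rw [hA]
      exact isClosed_closure.isCompact
    · rw [hU]
      refine IsPreconnected.image (IsPreconnected.prod ?_ isPreconnected_Icc) _ hfc.continuousOn
      rw [hA]
      exact isPreconnected_connectedComponentIn.closure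
    · intro z hz
      obtain ⟨q, hq, τ, h1, h2, rfl⟩ := hUm k p z hz
      have h3 : 0 ≤ τ := (shh_nonneg hk).trans h1
      have h4 := hk0 k
      rw [mem_closedBall, shh_dist D (hAs k p hq).1 h3]
      nlinarith
  · intro z hz
    obtain ⟨q, hq, τ, hτ, rfl⟩ := D.polar j hz
    obtain ⟨k, hk, h1, h2⟩ := shh_level K hτ.1 hτ.2
    obtain ⟨p, hp, hpq⟩ := hN3 k q hq
    refine ⟨k, hk, p, hp, ?_⟩
    rw [hU]
    refine ⟨(q, τ), ⟨?_, h1, h2⟩, hf _⟩
    obtain ⟨E, hE1, hE2, hE3, hE4, hE5⟩ := hG.bt j p (hN1 k hp) q hq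
    show q ∈ A k p
    rw [hA]
    refine subset_closure (hE2.subset_connectedComponentIn hE3 ?_ hE4)
    intro w hw
    refine ⟨hE1 hw, ?_⟩
    rw [mem_closedBall, dist_comm]
    exact (hE5 w hw).trans (mul_le_mul_of_nonneg_left hpq.le (by linarith))
  · intro k hk p _ ξ hξ
    obtain ⟨q, hq, τ, h1, h2, h3⟩ := hUm k p _ hξ
    have h4 : 0 ≤ τ := (shh_nonneg hk).trans h1
    have h5 := D.not_mem ξ j
    rw [mem_ball, h3, shh_dist D (hAs k p hq).1 h4, not_lt] at h5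
    have h6 : 1 ≤ τ := by
      by_contra h
      have := mul_lt_mul_of_pos_right (lt_of_not_ge h) ha
      linarith
    have h7 := hk0 k
    have h8 : (k : ℝ) / ((K : ℝ) + 1) = 0 := by linarith
    have h9 : k = 0 := by
      rcases div_eq_zero_iff.1 h8 with h | h
      · exact_mod_cast h
      · exact absurd h hKp.ne'
    have h10 : τ = 1 := by linarith
    rw [h10, one_smul, add_sub_cancel] at h3
    have h11 : ξ = q := D.inj h3
    refine ⟨h9, ?_⟩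
    have h12 := (hAs k p hq).2
    rw [mem_closedBall, h9, pow_zero, one_mul] at h12
    rw [h11]
    exact h12
  · rintro k hk k' hk' p hp p' hp' ⟨z, hz, hz'⟩
    obtain ⟨q, hq, τ, h1, h2, h3⟩ := hUm k p z hz
    obtain ⟨q', hq', τ', h1', h2', h3'⟩ := hUm k' p' z hz'
    have h4 : 0 ≤ τ := (shh_nonneg hk).trans h1
    have h4' : 0 ≤ τ' := (shh_nonneg hk').trans h1'
    have h5 := shh_dist D (hAs k p hq).1 h4
    have h5' := shh_dist D (hAs k' p' hq').1 h4'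
    rw [← h3] at h5
    rw [← h3', h5] at h5'
    have h6 : τ = τ' := mul_right_cancel₀ ha.ne' h5'
    have h7 : k ≤ k' + 1 := by
      have h8 : (k : ℝ) / ((K : ℝ) + 1) ≤ ((k' : ℝ) + 1) / ((K : ℝ) + 1) := by linarith
      rw [div_le_div_iff_of_pos_right hKp] at h8
      exact_mod_cast h8
    refine ⟨h7, ?_⟩
    have hs : (0 : ℝ) < 2 ^ k' * r := by positivity
    rcases h4'.eq_or_lt with h8 | h8
    · have h9 : 1 ≤ ((k' : ℝ) + 1) / ((K : ℝ) + 1) := by linarith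
      rw [one_le_div hKp] at h9
      have h10 : K ≤ k' := by
        have : (K : ℝ) ≤ k' := by linarith
        exact_mod_cast this
      have h11 : k' = K := le_antisymm hk' h10
      have h12 := hK2 p (hN1 k hp) p' (hN1 k' hp')
      rw [← h11] at h12
      nlinarith
    · have h9 : D.ι q = D.ι q' := by
        rw [h3, h6] at h3'
        have h10 := smul_right_injective Pl h8.ne' (add_left_cancel h3')
        exact sub_left_injective h10
      have h10 : q = q' := D.inj h9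
      have h11 := (hAs k p hq).2
      have h12 := (hAs k' p' hq').2
      rw [mem_closedBall] at h11 h12
      rw [← h10] at h12
      have h13 : (2 : ℝ) ^ k ≤ 2 ^ (k' + 1) := pow_le_pow_right₀ (by norm_num) h7
      have h14 : C * (2 ^ k * r) ≤ C * (2 ^ (k' + 1) * r) :=
        mul_le_mul_of_nonneg_left (mul_le_mul_of_nonneg_right h13 hr.le) (by linarith)
      have h15 := dist_triangle_left p p' q
      have h16 : C * (2 ^ (k' + 1) * r) = 2 * (C * (2 ^ k' * r)) := by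
        rw [pow_succ]
        ring
      linarith

end KP2
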