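import Pool.Agent.Lib.MP_e1e491_gt.P2.ShS
import Pool.Agent.Lib.MP_e1e491_gt.P2.ShH

/-! Shingles exist at all scales. -/

namespace KP2

open Set Metric
open scoped Classical

variable {S J : Type} [MetricSpace S] [CompactSpace S] {D : Sq S J}

theorem sha_level {C p r t : ℝ} (hG : Geo D C p) (ht : 0 < t) (x : S)
    (N : J → ℕ → Finset S) (T : Finset (J × ℕ × S)) (k : ℕ)
    (hN : ∀ q ∈ T, (N q.1 q.2.1 : Set S) ⊆ D.P q.1 ∧ Sepd (2 ^ q.2.1 * r) (N q.1 q.2.1))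
    (hT : ∀ q ∈ T, q.2.2 ∈ N q.1 q.2.1 ∧ D.Big (t / 2) q.1 ∧ t ≤ 2 ^ q.2.1 * r ∧
      dist x q.2.2 ≤ t) (hk : ∀ q ∈ T, q.2.1 = k) : (T.card : ℝ) ≤ 16 * C ^ 3 := by
  have hC : 1 ≤ C := hG.one_le
  have hC0 : 0 < 4 * C := by linarith
  have hρ : 0 < t / (4 * C) := div_pos ht hC0
  have hρt : t / (4 * C) ≤ t := div_le_self ht.le (by linarith)
  have key : ∀ q ∈ T, ∀ q' ∈ T, q ≠ q' → t / (4 * C) ≤ dist q.2.2 q'.2.2 := by
    intro q hq q' hq' hne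
    obtain ⟨h1, h2, h3, -⟩ := hT q hq
    obtain ⟨h1', h2', -, -⟩ := hT q' hq'
    by_cases hj : q.1 = q'.1
    · have hkk : q.2.1 = q'.2.1 := (hk q hq).trans (hk q' hq').symm
      have hp : q.2.2 ≠ q'.2.2 := fun h => hne (Prod.ext hj (Prod.ext hkk h))
      have h4 : q'.2.2 ∈ N q.1 q.2.1 := by rw [hj, hkk]; exact h1'
      exact hρt.trans (h3.trans ((hN q hq).2 _ h1 _ h4 hp))
    · have h5 := Sq.big_sep hG.toGeoP h2 h2' hj ((hN q hq).1 h1) ((hN q' hq').1 h1')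
      rw [div_le_iff₀ hC0]
      linarith
  have hinj : Set.InjOn (fun q : J × ℕ × S => q.2.2) T := by
    intro q hq q' hq' h
    by_contra hne
    have h1 := key q hq q' hq' hne
    have h2 : q.2.2 = q'.2.2 := h
    rw [h2, dist_self] at h1
    exact absurd h1 (not_le.2 hρ)
  have hsep : Sepd (t / (4 * C)) (T.image fun q => q.2.2) := by
    intro y hy y' hy' hne
    obtain ⟨q, hq, rfl⟩ := Finset.mem_image.1 hy
    obtain ⟨q', hq', rfl⟩ := Finset.mem_image.1 hy'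
    exact key q hq q' hq' fun h => hne (by rw [h])
  have h := hG.pack _ t hρ hρt x _ hsep (by
    intro y hy
    obtain ⟨q, hq, rfl⟩ := Finset.mem_image.1 hy
    rw [dist_comm]
    exact (hT q hq).2.2.2)
  rw [Finset.card_image_of_injOn hinj] at h
  have e : t / (t / (4 * C)) = 4 * C := by field_simp
  rw [e] at h
  have h2 : (4 * C) ^ p ≤ (4 * C) ^ (2 : ℝ) :=
    Real.rpow_le_rpow_of_exponent_le (by linarith) hG.p_lt.le
  rw [Real.rpow_two] at h2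
  calc (T.card : ℝ) ≤ C * (4 * C) ^ p := h
    _ ≤ C * (4 * C) ^ 2 := mul_le_mul_of_nonneg_left h2 (by linarith)
    _ = 16 * C ^ 3 := by ring

/-- Counting the shingles of the holes with a given size near a point. -/
theorem count_hole {C p r t : ℝ} (hG : Geo D C p) (hr : 0 < r) (ht : 0 < t) (x : S)
    (N : J → ℕ → Finset S) (T : Finset (J × ℕ × S))
    (hN : ∀ q ∈ T, (N q.1 q.2.1 : Set S) ⊆ D.P q.1 ∧ Sepd (2 ^ q.2.1 * r) (N q.1 q.2.1))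
    (hT : ∀ q ∈ T, q.2.2 ∈ N q.1 q.2.1 ∧ D.Big (t / 2) q.1 ∧ t ≤ 2 ^ q.2.1 * r ∧
      2 ^ q.2.1 * r ≤ 2 * t ∧ dist x q.2.2 ≤ t) : (T.card : ℝ) ≤ 32 * C ^ 3 := by
  rcases T.eq_empty_or_nonempty with rfl | hne
  · have hC : 1 ≤ C := hG.one_le
    simp only [Finset.card_empty, Nat.cast_zero]
    positivity
  obtain ⟨q0, hq0, hmin⟩ := T.exists_min_image (fun q => q.2.1) hne
  have hlev : ∀ q ∈ T, ¬ q.2.1 = q0.2.1 → q.2.1 = q0.2.1 + 1 := by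
    intro q hq h
    have h1 := hmin q hq
    have h2 : (2 : ℝ) ^ q.2.1 * r ≤ 2 ^ (q0.2.1 + 1) * r := by
      have h3 := (hT q hq).2.2.2.1
      have h4 := (hT q0 hq0).2.2.1
      rw [pow_succ]
      linarith
    have h5 : (2 : ℝ) ^ q.2.1 ≤ 2 ^ (q0.2.1 + 1) := le_of_mul_le_mul_right h2 hr
    have h6 : q.2.1 ≤ q0.2.1 + 1 := (pow_le_pow_iff_right₀ (by norm_num : (1 : ℝ) < 2)).1 h5
    omega
  have hs := Finset.card_filter_add_card_filter_not (s := T) (fun q => q.2.1 = q0.2.1)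
  have ha := sha_level hG ht x N (T.filter fun q => q.2.1 = q0.2.1) q0.2.1
    (fun q hq => hN q (Finset.mem_filter.1 hq).1)
    (fun q hq => by
      obtain ⟨a, b, c, -, d⟩ := hT q (Finset.mem_filter.1 hq).1
      exact ⟨a, b, c, d⟩)
    (fun q hq => (Finset.mem_filter.1 hq).2)
  have hb := sha_level hG ht x N (T.filter fun q => ¬ q.2.1 = q0.2.1) (q0.2.1 + 1)
    (fun q hq => hN q (Finset.mem_filter.1 hq).1)
    (fun q hq => by
      obtain ⟨a, b, c, -, d⟩ := hT q (Finset.mem_filter.1 hq).1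
      exact ⟨a, b, c, d⟩)
    (fun q hq => hlev q (Finset.mem_filter.1 hq).1 (Finset.mem_filter.1 hq).2)
  rw [← hs]
  push_cast
  linarith

/-- A family indexed by a finite subset of an ambient type. -/
theorem sha_of_finset {Y : Type} {C r : ℝ} (F : Finset Y) (U : Y → Set Pl) (l : Y → S)
    (s : Y → ℝ) (h1 : ∀ i ∈ F, IsCompact (U i) ∧ IsPreconnected (U i) ∧ U i ⊆ QQ)
    (h2 : ∀ z ∈ QQ, ∃ i ∈ F, z ∈ U i) (h3 : ∀ i ∈ F, r ≤ s i ∧ s i ≤ C)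
    (h4 : ∀ i ∈ F, ∀ j ∈ F, (U i ∩ U j).Nonempty → s i ≤ C * s j ∧ dist (l i) (l j) ≤ C * s j)
    (h5 : ∀ (x : S) (t : ℝ), 0 < t → ∀ T : Finset Y,
      (∀ i ∈ T, i ∈ F ∧ t ≤ s i ∧ s i ≤ 2 * t ∧ dist x (l i) ≤ t) → (T.card : ℝ) ≤ C)
    (h6 : ∀ ξ, ∀ i ∈ F, D.ι ξ ∈ U i → s i ≤ C * r ∧ dist ξ (l i) ≤ C * r) :
    ∃ (I : Type) (_ : Fintype I), Nonempty (Sh D I C r) := by
  refine ⟨F, inferInstance, ⟨⟨fun i => U i, fun i => l i, fun i => s i, fun i => (h1 _ i.2).1,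
    fun i => (h1 _ i.2).2.1, fun i => (h1 _ i.2).2.2, ?_, fun i => (h3 _ i.2).1,
    fun i => (h3 _ i.2).2, fun i j => h4 _ i.2 _ j.2, ?_, fun ξ i => h6 ξ _ i.2⟩⟩⟩
  · intro z hz
    obtain ⟨i, hi, h⟩ := h2 z hz
    exact ⟨⟨i, hi⟩, h⟩
  · intro x t ht
    rw [← Finset.card_map (Function.Embedding.subtype fun i => i ∈ F)]
    refine h5 x t ht _ ?_
    intro i hi
    obtain ⟨i', hi', rfl⟩ := Finset.mem_map.1 hi
    exact ⟨i'.2, (Finset.mem_filter.1 hi').2⟩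

omit [CompactSpace S] in
theorem sha_range {j : J} {z : Pl} (h : z ∈ closedBall (D.c j) (D.a j))
    (h' : z ∉ ball (D.c j) (D.a j)) : ∃ y, D.ι y = z :=
  D.sphere_sub j (le_antisymm h (not_lt.1 h'))

theorem exists_sh {C p : ℝ} (hG : Geo D C p) : ∃ C' : ℝ, 1 ≤ C' ∧ ∀ r : ℝ, 0 < r → r ≤ 1 →
    ∃ (I : Type) (_ : Fintype I), Nonempty (Sh D I C' r) := by
  obtain ⟨R, hR1, hR⟩ := exists_diam S
  have hC : 1 ≤ C := hG.one_le
  have hC3 : 0 ≤ 32 * C ^ 3 := by positivity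
  obtain ⟨C', hC'⟩ : ∃ C' : ℝ, C' = 4 * C + 2 * R + 32 * C ^ 3 := ⟨_, rfl⟩
  have h4C : 4 * C ≤ C' := by linarith
  have h2R : 2 * R ≤ C' := by linarith
  have hcnt : C + 32 * C ^ 3 ≤ C' := by linarith
  refine ⟨C', by linarith, fun r hr hr1 => ?_⟩
  have hm : ∀ {a u : ℝ}, a ≤ C' → 0 ≤ u → a * u ≤ C' * u :=
    fun h hu => mul_le_mul_of_nonneg_right h hu
  have hrr : r ≤ C' * r := by
    have := hm (a := 1) (u := r) (by linarith) hr.le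
    linarith
  have hCr : 4 * C * r ≤ C' * r := hm h4C hr.le
  have hCr0 : 0 ≤ C * r := by positivity
  obtain ⟨N0, -, hsep0, hnet0⟩ := exists_net (univ : Set S) hr
  obtain ⟨U0, u1, u2, u3, u4, u5, u6⟩ := exists_spart (D := D) hG.toGeoP hr
  have hex : ∀ j, ∃ (K : ℕ) (N : ℕ → Finset S) (U : ℕ → S → Set Pl), D.Big r j →
      D.Big (2 ^ K * r / 2) j ∧
      (∀ k, (N k : Set S) ⊆ D.P j ∧ Sepd (2 ^ k * r) (N k)) ∧
      (∀ k ≤ K, ∀ p ∈ N k, IsCompact (U k p) ∧ IsPreconnected (U k p) ∧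
        U k p ⊆ closedBall (D.c j) (D.a j)) ∧
      (∀ z ∈ closedBall (D.c j) (D.a j), ∃ k ≤ K, ∃ p ∈ N k, z ∈ U k p) ∧
      (∀ k ≤ K, ∀ p ∈ N k, ∀ ξ, D.ι ξ ∈ U k p → k = 0 ∧ dist ξ p ≤ C * r) ∧
      ∀ k ≤ K, ∀ k' ≤ K, ∀ p ∈ N k, ∀ p' ∈ N k', (U k p ∩ U k' p').Nonempty →
        k ≤ k' + 1 ∧ dist p p' ≤ 3 * C * (2 ^ k' * r) := by
    intro j
    by_cases hj : D.Big r j
    · obtain ⟨K, N, U, h⟩ := exists_hole hG.toGeoP hr hj
      exact ⟨K, N, U, fun _ => h⟩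
    · exact ⟨0, fun _ => ∅, fun _ _ => ∅, fun h => absurd h hj⟩
  choose K N U hH using hex
  obtain ⟨T0, hT0⟩ : ∃ T0 : Finset (J × ℕ × S), ∀ q, q ∈ T0 ↔
      D.Big r q.1 ∧ q.2.1 ≤ K q.1 ∧ q.2.2 ∈ N q.1 q.2.1 := by
    refine ⟨(Sq.big_finite hG hr).toFinset.biUnion fun j => (Finset.range (K j + 1)).biUnion
      fun k => (N j k).image fun y => (j, k, y), ?_⟩
    rintro ⟨j, k, y⟩
    simp only [Finset.mem_biUnion, Set.Finite.mem_toFinset, Set.mem_ofPred_eq, Finset.mem_range,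
      Finset.mem_image, Prod.mk.injEq]
    constructor
    · rintro ⟨j', hj', k', hk', y', hy', rfl, rfl, rfl⟩
      exact ⟨hj', by omega, hy'⟩
    · rintro ⟨hj, hk, hy⟩
      exact ⟨j, hj, k, by omega, y, hy, rfl, rfl, rfl⟩
  have hpow : ∀ q ∈ T0, (2 : ℝ) ^ q.2.1 * r ≤ 2 ^ K q.1 * r := fun q hq =>
    mul_le_mul_of_nonneg_right (pow_le_pow_right₀ (by norm_num) ((hT0 q).1 hq).2.1) hr.le
  have hc3 : ∀ q ∈ T0, ∀ y, D.ι y ∈ U q.1 q.2.1 q.2.2 → q.2.1 = 0 ∧ dist y q.2.2 ≤ C * r := by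
    intro q hq y hy
    obtain ⟨a, b, c⟩ := (hT0 q).1 hq
    exact (hH _ a).2.2.2.2.1 _ b _ c y hy
  have hcb : ∀ q ∈ T0, U q.1 q.2.1 q.2.2 ⊆ closedBall (D.c q.1) (D.a q.1) := by
    intro q hq
    obtain ⟨a, b, c⟩ := (hT0 q).1 hq
    exact ((hH _ a).2.2.1 _ b _ c).2.2
  have hmix : ∀ ξ, ∀ q ∈ T0, ∀ z, z ∈ U0 ξ → z ∈ U q.1 q.2.1 q.2.2 →
      q.2.1 = 0 ∧ dist ξ q.2.2 ≤ 3 * C * r := by
    intro ξ q hq z hz hz'
    obtain ⟨y, rfl⟩ := sha_range (hcb q hq hz')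
      (Set.disjoint_left.1 (u5 ξ q.1 ((hT0 q).1 hq).1) hz)
    obtain ⟨a, b⟩ := hc3 q hq y hz'
    have h1 := u4 ξ y hz
    have h2 := dist_triangle_left ξ q.2.2 y
    exact ⟨a, by linarith⟩
  refine sha_of_finset (N0.disjSum T0) (Sum.elim U0 fun q => U q.1 q.2.1 q.2.2)
    (Sum.elim id fun q => q.2.2) (Sum.elim (fun _ => r) fun q => 2 ^ q.2.1 * r) ?_ ?_ ?_ ?_ ?_ ?_
  · rintro (ξ | q) hi
    · exact u1 ξ
    · have hq : q ∈ T0 := Finset.inr_mem_disjSum.1 hi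
      obtain ⟨a, b, c⟩ := (hT0 q).1 hq
      obtain ⟨d, e, f⟩ := (hH _ a).2.2.1 _ b _ c
      exact ⟨d, e, f.trans (D.closedBall_sub _)⟩
  · intro z hz
    rcases D.cover hz with ⟨x, rfl⟩ | ⟨j, hj⟩
    · obtain ⟨ξ, hξ, hd⟩ := hnet0 x (mem_univ x)
      exact ⟨Sum.inl ξ, Finset.inl_mem_disjSum.2 hξ, u2 ξ x hd.le⟩
    · by_cases hb : D.Big r j
      · obtain ⟨k, hk, y, hy, h⟩ := (hH j hb).2.2.2.1 z (ball_subset_closedBall hj)
        exact ⟨Sum.inr (j, k, y), Finset.inr_mem_disjSum.2 ((hT0 _).2 ⟨hb, hk, hy⟩), h⟩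
      · obtain ⟨x, hx⟩ := D.P_nonempty j
        obtain ⟨ξ, hξ, hd⟩ := hnet0 x (mem_univ x)
        exact ⟨Sum.inl ξ, Finset.inl_mem_disjSum.2 hξ,
          u3 ξ x j hd.le hx hb (ball_subset_closedBall hj)⟩
  · rintro (ξ | q) hi
    · exact ⟨le_refl r, show r ≤ C' by linarith⟩
    · have hq : q ∈ T0 := Finset.inr_mem_disjSum.1 hi
      obtain ⟨x, -, y, -, hxy⟩ := (hH _ ((hT0 q).1 hq).1).1
      have h1 := hpow q hq
      have h2 := hR x y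
      have h3 : (1 : ℝ) * r ≤ 2 ^ q.2.1 * r :=
        mul_le_mul_of_nonneg_right (one_le_pow₀ (by norm_num)) hr.le
      exact ⟨show r ≤ 2 ^ q.2.1 * r by linarith, show 2 ^ q.2.1 * r ≤ C' by linarith⟩
  · rintro (ξ | q) hi (ξ' | q') hi' ⟨z, hz, hz'⟩
    · exact ⟨hrr, (u6 ξ ξ' ⟨z, hz, hz'⟩).trans hCr⟩
    · obtain ⟨a, b⟩ := hmix ξ q' (Finset.inr_mem_disjSum.1 hi') z hz hz'
      show r ≤ C' * (2 ^ q'.2.1 * r) ∧ dist ξ q'.2.2 ≤ C' * (2 ^ q'.2.1 * r)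
      rw [a, pow_zero, one_mul]
      exact ⟨hrr, by linarith⟩
    · obtain ⟨a, b⟩ := hmix ξ' q (Finset.inr_mem_disjSum.1 hi) z hz' hz
      show 2 ^ q.2.1 * r ≤ C' * r ∧ dist q.2.2 ξ' ≤ C' * r
      rw [a, pow_zero, one_mul, dist_comm]
      exact ⟨hrr, by linarith⟩
    · have hq : q ∈ T0 := Finset.inr_mem_disjSum.1 hi
      have hq' : q' ∈ T0 := Finset.inr_mem_disjSum.1 hi'
      show 2 ^ q.2.1 * r ≤ C' * (2 ^ q'.2.1 * r) ∧ dist q.2.2 q'.2.2 ≤ C' * (2 ^ q'.2.1 * r)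
      by_cases hj : q.1 = q'.1
      · obtain ⟨j, k, y⟩ := q
        obtain ⟨j', k', y'⟩ := q'
        obtain rfl : j = j' := hj
        obtain ⟨a, b, c⟩ := (hT0 _).1 hq
        obtain ⟨-, b', c'⟩ := (hT0 _).1 hq'
        obtain ⟨d, e⟩ := (hH _ a).2.2.2.2.2 _ b _ b' _ c _ c' ⟨z, hz, hz'⟩
        have h0 : (0 : ℝ) ≤ 2 ^ k' * r := by positivity
        have h1 : (2 : ℝ) ^ k * r ≤ 2 ^ (k' + 1) * r :=
          mul_le_mul_of_nonneg_right (pow_le_pow_right₀ (by norm_num) d) hr.le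
        have h2 := hm (a := 2) (by linarith) h0
        have h3 := hm (a := 3 * C) (by linarith) h0
        rw [pow_succ] at h1
        exact ⟨show (2 : ℝ) ^ k * r ≤ C' * (2 ^ k' * r) by linarith, e.trans h3⟩
      · obtain ⟨y, rfl⟩ := sha_range (hcb q' hq' hz')
          (Set.disjoint_left.1 (D.disj' hj) (hcb q hq hz))
        obtain ⟨a, b⟩ := hc3 q hq y hz
        obtain ⟨a', b'⟩ := hc3 q' hq' y hz'
        have h2 := dist_triangle_left q.2.2 q'.2.2 y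
        rw [a, a', pow_zero, one_mul]
        exact ⟨hrr, by linarith⟩
  · intro x t ht T hT
    have h1 : (T.toLeft.card : ℝ) ≤ C := by
      have h := hG.pack r r hr le_rfl x T.toLeft (fun y hy y' hy' hne =>
        hsep0 y (Finset.inl_mem_disjSum.1 (hT _ (Finset.mem_toLeft.1 hy)).1) y'
          (Finset.inl_mem_disjSum.1 (hT _ (Finset.mem_toLeft.1 hy')).1) hne) (by
        intro y hy
        obtain ⟨-, a, -, b⟩ := hT _ (Finset.mem_toLeft.1 hy)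
        rw [dist_comm]
        exact le_trans b a)
      rwa [div_self hr.ne', Real.one_rpow, mul_one] at h
    have h2 : (T.toRight.card : ℝ) ≤ 32 * C ^ 3 := by
      refine count_hole hG hr ht x N T.toRight ?_ ?_
      · intro q hq
        have hq0 := Finset.inr_mem_disjSum.1 (hT _ (Finset.mem_toRight.1 hq)).1
        exact (hH _ ((hT0 q).1 hq0).1).2.1 _
      · intro q hq
        obtain ⟨hq0, a, b, c⟩ := hT _ (Finset.mem_toRight.1 hq)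
        have hq0 := Finset.inr_mem_disjSum.1 hq0
        obtain ⟨u, hu, v, hv, huv⟩ := (hH _ ((hT0 q).1 hq0).1).1
        have h3 := hpow q hq0
        have a' : t ≤ 2 ^ q.2.1 * r := a
        exact ⟨((hT0 q).1 hq0).2.2, ⟨u, hu, v, hv, by linarith⟩, a, b, c⟩
    rw [← Finset.card_toLeft_add_card_toRight (u := T)]
    push_cast
    linarith
  · rintro ξ (ξ' | q) hi h
    · have h1 := u4 ξ' ξ h
      exact ⟨hrr, show dist ξ ξ' ≤ C' * r by linarith⟩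
    · obtain ⟨a, b⟩ := hc3 q (Finset.inr_mem_disjSum.1 hi) ξ h
      show 2 ^ q.2.1 * r ≤ C' * r ∧ dist ξ q.2.2 ≤ C' * r
      rw [a, pow_zero, one_mul]
      exact ⟨hrr, by linarith⟩

end KP2
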