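import Pool.Agent.Lib.MP_e1e491_gt.P2.SqB

/-! The shingles along the carpet. -/

namespace KP2

open Set Metric
open scoped Classical

variable {S J : Type} [MetricSpace S] [CompactSpace S] {D : Sq S J}

/-- `U ξ` is the closure of the image of the component of `ξ` in `closedBall ξ (C r)` together with
the closed holes that are not big and meet this component. -/
theorem exists_spart {C r : ℝ} (hG : GeoP D.P C) (hr : 0 < r) : ∃ U : S → Set Pl,
    (∀ ξ, IsCompact (U ξ) ∧ IsPreconnected (U ξ) ∧ U ξ ⊆ QQ) ∧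
    (∀ ξ x, dist ξ x ≤ r → D.ι x ∈ U ξ) ∧
    (∀ ξ x j, dist ξ x ≤ r → x ∈ D.P j → ¬ D.Big r j → closedBall (D.c j) (D.a j) ⊆ U ξ) ∧
    (∀ ξ x, D.ι x ∈ U ξ → dist x ξ ≤ 2 * C * r) ∧
    (∀ ξ j, D.Big r j → Disjoint (U ξ) (ball (D.c j) (D.a j))) ∧
    ∀ ξ ξ', (U ξ ∩ U ξ').Nonempty → dist ξ ξ' ≤ 4 * C * r := by
  have hC := hG.one_le
  have hCr : 0 ≤ C * r := by positivity
  set A : S → Set S := fun ξ => connectedComponentIn (closedBall ξ (C * r)) ξ with hA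
  have hA1 : ∀ ξ, ∀ q ∈ A ξ, dist q ξ ≤ C * r := fun ξ q hq =>
    mem_closedBall.1 (connectedComponentIn_subset _ _ hq)
  have hA2 : ∀ ξ x, dist ξ x ≤ r → x ∈ A ξ := by
    intro ξ x hx
    obtain ⟨E, hE, h1, h2, h3⟩ := hG.llc1 ξ x
    refine hE.subset_connectedComponentIn h1 (fun w hw => mem_closedBall'.2 ?_) h2
    exact (h3 w hw).trans (mul_le_mul_of_nonneg_left hx (by linarith))
  set U : S → Set Pl := fun ξ => {z | z ∈ D.ι '' A ξ ∨
    ∃ j, ¬ D.Big r j ∧ (D.P j ∩ A ξ).Nonempty ∧ z ∈ closedBall (D.c j) (D.a j)} with hU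
  have hsm : ∀ j, ¬ D.Big r j → ∀ x ∈ D.P j, ∀ y ∈ D.P j, dist x y ≤ r := fun j hj x hx y hy =>
    not_lt.1 fun h => hj ⟨x, hx, y, hy, h⟩
  have hQ : ∀ ξ, closure (U ξ) ⊆ QQ := by
    intro ξ
    refine closure_minimal ?_ isClosed_Icc
    rintro z (⟨x, -, rfl⟩ | ⟨j, -, -, hz⟩)
    · exact D.mem_QQ x
    · exact D.closedBall_sub j hz
  have h4 : ∀ ξ x, D.ι x ∈ closure (U ξ) → dist x ξ ≤ 2 * C * r := by
    intro ξ x hx
    have hcl : IsClosed (D.ι '' closedBall ξ (2 * C * r)) :=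
      (isClosed_closedBall.isCompact.image D.cont).isClosed
    have h1 : D.ι x ∈ closure (D.ι '' closedBall ξ (2 * C * r)) := by
      rw [Metric.mem_closure_iff] at hx ⊢
      intro ε hε
      obtain ⟨z, hz, hzx⟩ := hx ε hε
      rcases hz with ⟨q, hq, rfl⟩ | ⟨j, hj, ⟨q, hq1, hq2⟩, hz⟩
      · exact ⟨_, ⟨q, mem_closedBall.2 ((hA1 ξ q hq).trans (by nlinarith)), rfl⟩, hzx⟩
      · obtain ⟨q', hq', hd⟩ := D.exists_P_near j hz x
        refine ⟨_, ⟨q', mem_closedBall.2 ?_, rfl⟩, ?_⟩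
        · have := dist_triangle q' q ξ
          have := hsm j hj q' hq' q hq1
          have := hA1 ξ q hq2
          nlinarith
        · rw [dist_comm] at hzx ⊢
          exact hd.trans_lt hzx
    rw [hcl.closure_eq] at h1
    obtain ⟨y, hy, e⟩ := h1
    rw [← D.inj e]
    exact mem_closedBall.1 hy
  have h5 : ∀ ξ j z, z ∈ closure (U ξ) → z ∈ ball (D.c j) (D.a j) →
      ¬ D.Big r j ∧ (D.P j ∩ A ξ).Nonempty := by
    intro ξ j z hz hz'
    obtain ⟨w, hw1, hw2⟩ := mem_closure_iff.1 hz _ isOpen_ball hz'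
    rcases hw2 with ⟨q, -, rfl⟩ | ⟨i, hi, hi', hw⟩
    · exact absurd hw1 (D.not_mem q j)
    · by_cases hij : i = j
      · exact hij ▸ ⟨hi, hi'⟩
      · exact absurd hw1 (disjoint_left.1 (D.disj' hij) hw)
  refine ⟨fun ξ => closure (U ξ), fun ξ => ⟨isCompact_Icc.of_isClosed_subset isClosed_closure (hQ ξ),
    IsPreconnected.closure ?_, hQ ξ⟩, fun ξ x hx => subset_closure (Or.inl ⟨x, hA2 ξ x hx, rfl⟩),
    fun ξ x j hx hxj hj z hz => subset_closure (Or.inr ⟨j, hj, ⟨x, hxj, hA2 ξ x hx⟩, hz⟩), h4,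
    fun ξ j hj => disjoint_left.2 fun z hz hz' => (h5 ξ j z hz hz').1 hj, ?_⟩
  · have hA3 : IsPreconnected (D.ι '' A ξ) :=
      isPreconnected_connectedComponentIn.image _ D.cont.continuousOn
    have hA4 : D.ι ξ ∈ D.ι '' A ξ := ⟨ξ, hA2 ξ ξ (by simpa using hr.le), rfl⟩
    refine isPreconnected_of_forall (D.ι ξ) ?_
    rintro z (hz | ⟨j, hj, ⟨q, hq1, hq2⟩, hz⟩)
    · exact ⟨_, fun w hw => Or.inl hw, hA4, hz, hA3⟩
    · refine ⟨D.ι '' A ξ ∪ closedBall (D.c j) (D.a j), ?_, Or.inl hA4, Or.inr hz,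
        hA3.union (D.ι q) ⟨q, hq2, rfl⟩ (sphere_subset_closedBall hq1)
          (convex_closedBall _ _).isPreconnected⟩
      rintro w (hw | hw)
      · exact Or.inl hw
      · exact Or.inr ⟨j, hj, ⟨q, hq1, hq2⟩, hw⟩
  · rintro ξ ξ' ⟨z, hz, hz'⟩
    rcases D.cover (hQ ξ hz) with ⟨x, rfl⟩ | ⟨j, hj⟩
    · have := dist_triangle_left ξ ξ' x
      have := h4 ξ x hz
      have := h4 ξ' x hz'
      linarith
    · obtain ⟨hb, q, hq1, hq2⟩ := h5 ξ j z hz hj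
      obtain ⟨-, q', hq1', hq2'⟩ := h5 ξ' j z hz' hj
      have := hsm j hb q hq1 q' hq1'
      have := hA1 ξ q hq2
      have := hA1 ξ' q' hq2'
      have := dist_triangle_left ξ ξ' q
      have := dist_triangle q q' ξ'
      nlinarith

end KP2
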