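import Pool.Agent.Lib.MP_e1e491_gt.P2.Basic

/-! Extremal weights. -/

namespace KP2

open Set Metric
open scoped Classical

variable {V : Type} [Fintype V] {G : SimpleGraph V} {side : Bool → Bool → Set V}

theorem tila_le_wt {m : V → ℝ} (hm : ∀ v, 0 ≤ m v) {W : Set V} {a : V} (ha : a ∈ W) :
    m a ≤ wt m W :=
  Finset.single_le_sum (fun v _ => hm v) (Finset.mem_filter.2 ⟨Finset.mem_univ a, ha⟩)

theorem tila_wt_le {m : V → ℝ} (hm : ∀ v, 0 ≤ m v) (W : Set V) (v : V) :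
    wt m W ≤ wt m (W \ {v}) + m v := by
  have h1 : m v = ∑ u, if u = v then m u else 0 := by simp
  rw [wt_eq_sum, wt_eq_sum, h1, ← Finset.sum_add_distrib]
  refine Finset.sum_le_sum fun u _ => ?_
  have := hm u
  by_cases h2 : u = v <;> by_cases h3 : u ∈ W <;> simp_all

/-- Minimise the sum of squares; perturb along a lightest crossing in the other direction. -/
theorem exists_weights (hc : HC G side) : ∃ (m : V → ℝ) (h : ℝ), (∀ v, 0 ≤ m v) ∧
    (∀ W, Cr G side false W → 1 ≤ wt m W) ∧ (∀ W, Cr G side true W → h ≤ wt m W) ∧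
    ∑ v, m v ^ 2 ≤ h := by
  have hcl : IsClosed {m : V → ℝ | ∀ W, Cr G side false W → 1 ≤ wt m W} := by
    simp only [ofPred_forall]
    refine isClosed_iInter fun W => isClosed_iInter fun _ => isClosed_le continuous_const ?_
    exact continuous_finsetSum _ fun v _ => continuous_apply v
  have hone : (1 : V → ℝ) ∈ Icc (0 : V → ℝ) 1 ∩ {m | ∀ W, Cr G side false W → 1 ≤ wt m W} := by
    refine ⟨⟨zero_le_one, le_rfl⟩, fun W ⟨a, _, b, _, h⟩ => ?_⟩
    exact tila_le_wt (m := 1) (fun _ => zero_le_one) h.left_mem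
  obtain ⟨m, ⟨⟨h0, h1⟩, hm⟩, hmin⟩ := (isCompact_Icc.inter_right hcl).exists_isMinOn ⟨1, hone⟩
    (f := fun m : V → ℝ => ∑ v, m v ^ 2) (by fun_prop)
  refine ⟨m, ∑ v, m v ^ 2, h0, hm, fun W0 hW0 => ?_, le_rfl⟩
  have hE : 0 ≤ ∑ v, m v ^ 2 := Finset.sum_nonneg fun v _ => sq_nonneg _
  have key : ∀ e : ℝ, 0 < e → ∑ v, m v ^ 2 ≤ wt m W0 + e * Fintype.card V := by
    intro e he
    have he1 : 0 < 1 + e := by linarith
    obtain ⟨χ, hχ⟩ : ∃ χ : V → ℝ, ∀ v, χ v = if v ∈ W0 then 1 else 0 := ⟨_, fun _ => rfl⟩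
    have hχ0 : ∀ v, 0 ≤ χ v := fun v => by rw [hχ]; split_ifs <;> norm_num
    have hχ1 : ∀ v, χ v ≤ 1 := fun v => by rw [hχ]; split_ifs <;> norm_num
    have h2 : ∑ v, m v ^ 2 ≤ ∑ v, ((m v + e * χ v) / (1 + e)) ^ 2 := by
      refine hmin (a := fun v => (m v + e * χ v) / (1 + e)) ⟨⟨fun v => ?_, fun v => ?_⟩, ?_⟩
      · exact div_nonneg (add_nonneg (h0 v) (mul_nonneg he.le (hχ0 v))) he1.le
      · refine (div_le_one he1).2 (add_le_add (h1 v) ?_)
        exact mul_le_of_le_one_right he.le (hχ1 v)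
      · intro W hW
        obtain ⟨u, hu, hu0⟩ := hc.meet (i := false) hW hW0
        have h3 := tila_le_wt hχ0 hu
        rw [hχ, if_pos hu0] at h3
        have h4 := hm W hW
        unfold wt at h3 h4 ⊢
        rw [← Finset.sum_div, Finset.sum_add_distrib, ← Finset.mul_sum, one_le_div he1]
        exact add_le_add h4 (le_mul_of_one_le_right he.le h3)
    have h5 : ∑ v, (m v + e * χ v) ^ 2 ≤
        ∑ v, m v ^ 2 + 2 * e * wt m W0 + e ^ 2 * Fintype.card V := by
      rw [wt_eq_sum, Finset.mul_sum, ← Finset.sum_add_distrib, ← Finset.card_univ,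
        Finset.cast_card, Finset.mul_sum, ← Finset.sum_add_distrib]
      refine Finset.sum_le_sum fun v _ => ?_
      rw [hχ]
      split_ifs
      · exact le_of_eq (by ring)
      · nlinarith [sq_nonneg e]
    simp only [div_pow] at h2
    rw [← Finset.sum_div, le_div_iff₀ (pow_pos he1 2)] at h2
    have h6 : 0 ≤ e * (Fintype.card V : ℝ) := mul_nonneg he.le (Nat.cast_nonneg _)
    refine le_of_mul_le_mul_left ?_ (show 0 < 2 * e by linarith)
    nlinarith [mul_nonneg (sq_nonneg e) hE, mul_nonneg he.le h6]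
  refine le_of_forall_pos_le_add fun ε hε => ?_
  have hN : (0 : ℝ) < Fintype.card V + 1 := by positivity
  refine (key (ε / (Fintype.card V + 1)) (div_pos hε hN)).trans ?_
  rw [add_le_add_iff_left, div_mul_eq_mul_div, div_le_iff₀ hN]
  nlinarith

/-- The weighted distance from `A`. -/
theorem exists_dist (hn : Cn G univ) {m : V → ℝ} (hm : ∀ v, 0 ≤ m v) {A : Set V}
    (hA : A.Nonempty) : ∃ x : V → ℝ, (∀ v, 0 ≤ x v) ∧ (∀ v ∈ A, x v = 0) ∧
      (∀ v w, G.Adj v w → x w ≤ x v + m v) ∧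
      ∀ v, ∃ W, ∃ a ∈ A, Con G W a v ∧ wt m W ≤ x v + m v := by
  obtain ⟨a0, ha0⟩ := hA
  have h1 : ∀ v, ∃ W ∈ {W : Set V | ∃ a ∈ A, Con G W a v},
      ∀ W' ∈ {W : Set V | ∃ a ∈ A, Con G W a v}, wt m (W \ {v}) ≤ wt m (W' \ {v}) :=
    fun v => exists_min_image _ (fun W => wt m (W \ {v})) (toFinite _)
      ⟨univ, a0, ha0, hn a0 trivial v trivial⟩
  choose W hW hmin using h1
  refine ⟨fun v => wt m (W v \ {v}), fun v => wt_nonneg hm _, fun v hv => ?_, fun v w h => ?_,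
    fun v => ?_⟩
  · refine le_antisymm ((hmin v {v} ⟨v, hv, Con.refl rfl⟩).trans ?_) (wt_nonneg hm _)
    simp [wt]
  · obtain ⟨a, ha, hc⟩ := hW v
    have h2 : Con G (insert w (W v)) a w := (hc.mono (subset_insert _ _)).trans
      (Con.of_adj h (mem_insert_of_mem _ hc.right_mem) (mem_insert _ _))
    refine (hmin w _ ⟨a, ha, h2⟩).trans (le_trans (wt_mono hm ?_) (tila_wt_le hm (W v) v))
    exact fun u hu => hu.1.resolve_left hu.2
  · obtain ⟨a, ha, hc⟩ := hW v
    exact ⟨W v, a, ha, hc, tila_wt_le hm (W v) v⟩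

theorem exists_pretil (hc : HC G side) (hn : Cn G univ) : ∃ m X H, PreTil G side m X H := by
  obtain ⟨m, h, h0, h1, h2, h3⟩ := exists_weights hc
  have h4 : ∀ i, (side i false).Nonempty := fun i => by
    obtain ⟨a, ha, -⟩ := hc.cr_univ i
    exact ⟨a, ha⟩
  choose X hX0 hX1 hX2 hX3 using fun i => exists_dist hn h0 (h4 i)
  have h5 : ∀ i W, Cr G side i W → (if i then h else 1) ≤ wt m W := fun i W hW => by
    cases i
    · exact h1 W hW
    · exact h2 W hW
  refine ⟨m, X, fun i => if i then h else 1, h0, hX0, rfl, h3, h5, hX2, hX1, fun i v hv => ?_⟩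
  obtain ⟨W, a, ha, hW, hle⟩ := hX3 i v
  exact (h5 i W ⟨a, ha, v, hv, hW⟩).trans hle

end KP2
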