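import Pool.Agent.Lib.MP_e1e491_gt.P2.Int
import Pool.Agent.Lib.MP_e1e491_gt.P2.TilA

/-! The lines of the tiling. -/

namespace KP2

open Set Metric
open scoped Classical

variable {V : Type} [Fintype V] {G : SimpleGraph V} {side : Bool → Bool → Set V} {m : V → ℝ}
  {X : Bool → V → ℝ} {H : Bool → ℝ}

/-- A walk from below `t` to above `t` meets the line. -/
theorem PreTil.meet (T : PreTil G side m X H) {i : Bool} {t : ℝ} (ht : ∀ v, t ≠ X i v)
    {W : Set V} {a b : V} (h : Con G W a b) (ha : X i a < t) (hb : t < X i b + m b) :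
    (W ∩ Vt m X i t).Nonempty := by
  obtain ⟨w, hw, hP, h1⟩ := h.exists_first (P := fun v => t < X i v + m v) hb
  refine ⟨w, hw, ?_, hP⟩
  rcases h1 with rfl | ⟨u, hu, h2⟩
  · exact ha
  · exact lt_of_le_of_ne ((T.adj i u w hu).trans (not_lt.1 h2.right_mem.2)) (ht w).symm

theorem PreTil.cr_vt (T : PreTil G side m X H) (hc : HC G side) {i : Bool} {t : ℝ}
    (ht : ∀ v, t ≠ X i v) (h : t ∈ Ioo 0 (H i)) : Cr G side (!i) (Vt m X i t) := by
  refine hc.cr_of_not ?_
  rintro ⟨a, ha, b, hb, hab⟩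
  obtain ⟨v, h1, h2⟩ := T.meet ht hab (by rw [T.zero i a ha]; exact h.1)
    (h.2.trans_le (T.one i b hb))
  exact h1 h2

theorem PreTil.line_of_eq (T : PreTil G side m X H) {i : Bool} {t : ℝ}
    (ht : ∀ j v, t ≠ X j v ∧ t ≠ X j v + m v) (h : Cr G side (!i) (Vt m X i t))
    (he : wt m (Vt m X i t) = H (!i)) : Line G side m X H i t := by
  obtain ⟨a, ha, b, hb, q, hq⟩ := h
  have hp := q.bypass_isPath
  have hsub : ∀ v ∈ q.bypass.support, v ∈ Vt m X i t := fun v hv =>
    hq v (q.support_bypass_subset_support hv)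
  generalize q.bypass = p at hp hsub
  have h1 : H (!i) ≤ wt m {v | v ∈ p.support} := T.cross _ _ ⟨a, ha, b, hb, p, fun _ hv => hv⟩
  have h2 : ∀ v, v ∈ Vt m X i t → v ∈ p.support := fun v hv => by
    by_contra hv'
    have h3 : wt m {v | v ∈ p.support} < wt m (Vt m X i t) := by
      rw [wt_eq_sum, wt_eq_sum]
      refine Finset.sum_lt_sum (fun w _ => ?_) ⟨v, Finset.mem_univ _, ?_⟩
      · by_cases hw : w ∈ p.support
        · rw [if_pos (show w ∈ {v | v ∈ p.support} from hw), if_pos (hsub w hw)]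
        · rw [if_neg (show w ∉ {v | v ∈ p.support} from hw)]
          split_ifs
          exacts [T.m_nonneg w, le_rfl]
      · rw [if_neg (show v ∉ {v | v ∈ p.support} from hv'), if_pos hv]
        linarith [hv.1, hv.2]
    linarith
  have h3 : ∀ v, v ∈ Vt m X i t ↔ ∃ n ≤ p.length, p.getVert n = v := fun v => by
    refine ⟨fun hv => ?_, ?_⟩
    · obtain ⟨n, h4, h5⟩ := SimpleGraph.Walk.mem_support_iff_exists_getVert.1 (h2 v hv)
      exact ⟨n, h5, h4⟩
    · rintro ⟨n, h4, h5⟩
      exact hsub v (SimpleGraph.Walk.mem_support_iff_exists_getVert.2 ⟨n, h5, h4⟩)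
  have h4 : ∑ n ∈ Finset.range (p.length + 1), m (p.getVert n) = H (!i) := by
    rw [← he, wt, ← Finset.sum_image (f := m) (g := p.getVert) fun x hx y hy hxy =>
      hp.getVert_injOn (by simpa [Nat.lt_succ_iff] using hx) (by simpa [Nat.lt_succ_iff] using hy)
        hxy]
    refine Finset.sum_congr ?_ fun _ _ => rfl
    ext v
    simp only [Finset.mem_image, Finset.mem_range, Nat.lt_succ_iff, Finset.mem_filter,
      Finset.mem_univ, true_and, h3]
  have h0 : X (!i) (p.getVert 0) = 0 := by rw [p.getVert_zero]; exact T.zero _ a ha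
  have h5 : H (!i) ≤ X (!i) (p.getVert p.length) + m (p.getVert p.length) := by
    rw [p.getVert_length]; exact T.one _ b hb
  have h6 : ∀ n ∈ Finset.range p.length,
      0 ≤ m (p.getVert n) - (X (!i) (p.getVert (n + 1)) - X (!i) (p.getVert n)) := fun n hn => by
    linarith [T.adj (!i) _ _ (p.adj_getVert_succ (Finset.mem_range.1 hn))]
  have h7 : ∑ n ∈ Finset.range p.length,
      (m (p.getVert n) - (X (!i) (p.getVert (n + 1)) - X (!i) (p.getVert n))) =
      H (!i) - m (p.getVert p.length) - X (!i) (p.getVert p.length) := by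
    rw [Finset.sum_sub_distrib, Finset.sum_range_sub (fun n => X (!i) (p.getVert n)), h0, ← h4,
      Finset.sum_range_succ]
    ring
  have h8 := Finset.sum_nonneg h6
  have h9 := (Finset.sum_eq_zero_iff_of_nonneg h6).1 (by linarith)
  refine ⟨ht, p.length, p.getVert, h3, fun n hn => ⟨p.adj_getVert_succ hn, ?_⟩,
    by rw [p.getVert_zero]; exact ha, by rw [p.getVert_length]; exact hb, h0, by linarith⟩
  linarith [h9 n (Finset.mem_range.2 hn)]

theorem PreTil.til (T : PreTil G side m X H) (hc : HC G side) (hn : Cn G univ) :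
    Til G side m X H := by
  have h1 : 0 < H true := by
    have h2 := T.cross false univ (hc.cr_univ false)
    rw [T.H_false] at h2
    refine lt_of_lt_of_le ?_ T.area
    refine lt_of_le_of_ne (Finset.sum_nonneg fun v _ => sq_nonneg _) fun h3 => ?_
    have h4 := (Finset.sum_eq_zero_iff_of_nonneg fun v _ => sq_nonneg (m v)).1 h3.symm
    rw [wt, Finset.sum_eq_zero fun v _ => pow_eq_zero_iff two_ne_zero |>.1
      (h4 v (Finset.mem_univ v))] at h2
    linarith
  have hpos : ∀ i, 0 < H i := fun i => by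
    cases i
    · rw [T.H_false]; exact one_pos
    · exact h1
  have hH : ∀ i, H (!i) * (H i - 0) = H true := fun i => by
    cases i <;> simp [T.H_false]
  have hw : ∀ i, ∀ᵐ t : ℝ, t ∈ Ioo 0 (H i) → H (!i) ≤ wt m (Vt m X i t) := fun i =>
    (ae_ne m X).mono fun t ht h => T.cross _ _ (T.cr_vt hc (fun v => (ht i v).1) h)
  have hle : ∀ i, ∀ v ∈ (Finset.univ : Finset V), m v * ov m X i 0 (H i) v ≤ m v ^ 2 :=
    fun i v _ => by
    rw [sq]
    exact mul_le_mul_of_nonneg_left (ov_le v (T.m_nonneg v)) (T.m_nonneg v)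
  have hs := fun i => Finset.sum_le_sum (hle i)
  have hge := fun i => le_sum_ov (hpos i).le (hw i)
  have hpo : ∀ i v, 0 < m v → X i v + m v ≤ H i := fun i v hv => by
    have h2 := (Finset.sum_eq_sum_iff_of_le (hle i)).1
      (le_antisymm (hs i) (by linarith [hge i, hH i, T.area])) v (Finset.mem_univ v)
    rw [sq, mul_right_inj' hv.ne', ov] at h2
    rcases max_cases 0 (min (H i) (X i v + m v) - max 0 (X i v)) with h3 | h3
    · linarith [h3.1]
    · linarith [h3.1, min_le_left (H i) (X i v + m v), le_max_right 0 (X i v)]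
  refine ⟨T, hpos, le_antisymm T.area (by linarith [hge true, hH true, hs true]),
    fun i v => ?_, fun i => ?_⟩
  · by_contra hlt
    obtain ⟨t, ht, h2, -⟩ := exists_wt_le (f := m) (m := m) (X := X) (i := i) (not_le.1 hlt)
      (P := fun t => ∀ j v, t ≠ X j v ∧ t ≠ X j v + m v) ((ae_ne m X).mono fun t ht _ => ht)
    obtain ⟨a, ha, -⟩ := hc.cr_univ i
    obtain ⟨w, -, h3, h4⟩ := T.meet (fun v => (h2 i v).1) (hn a (mem_univ a) v (mem_univ v))
      (by rw [T.zero i a ha]; exact (hpos i).trans ht.1) ht.2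
    linarith [hpo i w (by linarith), ht.1]
  · filter_upwards [ae_ne m X, ae_wt_eq (hpos i).le (hw i)
      (by linarith [hs i, hH i, T.area])] with t h2 h3 h4
    exact T.line_of_eq h2 (T.cr_vt hc (fun v => (h2 i v).1) h4) (h3 h4)

theorem exists_til (hc : HC G side) (hn : Cn G univ) : ∃ m X H, Til G side m X H := by
  obtain ⟨m, X, H, T⟩ := exists_pretil hc hn
  exact ⟨m, X, H, T.til hc hn⟩

end KP2
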